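import Pool.Agent.Lib.MP_061df2_co.Count

set_option autoImplicit false
set_option linter.unusedSectionVars false

open Finset
open scoped Classical

namespace Pool.Agent.OCyc

variable {V : Type*} [Fintype V] {E : V → V → Prop} {K : ℕ} {d : Fin (K + 1) → Bool}

/-- vertices covered by a family of blocks -/
noncomputable def cover (F : Finset (Fin (K + 1) × Fin (K + 1) → V)) : Finset V :=
  F.biUnion (fun α => univ.image α)

/-- a family of disjoint tiled blocks -/
def Fam (E : V → V → Prop) (d : Fin (K + 1) → Bool)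
    (F : Finset (Fin (K + 1) × Fin (K + 1) → V)) : Prop :=
  (∀ α ∈ F, Base E d α) ∧ ∀ α ∈ F, ∀ β ∈ F, α ≠ β → ∀ x y, α x ≠ β y

lemma mem_cover {F : Finset (Fin (K + 1) × Fin (K + 1) → V)} {v : V} :
    v ∈ cover F ↔ ∃ α ∈ F, ∃ x, α x = v := by simp [cover]

lemma card_cover (F : Finset (Fin (K + 1) × Fin (K + 1) → V)) :
    (cover F).card ≤ F.card * (K + 1) ^ 2 := by
  apply card_biUnion_le_card_mul
  intro α _
  refine card_image_le.trans ?_
  simp [sq]

lemma Fam.mono {F F' : Finset (Fin (K + 1) × Fin (K + 1) → V)} (h : Fam E d F) (hF : F' ⊆ F) :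
    Fam E d F' :=
  ⟨fun α ha => h.1 α (hF ha), fun α ha β hb => h.2 α (hF ha) β (hF hb)⟩

lemma Base.tiled {α : Fin (K + 1) × Fin (K + 1) → V} (h : Base E d α) :
    Tiled E d (univ.image α) := by
  have := Tiled.family univ α h.1 h.2
  rwa [univ_product_univ] at this

lemma Fam.tiled {F : Finset (Fin (K + 1) × Fin (K + 1) → V)} (h : Fam E d F) :
    Tiled E d (cover F) := by
  induction F using Finset.induction_on with
  | empty => simpa [cover] using Tiled.empty
  | insert α F ha ih =>
    unfold cover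
    rw [biUnion_insert]
    refine (h.1 α (mem_insert_self _ _)).tiled.union (ih (h.mono (subset_insert _ _))) ?_
    rw [disjoint_left]
    intro v h1 h2
    obtain ⟨x, -, rfl⟩ := mem_image.1 h1
    obtain ⟨β, hb, y, e⟩ := mem_cover.1 h2
    exact h.2 α (mem_insert_self _ _) β (mem_insert_of_mem hb) (by rintro rfl; exact ha hb) x y
      e.symm

lemma Abs.tiled {α : Fin (K + 1) × Fin (K + 1) → V} {s : Fin (K + 1) → V} (h : Base E d α)
    (ha : Abs E d s α) (hs : Function.Injective s) (hd : ∀ i x, s i ≠ α x) :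
    Tiled E d (univ.image α ∪ univ.image s) := by
  have h1 := Tiled.family (E := E) (d := d) univ
    (fun x : Fin (K + 1) × Fin (K + 1) => if x.2 = 0 then s x.1 else α x) (by
      rintro ⟨i, j⟩ ⟨i', j'⟩ e
      simp only at e
      split_ifs at e with a b b
      · rw [hs e, a, b]
      · exact absurd e (hd _ _)
      · exact absurd e.symm (hd _ _)
      · exact h.1 e) ha.2
  refine (Tiled.add _ (fun i => α (i, 0)) h1 ?_ ha.1 ?_).cast ?_
  · intro i j e
    simpa using h.1 e
  · intro i hi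
    obtain ⟨x, -, e⟩ := mem_image.1 hi
    split_ifs at e with a
    · exact hd _ _ e
    · exact a (by rw [h.1 e])
  · ext v
    simp only [mem_union, mem_image, mem_product, mem_univ, true_and, Prod.exists]
    constructor
    · rintro (⟨i, j, rfl⟩ | ⟨i, rfl⟩)
      · split_ifs
        · exact Or.inr ⟨i, rfl⟩
        · exact Or.inl ⟨i, j, rfl⟩
      · exact Or.inl ⟨i, 0, rfl⟩
    · rintro (⟨i, j, rfl⟩ | ⟨i, rfl⟩)
      · by_cases a : j = 0
        · exact Or.inr ⟨i, by rw [a]⟩
        · exact Or.inl ⟨i, j, if_neg a⟩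
      · exact Or.inl ⟨i, 0, if_pos rfl⟩

lemma absorb_use (l : ℕ) : ∀ (F : Finset (Fin (K + 1) × Fin (K + 1) → V)) (W : Finset V),
    Fam E d F → (∀ s, l ≤ (F.filter (fun α => Abs E d s α)).card) → W.card = (K + 1) * l →
    Disjoint (cover F) W → Tiled E d (cover F ∪ W) := by
  induction l with
  | zero =>
    intro F W hF _ hW _
    have : W = ∅ := by simpa using hW
    simpa [this] using hF.tiled
  | succ l ih =>
    intro F W hF hl hW hd
    obtain ⟨s, hs⟩ := Function.Embedding.exists_of_card_le_finset (α := Fin (K + 1)) (s := W)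
      (by rw [hW, Fintype.card_fin]; nlinarith)
    have hs' : ∀ i, s i ∈ W := fun i => mem_coe.1 (hs ⟨i, rfl⟩)
    obtain ⟨α, hα⟩ : (F.filter (fun α => Abs E d s α)).Nonempty :=
      card_pos.1 (by have := hl s; omega)
    obtain ⟨a1, a2⟩ := mem_filter.1 hα
    have sub : univ.image s ⊆ W := by
      intro v hv
      obtain ⟨i, -, rfl⟩ := mem_image.1 hv
      exact hs' i
    have csub : cover (F.erase α) ⊆ cover F := biUnion_subset_biUnion_of_subset_left _
      (erase_subset _ _)
    have h1 := ih (F.erase α) (W \ univ.image s) (hF.mono (erase_subset _ _)) (by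
        intro s'
        have h1 := hl s'
        rw [filter_erase]
        have := pred_card_le_card_erase (s := F.filter (fun α => Abs E d s' α)) (a := α)
        omega)
      (by
        rw [card_sdiff_of_subset sub, card_image_of_injective _ s.injective, hW]
        simp [mul_add])
      (hd.mono csub sdiff_subset)
    have hsa : ∀ i x, s i ≠ α x := fun i x e =>
      disjoint_left.1 hd (mem_cover.2 ⟨α, a1, x, e.symm⟩) (hs' i)
    have h2 := Abs.tiled (hF.1 α a1) a2 s.injective hsa
    refine (h1.union h2 ?_).cast ?_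
    · rw [disjoint_left]
      intro v h3 h4
      rcases mem_union.1 h4 with h4 | h4
      · obtain ⟨x, -, rfl⟩ := mem_image.1 h4
        rcases mem_union.1 h3 with h3 | h3
        · obtain ⟨β, hb, y, e⟩ := mem_cover.1 h3
          exact hF.2 β (mem_of_mem_erase hb) α a1 (ne_of_mem_erase hb) y x e
        · exact disjoint_left.1 hd (mem_cover.2 ⟨α, a1, x, rfl⟩) (mem_sdiff.1 h3).1
      · rcases mem_union.1 h3 with h3 | h3
        · exact disjoint_left.1 hd (csub h3) (sub h4)
        · exact (mem_sdiff.1 h3).2 h4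
    · have e1 : cover F = cover (F.erase α) ∪ univ.image α := by
        conv_lhs => rw [← insert_erase a1]
        unfold cover
        rw [biUnion_insert, union_comm]
      have e2 : W = W \ univ.image s ∪ univ.image s := (sdiff_union_of_subset sub).symm
      rw [e1]
      conv_rhs => rw [e2]
      ac_rfl

lemma absorb_build (hK : 3 ≤ K) (d : Fin (K + 1) → Bool) (μ m : ℕ) (hm : 0 < m)
    (hn : 0 < Fintype.card V) (hE : ∀ b u b' u', μ ≤ (nb E b u ∩ nb E b' u').card)
    (p : ℝ) (hp0 : 0 ≤ p) (hp1 : p ≤ 1)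
    (hp : p * (Fintype.card V : ℝ) ^ ((K + 1) ^ 2) ≤ (m : ℝ) ^ ((K + 1) ^ 2)) (N : ℕ)
    (hN : m + N * (K + 1) ^ 2 ≤ μ) :
    ∃ F : Finset (Fin (K + 1) × Fin (K + 1) → V), Fam E d F ∧ F.card ≤ N ∧
      ∑ s : Fin (K + 1) → V, (1 / 2 : ℝ) ^ (F.filter (fun α => Abs E d s α)).card ≤
        (Fintype.card V : ℝ) ^ (K + 1) * (1 - p / 2) ^ N := by
  induction N with
  | zero => exact ⟨∅, ⟨by simp, by simp⟩, by simp, by simp⟩
  | succ N ih =>
    obtain ⟨F, F1, F2, F3⟩ := ih (by nlinarith)
    set w : (Fin (K + 1) → V) → ℝ :=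
      fun s => (1 / 2 : ℝ) ^ (F.filter (fun α => Abs E d s α)).card with hw
    set G := univ.filter (fun α : Fin (K + 1) × Fin (K + 1) → V =>
      Base E d α ∧ ∀ x, α x ∉ cover F) with hG
    have hc : ∀ s, m ^ ((K + 1) ^ 2) ≤ (G.filter (fun α => Abs E d s α)).card := by
      intro s
      rw [hG, filter_filter]
      refine absorb_count hK d s (cover F) m hn (fun b u b' u' => le_trans ?_ (hE b u b' u'))
      have h1 := card_cover F
      have h2 := Nat.mul_le_mul_right ((K + 1) ^ 2) F2
      rw [add_mul] at hN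
      omega
    obtain ⟨v0⟩ : Nonempty V := Fintype.card_pos_iff.1 hn
    have hne : G.Nonempty := by
      have := hc (fun _ => v0)
      exact (card_pos.1 (lt_of_lt_of_le (pow_pos hm _) this)).mono (filter_subset _ _)
    have w0 : ∀ s, 0 ≤ w s := fun s => by positivity
    have W0 : 0 ≤ ∑ s, w s := sum_nonneg (fun s _ => w0 s)
    obtain ⟨α, hα, h⟩ := exists_le_of_sum_le (f := fun _ => p * ∑ s, w s)
      (g := fun α => ∑ s, if Abs E d s α then w s else 0) hne (by
        rw [sum_comm, sum_const, nsmul_eq_mul]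
        have h1 : (G.card : ℝ) ≤ (Fintype.card V : ℝ) ^ ((K + 1) ^ 2) := by
          have := card_le_univ G
          simp only [Fintype.card_fun, Fintype.card_prod, Fintype.card_fin, ← sq] at this
          exact_mod_cast this
        calc _ = p * G.card * ∑ s, w s := by ring
          _ ≤ (m : ℝ) ^ ((K + 1) ^ 2) * ∑ s, w s :=
            mul_le_mul_of_nonneg_right ((mul_le_mul_of_nonneg_left h1 hp0).trans hp) W0
          _ ≤ _ := by
            rw [mul_sum]
            apply sum_le_sum
            intro s _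
            rw [← sum_filter, sum_const, nsmul_eq_mul]
            exact mul_le_mul_of_nonneg_right (by exact_mod_cast hc s) (w0 s))
    obtain ⟨-, a1, a2⟩ := mem_filter.1 hα
    have a3 : α ∉ F := fun h => a2 (0, 0) (mem_cover.2 ⟨α, h, _, rfl⟩)
    refine ⟨insert α F, ⟨?_, ?_⟩, by rw [card_insert_of_notMem a3]; omega, ?_⟩
    · intro β hb
      rcases mem_insert.1 hb with rfl | hb'
      · exact a1
      · exact F1.1 β hb'
    · intro β hb γ hg hne x y e
      rcases mem_insert.1 hb with rfl | hb' <;> rcases mem_insert.1 hg with rfl | hg'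
      · exact hne rfl
      · exact a2 x (mem_cover.2 ⟨γ, hg', y, e.symm⟩)
      · exact a2 y (mem_cover.2 ⟨β, hb', x, e⟩)
      · exact F1.2 β hb' γ hg' hne x y e
    · have e : ∀ s, (1 / 2 : ℝ) ^ ((insert α F).filter (fun α => Abs E d s α)).card
          = w s - 1 / 2 * (if Abs E d s α then w s else 0) := by
        intro s
        rw [filter_insert]
        split_ifs
        · rw [card_insert_of_notMem (fun h => a3 (mem_filter.1 h).1), pow_succ]
          simp only [hw]
          ring
        · simp [hw]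
      simp only [e]
      rw [sum_sub_distrib, ← mul_sum, pow_succ (1 - p / 2), ← mul_assoc]
      have h2 := mul_le_mul_of_nonneg_right F3 (by linarith : 0 ≤ 1 - p / 2)
      nlinarith

lemma nb_inter (η : ℝ)
    (hE : ∀ v, (1 / 2 + η) * Fintype.card V ≤ ((univ.filter (fun y => E v y)).card : ℝ) ∧
      (1 / 2 + η) * Fintype.card V ≤ ((univ.filter (fun y => E y v)).card : ℝ))
    (b : Bool) (u : V) (b' : Bool) (u' : V) :
    2 * η * Fintype.card V ≤ ((nb E b u ∩ nb E b' u').card : ℝ) := by
  have h1 : ∀ b u, (1 / 2 + η) * Fintype.card V ≤ ((nb E b u).card : ℝ) := by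
    intro b u
    cases b
    · simpa [nb, step] using (hE u).2
    · simpa [nb, step] using (hE u).1
  have h2 := card_union_add_card_inter (nb E b u) (nb E b' u')
  have h3 := card_le_univ (nb E b u ∪ nb E b' u')
  have h4 : ((nb E b u).card : ℝ) + (nb E b' u').card ≤
      Fintype.card V + (nb E b u ∩ nb E b' u').card := by
    exact_mod_cast (by omega : (nb E b u).card + (nb E b' u').card ≤
      Fintype.card V + (nb E b u ∩ nb E b' u').card)
  have := h1 b u
  have := h1 b' u'
  linarith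

lemma exp_beats (L k : ℕ) : ∃ q0 : ℕ, ∀ q, q0 ≤ q → (L * (q + 1) : ℝ) ^ k < 2 ^ q := by
  have h := tendsto_pow_const_mul_const_pow_of_abs_lt_one k (r := 1 / 2) (by norm_num [abs_of_pos])
  have h1 : (0 : ℝ) < 1 / (2 * L + 1) ^ k := by positivity
  obtain ⟨q0, hq⟩ := Filter.eventually_atTop.1 (h.eventually (gt_mem_nhds h1))
  refine ⟨q0 + 1, fun q hq' => ?_⟩
  have h2 := hq q (by omega)
  have h3 : (1 : ℝ) ≤ q := by exact_mod_cast (by omega : 1 ≤ q)
  rw [one_div_pow, mul_one_div, div_lt_div_iff₀ (by positivity) (by positivity), one_mul,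
    ← mul_pow] at h2
  refine lt_of_le_of_lt (pow_le_pow_left₀ (by positivity) ?_ k) h2
  have : (0 : ℝ) ≤ L := by positivity
  nlinarith

/-- the absorbing set -/
theorem absorbing (hK : 3 ≤ K) (d : Fin (K + 1) → Bool) (η : ℝ) (hη : 0 < η) :
    ∃ ε : ℝ, 0 < ε ∧ ∃ n0 : ℕ, ∀ (V : Type) [Fintype V] (E : V → V → Prop), n0 ≤ Fintype.card V →
    (∀ v, (1 / 2 + η) * Fintype.card V ≤ ((univ.filter (fun y => E v y)).card : ℝ) ∧
      (1 / 2 + η) * Fintype.card V ≤ ((univ.filter (fun y => E y v)).card : ℝ)) →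
    ∃ B : Finset V, (B.card : ℝ) ≤ η / 2 * Fintype.card V ∧ ∀ W : Finset V, Disjoint B W →
      (K + 1) ∣ W.card → (W.card : ℝ) ≤ ε * Fintype.card V → Tiled E d (B ∪ W) := by
  set p : ℝ := (min η 1) ^ ((K + 1) ^ 2) with hp
  have m0 : 0 < min η 1 := by positivity
  have p0 : 0 < p := by positivity
  have p1 : p ≤ 1 := pow_le_one₀ m0.le (min_le_right _ _)
  obtain ⟨D, hD⟩ := exists_pow_lt_of_lt_one (x := (1 / 4 : ℝ)) (y := 1 - p / 2) (by norm_num)
    (by linarith)
  obtain ⟨L, hL⟩ := exists_nat_gt (2 * D * (K + 1) ^ 2 / η)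
  have L0 : (0 : ℝ) < L := lt_of_le_of_lt (by positivity) hL
  have L0' : 0 < L := by exact_mod_cast L0
  rw [div_lt_iff₀ hη] at hL
  obtain ⟨q0, hq0⟩ := exp_beats L (K + 1)
  obtain ⟨n1, hn1⟩ := exists_nat_gt (4 / η)
  rw [div_lt_iff₀ hη] at hn1
  refine ⟨1 / (2 * L), by positivity, max n1 (L * (q0 + 1)), fun V _ E hn hE => ?_⟩
  have a1 : (n1 : ℝ) ≤ Fintype.card V := by exact_mod_cast (le_max_left _ _).trans hn
  have a2 : L * (q0 + 1) ≤ Fintype.card V := (le_max_right _ _).trans hn
  have a3 : 0 < Fintype.card V := lt_of_lt_of_le (by positivity) a2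
  have a4 : (0 : ℝ) < Fintype.card V := by exact_mod_cast a3
  have a5 : 4 < η * Fintype.card V := by nlinarith
  set q := Fintype.card V / L with hq
  have q1 : q0 + 1 ≤ q := (Nat.le_div_iff_mul_le L0').2 (by rwa [mul_comm])
  have q2 : (L : ℝ) * q ≤ Fintype.card V := by exact_mod_cast Nat.mul_div_le _ _
  have q3 : (Fintype.card V : ℝ) ≤ L * (q + 1) := by
    exact_mod_cast (Nat.lt_mul_div_succ _ L0').le
  have q4 : (D * q * (K + 1) ^ 2 : ℝ) ≤ η / 2 * Fintype.card V := by
    have h1 : (0 : ℝ) ≤ q := by positivity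
    have h2 := mul_le_mul_of_nonneg_right hL.le h1
    nlinarith
  obtain ⟨F, F1, F2, F3⟩ := absorb_build (E := E) hK d ⌊2 * η * Fintype.card V⌋₊
    ⌈η * Fintype.card V⌉₊ (Nat.ceil_pos.2 (by linarith)) a3
    (fun b u b' u' => Nat.floor_le_of_le (nb_inter η hE b u b' u')) p p0.le p1
    (by
      rw [hp, ← mul_pow]
      refine pow_le_pow_left₀ (by positivity) ?_ _
      exact (mul_le_mul_of_nonneg_right (min_le_left _ _) a4.le).trans (Nat.le_ceil _))
    (D * q) (by
      apply Nat.le_floor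
      push_cast
      have := Nat.ceil_lt_add_one (by linarith : 0 ≤ η * Fintype.card V)
      linarith)
  refine ⟨cover F, ?_, fun W hW hd hc => ?_⟩
  · have h1 := (card_cover F).trans (Nat.mul_le_mul_right _ F2)
    have h2 : ((cover F).card : ℝ) ≤ D * q * (K + 1) ^ 2 := by exact_mod_cast h1
    linarith
  obtain ⟨l, hl⟩ := hd
  refine absorb_use l F W F1 (fun s => ?_) hl hW
  have l1 : l ≤ q := by
    have h1 : (l : ℝ) ≤ W.card := by
      have : l ≤ W.card := by rw [hl]; nlinarith
      exact_mod_cast this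
    rw [one_div, ← div_eq_inv_mul, le_div_iff₀ (by positivity)] at hc
    have h2 : (1 : ℝ) ≤ q := by exact_mod_cast (by omega : 1 ≤ q)
    have h3 : (l : ℝ) ≤ q := by
      apply le_of_mul_le_mul_right _ (by positivity : (0 : ℝ) < 2 * L)
      nlinarith
    exact_mod_cast h3
  refine l1.trans ?_
  by_contra hlt
  push Not at hlt
  have h1 := single_le_sum (f := fun s : Fin (K + 1) → V =>
    (1 / 2 : ℝ) ^ (F.filter (fun α => Abs E d s α)).card) (fun s _ => by positivity) (mem_univ s)
  have h2 : (1 / 2 : ℝ) ^ q ≤ (1 / 2 : ℝ) ^ (F.filter (fun α => Abs E d s α)).card :=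
    pow_le_pow_of_le_one (by norm_num) (by norm_num) hlt.le
  have h3 : (1 - p / 2) ^ (D * q) ≤ (1 / 2) ^ q * (1 / 2) ^ q := by
    rw [pow_mul, ← mul_pow]
    exact pow_le_pow_left₀ (pow_nonneg (by linarith) _) (by linarith) _
  have h4 := (pow_le_pow_left₀ a4.le q3 (K + 1)).trans_lt (hq0 q (by omega))
  have h5 : (1 / 2 : ℝ) ^ q ≤ (Fintype.card V : ℝ) ^ (K + 1) * ((1 / 2) ^ q * (1 / 2) ^ q) :=
    (h2.trans (h1.trans F3)).trans (mul_le_mul_of_nonneg_left h3 (by positivity))
  have h6 : (2 : ℝ) ^ q * (1 / 2) ^ q = 1 := by rw [← mul_pow]; norm_num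
  have h7 : (0 : ℝ) < (1 / 2) ^ q * (1 / 2) ^ q := by positivity
  have h8 := mul_lt_mul_of_pos_right h4 h7
  rw [← mul_assoc, ← mul_assoc, h6, one_mul, mul_assoc] at h8
  linarith

end Pool.Agent.OCyc
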