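import Pool.Agent.Lib.MP_061df2_co.Primal

set_option autoImplicit false
set_option linter.unusedSectionVars false

open Finset
open scoped Classical

namespace Pool.Agent.OCyc

variable {V : Type*} [Fintype V]

lemma dens_le_one (E : V → V → Prop) {ι : Type*} (c : V → ι) (i j : ι) : dens E c i j ≤ 1 := by
  unfold dens
  apply div_le_one_of_le₀ _ (by positivity)
  unfold ecount
  calc _ ≤ ∑ _u ∈ cls c i, ∑ _v ∈ cls c j, (1 : ℝ) := by
        apply sum_le_sum
        intro u _
        apply sum_le_sum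
        intro v _
        unfold ind
        split_ifs <;> norm_num
    _ = _ := by simp

lemma markov {ι : Type*} [Fintype ι] (x f : ι → ℝ) (hx : ∀ i, 0 ≤ x i) (hf : ∀ i, 0 ≤ f i)
    (B : ℝ) : B * ∑ i, (if B < f i then x i else 0) ≤ ∑ i, x i * f i := by
  rw [mul_sum]
  apply sum_le_sum
  intro i _
  have := hx i
  have := hf i
  split_ifs with h
  · nlinarith
  · simp only [mul_zero]; positivity

lemma deg_aux {ι : Type*} [Fintype ι] (x dn : ι → ℝ) (hx : ∀ j, 0 ≤ x j) (xi : ℝ) (hxi : 0 < xi)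
    (P Rg : ι → Prop) (τ D : ℝ) (hτ : 0 ≤ τ) (hd : ∀ j, dn j ≤ 1)
    (hP : ∀ j, Rg j → τ ≤ dn j → P j) (h : xi * D ≤ ∑ j, dn j * (xi * x j)) :
    D ≤ ∑ j, (if P j then 1 else 0) * x j + ∑ j, (if Rg j then 0 else x j) + τ * ∑ j, x j := by
  have h1 : ∑ j, dn j * (xi * x j) = xi * ∑ j, dn j * x j := by
    rw [mul_sum]
    apply sum_congr rfl
    intro j _
    ring
  rw [h1] at h
  refine (le_of_mul_le_mul_left h hxi).trans ?_
  rw [mul_sum, ← sum_add_distrib, ← sum_add_distrib]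
  apply sum_le_sum
  intro j _
  have h2 := hx j
  have h3 := hd j
  have h4 := mul_nonneg hτ h2
  by_cases p : P j
  · by_cases r : Rg j <;> simp only [p, r, if_true, if_false] <;> nlinarith
  · by_cases r : Rg j
    · have : dn j < τ := by
        by_contra hc
        exact p (hP j r (not_lt.1 hc))
      simp only [p, r, if_true, if_false]
      nlinarith
    · simp only [p, r, if_false]
      nlinarith

lemma card_filter_cls {ι : Type*} [Fintype ι] (c : V → ι) (P : ι → Prop) :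
    ((univ.filter (fun v => P (c v))).card : ℝ) = ∑ j, (if P j then 1 else 0) * ((cls c j).card : ℝ) := by
  rw [← sum_cls' c (fun j => if P j then 1 else 0)]
  simp

lemma sum_card_cls {ι : Type*} [Fintype ι] (c : V → ι) :
    ∑ j, ((cls c j).card : ℝ) = Fintype.card V := by
  have := sum_cls' c (fun _ => 1)
  simpa using this.symm

lemma sum_ecount_out {ι : Type*} [Fintype ι] (E : V → V → Prop) (c : V → ι) (A : Finset V) :
    ∑ j, ecount E A (cls c j) = ∑ u ∈ A, ((univ.filter (fun v => E u v)).card : ℝ) := by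
  unfold ecount
  rw [sum_comm]
  apply sum_congr rfl
  intro u _
  rw [← sum_cls c (fun v => ind E u v)]
  simp [ind]

lemma reduced_deg {ι : Type*} [Fintype ι] (E : V → V → Prop) (c : V → ι) (ε τ η : ℝ) (hτ : 0 ≤ τ)
    (hη : 3 * τ < η) (hn : 0 < Fintype.card V) (G : ι → Prop)
    (hG : ∀ i, G i → (∑ j, if LReg E c ε i j then 0 else ((cls c j).card : ℝ)) ≤ τ * Fintype.card V
      ∧ (∑ j, if LReg E c ε j i then 0 else ((cls c j).card : ℝ)) ≤ τ * Fintype.card V)
    (hE : ∀ v, (1 / 2 + η) * Fintype.card V ≤ ((univ.filter (fun y => E v y)).card : ℝ) ∧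
      (1 / 2 + η) * Fintype.card V ≤ ((univ.filter (fun y => E y v)).card : ℝ)) :
    Deg (fun u v => ¬ G (c u) ∨ ¬ G (c v) ∨
      (LReg E c ε (c u) (c v) ∧ 2 * τ ≤ dens E c (c u) (c v))) := by
  intro v
  have hn' : (0 : ℝ) < Fintype.card V := by exact_mod_cast hn
  by_cases g : G (c v)
  swap
  · simp only [g, not_false_eq_true, true_or, or_true, filter_true, card_univ]
    omega
  have hx : (0 : ℝ) < (cls c (c v)).card := by
    have : 0 < (cls c (c v)).card := card_pos.2 ⟨v, mem_cls.2 rfl⟩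
    exact_mod_cast this
  have key : ∀ (A : Finset V) (s : ℝ), (1 / 2 + η) * Fintype.card V ≤
      A.card + s + 2 * τ * Fintype.card V → s ≤ τ * Fintype.card V →
      Fintype.card V < 2 * A.card := by
    intro A s h1 h2
    have h3 : (Fintype.card V : ℝ) < 2 * A.card := by nlinarith
    exact_mod_cast h3
  constructor
  · have h1 := deg_aux (fun j => ((cls c j).card : ℝ)) (fun j => dens E c (c v) j)
      (fun j => by positivity) _ hx
      (fun j => ¬ G (c v) ∨ ¬ G j ∨ (LReg E c ε (c v) j ∧ 2 * τ ≤ dens E c (c v) j))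
      (fun j => LReg E c ε (c v) j) (2 * τ) ((1 / 2 + η) * Fintype.card V) (by linarith)
      (fun j => dens_le_one _ _ _ _) (fun j h1 h2 => Or.inr (Or.inr ⟨h1, h2⟩)) (by
        simp only [← ecount_eq]
        rw [sum_ecount_out, ← nsmul_eq_mul, ← sum_const]
        exact sum_le_sum (fun u _ => (hE u).1))
    rw [← card_filter_cls c, sum_card_cls] at h1
    exact key _ _ h1 (hG _ g).1
  · have h1 := deg_aux (fun j => ((cls c j).card : ℝ)) (fun j => dens E c j (c v))
      (fun j => by positivity) _ hx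
      (fun j => ¬ G j ∨ ¬ G (c v) ∨ (LReg E c ε j (c v) ∧ 2 * τ ≤ dens E c j (c v)))
      (fun j => LReg E c ε j (c v)) (2 * τ) ((1 / 2 + η) * Fintype.card V) (by linarith)
      (fun j => dens_le_one _ _ _ _) (fun j h1 h2 => Or.inr (Or.inr ⟨h1, h2⟩)) (by
        simp only [mul_comm ((cls c (c v)).card : ℝ), ← ecount_eq]
        simp only [← ecount_swap E _ (cls c (c v))]
        rw [sum_ecount_out, mul_comm, ← nsmul_eq_mul, ← sum_const]
        exact sum_le_sum (fun u _ => (hE u).2))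
    rw [← card_filter_cls c, sum_card_cls] at h1
    exact key _ _ h1 (hG _ g).2

lemma bad_mass {ι : Type*} [Fintype ι] (E : V → V → Prop) (c : V → ι) (ε τ : ℝ) (hτ : 0 < τ)
    (hε : 2 * ε ≤ τ ^ 2) (hn : 0 < Fintype.card V) (M : ℕ) (hM : Fintype.card ι ≤ M)
    (hI : irr E c ε ≤ ε * (Fintype.card V : ℝ) ^ 2) : ∃ G : ι → Prop,
    (∀ i, G i → (∑ j, if LReg E c ε i j then 0 else ((cls c j).card : ℝ)) ≤ τ * Fintype.card V
      ∧ (∑ j, if LReg E c ε j i then 0 else ((cls c j).card : ℝ)) ≤ τ * Fintype.card V) ∧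
    (∀ i, G i → τ * Fintype.card V / (M + 1) ≤ (cls c i).card) ∧
    ∑ i, (if G i then 0 else ((cls c i).card : ℝ)) ≤ 2 * τ * Fintype.card V := by
  have hn' : (0 : ℝ) < Fintype.card V := by exact_mod_cast hn
  set n : ℝ := (Fintype.card V : ℝ) with hn0
  set fo : ι → ℝ := fun i => ∑ j, if LReg E c ε i j then 0 else ((cls c j).card : ℝ) with hfo
  set fi : ι → ℝ := fun i => ∑ j, if LReg E c ε j i then 0 else ((cls c j).card : ℝ) with hfi
  refine ⟨fun i => (fo i ≤ τ * n ∧ fi i ≤ τ * n) ∧ τ * n / (M + 1) ≤ (cls c i).card,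
    fun i h => h.1, fun i h => h.2, ?_⟩
  have h1 := markov (fun i => ((cls c i).card : ℝ)) fo (fun i => by positivity)
    (fun i => sum_nonneg (fun j _ => by split_ifs <;> positivity)) (τ * n)
  have h2 := markov (fun i => ((cls c i).card : ℝ)) fi (fun i => by positivity)
    (fun i => sum_nonneg (fun j _ => by split_ifs <;> positivity)) (τ * n)
  have e1 : ∑ i, ((cls c i).card : ℝ) * fo i = irr E c ε := by
    unfold irr
    apply sum_congr rfl
    intro i _
    rw [hfo, mul_sum]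
    apply sum_congr rfl
    intro j _
    split_ifs <;> simp
  have e2 : ∑ i, ((cls c i).card : ℝ) * fi i = irr E c ε := by
    unfold irr
    rw [sum_comm]
    apply sum_congr rfl
    intro i _
    rw [hfi, mul_sum]
    apply sum_congr rfl
    intro j _
    split_ifs <;> simp [mul_comm]
  rw [e1] at h1
  rw [e2] at h2
  have hp : 0 < τ * n := by positivity
  have h3 : ∑ i, (if τ * n < fo i then ((cls c i).card : ℝ) else 0) ≤ τ * n / 2 := by
    apply le_of_mul_le_mul_left _ hp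
    nlinarith
  have h4 : ∑ i, (if τ * n < fi i then ((cls c i).card : ℝ) else 0) ≤ τ * n / 2 := by
    apply le_of_mul_le_mul_left _ hp
    nlinarith
  have h5 : ∑ _i : ι, τ * n / (M + 1) ≤ τ * n := by
    rw [sum_const, card_univ, nsmul_eq_mul, mul_div_assoc', div_le_iff₀ (by positivity)]
    have : (Fintype.card ι : ℝ) ≤ M := by exact_mod_cast hM
    nlinarith
  calc _ ≤ ∑ i, ((if τ * n < fo i then ((cls c i).card : ℝ) else 0) +
        (if τ * n < fi i then ((cls c i).card : ℝ) else 0) + τ * n / (M + 1)) := by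
        apply sum_le_sum
        intro i _
        have a1 : (0 : ℝ) ≤ (cls c i).card := by positivity
        have a2 : 0 ≤ τ * n / (M + 1) := by positivity
        by_cases b1 : τ * n < fo i <;> by_cases b2 : τ * n < fi i <;>
          simp only [b1, b2, if_true, if_false] <;> split_ifs with b3 <;> try linarith
        have : ¬ τ * n / (M + 1) ≤ (cls c i).card := fun h => b3 ⟨⟨not_lt.1 b1, not_lt.1 b2⟩, h⟩
        linarith
    _ ≤ _ := by
        rw [sum_add_distrib, sum_add_distrib]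
        linarith

lemma slack (τ x : ℝ) (k : ℕ) (hk : 0 < k) (hτ : 0 < τ) (h : 2 * (k + 1) ≤ τ * x) :
    2 * (τ ^ 2 / (4 * k) * x) ≤ τ * (⌊τ * x⌋₊ / k : ℕ) := by
  have hk' : (0 : ℝ) < k := by exact_mod_cast hk
  have h1 := Nat.lt_floor_add_one (τ * x)
  have h2 : ⌊τ * x⌋₊ < k * (⌊τ * x⌋₊ / k + 1) := Nat.lt_mul_div_succ _ hk
  have h3 : (⌊τ * x⌋₊ : ℝ) < k * ((⌊τ * x⌋₊ / k : ℕ) + 1) := by exact_mod_cast h2
  have h4 : τ * x / (2 * k) ≤ (⌊τ * x⌋₊ / k : ℕ) := by
    rw [div_le_iff₀ (by positivity)]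
    nlinarith
  calc _ = τ * (τ * x / (2 * k)) := by field_simp; ring
    _ ≤ _ := mul_le_mul_of_nonneg_left h4 hτ.le

lemma count_low {ι κ : Type*} [Fintype ι] [Fintype κ] {k : ℕ} (Ψ : κ → Fin k → ι) (a : κ → ℝ)
    (ha : ∀ p, 0 ≤ a p) (x : ι → ℝ) (hx : ∀ j, ∑ p, a p * cnt (Ψ p) j = x j) (G : ι → Prop)
    (τ : ℝ) (hτ : τ ≤ 1) :
    (1 - τ) * (∑ j, x j - k * ∑ j, if G j then 0 else x j) - k * Fintype.card κ ≤
      k * ∑ p, ((if ∀ i, G (Ψ p i) then ⌊(1 - τ) * a p⌋₊ else 0 : ℕ) : ℝ) := by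
  have e1 : ∑ j, x j = ∑ p, a p * k := by
    simp only [← hx]
    rw [sum_comm]
    apply sum_congr rfl
    intro p _
    rw [← mul_sum]
    have := sum_cnt (Ψ p) (fun _ => 1)
    simp only [one_mul, sum_const, card_univ, Fintype.card_fin, nsmul_eq_mul, mul_one] at this
    rw [this]
  have e2 : (∑ j, if G j then 0 else x j) = ∑ p, a p * ∑ i, if G (Ψ p i) then 0 else 1 := by
    have : ∀ p, (∑ i, if G (Ψ p i) then (0 : ℝ) else 1)
        = ∑ j, (if G j then (0 : ℝ) else 1) * cnt (Ψ p) j :=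
      fun p => (sum_cnt (Ψ p) (fun j => if G j then 0 else 1)).symm
    simp only [this, mul_sum]
    rw [sum_comm]
    apply sum_congr rfl
    intro j _
    split_ifs
    · simp
    · simp [← hx]
  rw [e1, e2, mul_sum, ← sum_sub_distrib, mul_sum, mul_sum]
  have e3 : (k : ℝ) * Fintype.card κ = ∑ _p : κ, (k : ℝ) := by simp [mul_comm]
  rw [e3, ← sum_sub_distrib]
  apply sum_le_sum
  intro p _
  have hk : (0 : ℝ) ≤ k := by positivity
  have h0 := ha p
  split_ifs with h
  · simp only [h, if_true, sum_const_zero, mul_zero, sub_zero]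
    have := Nat.lt_floor_add_one ((1 - τ) * a p)
    nlinarith
  · push Not at h
    obtain ⟨i, hi⟩ := h
    have h1 : (1 : ℝ) ≤ ∑ i, if G (Ψ p i) then 0 else 1 := by
      have := single_le_sum (f := fun i => if G (Ψ p i) then (0 : ℝ) else 1)
        (fun i _ => by split_ifs <;> norm_num) (mem_univ i)
      simpa only [hi, if_false] using this
    have h2 : a p * k - k * (a p * ∑ i, if G (Ψ p i) then 0 else 1) ≤ 0 := by
      have := mul_le_mul_of_nonneg_left h1 (mul_nonneg h0 hk)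
      nlinarith
    have h3 := mul_nonpos_of_nonneg_of_nonpos (sub_nonneg.2 hτ) h2
    simp only [Nat.cast_zero, mul_zero]
    linarith

/-- almost perfect tilings -/
theorem almost {k : ℕ} (hk : 4 ≤ k) (he : 2 ∣ k) (d : Fin k → Bool) (η ε : ℝ) (hη : 0 < η)
    (hε : 0 < ε) : ∃ n0 : ℕ, ∀ (V : Type) [Fintype V] (E : V → V → Prop), n0 ≤ Fintype.card V →
    (∀ v, (1 / 2 + η) * Fintype.card V ≤ ((univ.filter (fun y => E v y)).card : ℝ) ∧
      (1 / 2 + η) * Fintype.card V ≤ ((univ.filter (fun y => E y v)).card : ℝ)) →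
    ∃ S, Tiled E d S ∧ (1 - ε) * Fintype.card V ≤ S.card := by
  have hk' : (4 : ℝ) ≤ k := by exact_mod_cast hk
  obtain ⟨τ, hτ, τ1, τ2, τ3⟩ : ∃ τ : ℝ, 0 < τ ∧ 3 * τ < η ∧ (2 * k + 2) * τ ≤ ε ∧ τ ≤ 1 := by
    refine ⟨min (min (η / 4) (ε / (2 * k + 2))) 1, by positivity, ?_, ?_, min_le_right _ _⟩
    · have := (min_le_left (min (η / 4) (ε / (2 * k + 2))) 1).trans (min_le_left _ _)
      linarith
    · have := (min_le_left (min (η / 4) (ε / (2 * k + 2))) 1).trans (min_le_right _ _)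
      rw [le_div_iff₀ (by positivity)] at this
      linarith
  set r : ℝ := τ ^ 2 / (4 * k) with hr
  have r0 : 0 < r := by positivity
  have r1 : 2 * r ≤ τ ^ 2 := by
    rw [hr, mul_div_assoc', div_le_iff₀ (by positivity)]
    nlinarith [sq_nonneg τ]
  have r2 : r ≤ τ := by nlinarith
  obtain ⟨M, hM⟩ := regularity r r0
  obtain ⟨n0, hn0⟩ := exists_nat_gt (max (k * M ^ k / τ) (2 * (k + 1) * (M + 1) / τ ^ 2))
  refine ⟨n0, fun V _ E hn hE => ?_⟩
  have hn' : (n0 : ℝ) ≤ Fintype.card V := by exact_mod_cast hn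
  have n1 : k * M ^ k ≤ τ * Fintype.card V := by
    have := ((le_max_left _ _).trans hn0.le).trans hn'
    rw [div_le_iff₀ hτ] at this
    linarith
  have n2 : 2 * (k + 1) * (M + 1) ≤ τ ^ 2 * Fintype.card V := by
    have := ((le_max_right _ _).trans hn0.le).trans hn'
    rw [div_le_iff₀ (by positivity)] at this
    linarith
  have n3 : 0 < Fintype.card V := by
    have : (0 : ℝ) < τ ^ 2 * Fintype.card V := lt_of_lt_of_le (by positivity) n2
    have := (mul_pos_iff_of_pos_left (by positivity)).1 this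
    exact_mod_cast this
  obtain ⟨T, hT, c, hc⟩ := hM V E
  obtain ⟨G, G1, G2, G3⟩ := bad_mass E c r τ hτ r1 n3 M (by simpa using hT) hc
  have hD := reduced_deg E c r τ η hτ.le τ1 n3 G G1 hE
  obtain ⟨a, a1, a2⟩ := frac_primal c (fun i j => ¬ G i ∨ ¬ G j ∨
    (LReg E c r i j ∧ 2 * τ ≤ dens E c i j)) hD n3 hk he d
  have G4 : ∀ i, G i → 2 * (k + 1) ≤ τ * (cls c i).card := by
    intro i hi
    have h1 := G2 i hi
    rw [div_le_iff₀ (by positivity)] at h1
    have h2 : (0 : ℝ) < M + 1 := by positivity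
    apply le_of_mul_le_mul_right _ h2
    nlinarith
  set N : {ψ : Fin k → Fin T // IsHom (fun i j => ¬ G i ∨ ¬ G j ∨
    (LReg E c r i j ∧ 2 * τ ≤ dens E c i j)) d ψ} → ℕ :=
    fun p => if ∀ i, G (p.1 i) then ⌊(1 - τ) * a p⌋₊ else 0 with hN
  have N1 : ∀ p : Σ p, Fin (N p), ∀ i, G (p.1.1 i) := by
    rintro ⟨p, x⟩
    by_contra h
    have h1 : N p = 0 := by simp only [hN]; exact if_neg h
    have := x.2
    omega
  have N2 : ∀ p, (N p : ℝ) ≤ (1 - τ) * a p := by
    intro p
    have := mul_nonneg (sub_nonneg.2 τ3) (a1 p)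
    simp only [hN]
    split_ifs
    · exact Nat.floor_le this
    · simpa using this
  obtain ⟨S, S1, S2, -⟩ := greedy (E := E) (by omega : 3 ≤ k) d (cls c)
    (fun i j hij => by
      rw [disjoint_left]
      intro v h1 h2
      exact hij ((mem_cls.1 h1).symm.trans (mem_cls.1 h2)))
    (fun j => r * (cls c j).card) τ hτ τ3
    (fun i j => LReg E c r i j ∧ 2 * τ ≤ dens E c i j)
    (fun i j h A hA B hB h1 h2 => by
      refine le_trans ?_ (h.1 A hA B hB h1 h2)
      exact mul_le_mul_of_nonneg_right (by linarith [h.2]) (by positivity))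
    (fun p : Σ p, Fin (N p) => p.1.1) (fun j => ⌊τ * (cls c j).card⌋₊) univ
    (fun p _ i i' hi => by
      have h1 := p.1.2 i i' hi
      have h2 := N1 p i
      have h3 := N1 p i'
      tauto)
    (fun p _ i => by
      have h1 := G4 _ (N1 p i)
      refine ⟨mul_pos r0 ?_, slack τ _ k (by omega) hτ h1⟩
      have : (0 : ℝ) < τ * (cls c (p.1.1 i)).card := lt_of_lt_of_le (by positivity) h1
      exact (mul_pos_iff_of_pos_left hτ).1 this)
    (fun j => by
      have h1 : ((∑ p : Σ p, Fin (N p), cnt p.1.1 j : ℕ) : ℝ) ≤ (1 - τ) * (cls c j).card := by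
        rw [Fintype.sum_sigma, ← a2, mul_sum]
        push_cast
        apply sum_le_sum
        intro p _
        simp only [sum_const, card_univ, Fintype.card_fin, nsmul_eq_mul]
        rw [← mul_assoc]
        exact mul_le_mul_of_nonneg_right (N2 p) (by positivity)
      have h2 : (⌊τ * (cls c j).card⌋₊ : ℝ) ≤ τ * (cls c j).card := Nat.floor_le (by positivity)
      have h3 : ((∑ p : Σ p, Fin (N p), cnt p.1.1 j : ℕ) : ℝ) + (⌊τ * (cls c j).card⌋₊ : ℝ)
        ≤ (cls c j).card := by linarith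
      exact_mod_cast h3)
  refine ⟨S, S1, ?_⟩
  have h1 := count_low (fun p : {ψ : Fin k → Fin T // IsHom (fun i j => ¬ G i ∨ ¬ G j ∨
    (LReg E c r i j ∧ 2 * τ ≤ dens E c i j)) d ψ} => p.1) a a1 _ a2 G τ τ3
  have h2 : (S.card : ℝ) = k * ∑ p, (N p : ℝ) := by
    rw [S2, card_univ, Fintype.card_sigma]
    simp [mul_comm]
  have h3 : (Fintype.card {ψ : Fin k → Fin T // IsHom (fun i j => ¬ G i ∨ ¬ G j ∨
    (LReg E c r i j ∧ 2 * τ ≤ dens E c i j)) d ψ} : ℝ) ≤ M ^ k := by
    have := Fintype.card_subtype_le (fun ψ : Fin k → Fin T => IsHom (fun i j => ¬ G i ∨ ¬ G j ∨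
      (LReg E c r i j ∧ 2 * τ ≤ dens E c i j)) d ψ)
    simp only [Fintype.card_fun, Fintype.card_fin] at this
    exact_mod_cast this.trans (Nat.pow_le_pow_left hT k)
  rw [sum_card_cls] at h1
  rw [h2]
  refine le_trans ?_ h1
  have n4 : (0 : ℝ) < Fintype.card V := by exact_mod_cast n3
  have h4 := mul_le_mul_of_nonneg_left h3 (by linarith : (0 : ℝ) ≤ k)
  have h5 := mul_le_mul_of_nonneg_left G3 (by linarith : (0 : ℝ) ≤ k)
  have h6 : (0 : ℝ) ≤ k * ∑ j, if G j then 0 else ((cls c j).card : ℝ) :=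
    mul_nonneg (by linarith) (sum_nonneg (fun j _ => by split_ifs <;> positivity))
  have h7 := mul_le_mul_of_nonneg_right τ2 n4.le
  have h8 := mul_nonneg hτ.le h6
  nlinarith

end Pool.Agent.OCyc
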