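import Pool.Agent.Lib.MP_061df2_co.Tile

set_option autoImplicit false
set_option linter.unusedSectionVars false

open Finset
open scoped Classical

namespace Pool.Agent.OCyc

variable {V : Type*} [Fintype V]

/-- sequential choice counting -/
lemma count_seq {ι : Type*} [Fintype ι] (r : ι → ℕ) (C : ι → (ι → V) → Finset V)
    (hC : ∀ x α β, (∀ y, r y < r x → α y = β y) → C x α = C x β) (m : ℕ)
    (hm : ∀ x α, m ≤ (C x α).card) (hn : 0 < Fintype.card V) :
    m ^ Fintype.card ι ≤ (univ.filter (fun α : ι → V => ∀ x, α x ∈ C x α)).card := by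
  have key : ∀ s : Finset ι, m ^ s.card * Fintype.card V ^ Fintype.card ι ≤
      (univ.filter (fun α : ι → V => ∀ x ∈ s, α x ∈ C x α)).card * Fintype.card V ^ s.card := by
    intro s
    induction s using Finset.induction_on_max_value r with
    | empty => simp
    | insert a s ha hr ih =>
      have inv : ∀ (α : ι → V) (v : V), ∀ x, r x ≤ r a → C x (Function.update α a v) = C x α := by
        intro α v x hx
        apply hC
        intro y hy
        rw [Function.update_of_ne]
        rintro rfl
        omega
      have h1 : (univ.filter (fun α : ι → V => ∀ x ∈ s, α x ∈ C x α)).card * m ≤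
          (univ.filter (fun α : ι → V => ∀ x ∈ insert a s, α x ∈ C x α)).card * Fintype.card V := by
        calc _ = ∑ _α ∈ univ.filter (fun α : ι → V => ∀ x ∈ s, α x ∈ C x α), m := by simp
          _ ≤ ∑ α ∈ univ.filter (fun α : ι → V => ∀ x ∈ s, α x ∈ C x α), (C a α).card :=
            sum_le_sum (fun α _ => hm a α)
          _ = ((univ.filter (fun α : ι → V => ∀ x ∈ s, α x ∈ C x α)).sigma (fun α => C a α)).card :=
            (card_sigma _ _).symm
          _ ≤ ((univ.filter (fun α : ι → V => ∀ x ∈ insert a s, α x ∈ C x α)) ×ˢ
              (univ : Finset V)).card := by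
            apply card_le_card_of_injOn (fun p => (Function.update p.1 a p.2, p.1 a))
            · rintro ⟨α, v⟩ hp
              simp only [coe_sigma, Set.mem_sigma_iff, mem_coe, mem_filter, mem_univ,
                true_and] at hp
              simp only [coe_product, Set.mem_prod, mem_coe, mem_filter, mem_univ, true_and,
                and_true]
              intro x hx
              rcases mem_insert.1 hx with rfl | hx'
              · rw [inv α v x le_rfl]
                simpa using hp.2
              · rw [inv α v x (hr x hx'), Function.update_of_ne (by rintro rfl; exact ha hx')]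
                exact hp.1 x hx'
            · rintro ⟨α, v⟩ - ⟨β, w⟩ - h
              simp only [Prod.mk.injEq] at h
              have e1 : v = w := by simpa using congrFun h.1 a
              have e2 : α = β := by
                funext x
                by_cases hx : x = a
                · rw [hx]; exact h.2
                · simpa [Function.update_of_ne hx] using congrFun h.1 x
              subst e1 e2
              rfl
          _ = _ := by simp
      rw [card_insert_of_notMem ha, pow_succ, pow_succ]
      calc _ = m ^ s.card * Fintype.card V ^ Fintype.card ι * m := by ring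
        _ ≤ (univ.filter (fun α : ι → V => ∀ x ∈ s, α x ∈ C x α)).card *
            Fintype.card V ^ s.card * m := Nat.mul_le_mul_right _ ih
        _ = (univ.filter (fun α : ι → V => ∀ x ∈ s, α x ∈ C x α)).card * m *
            Fintype.card V ^ s.card := by ring
        _ ≤ _ := by
            refine (Nat.mul_le_mul_right _ h1).trans (le_of_eq ?_)
            ring
  have := key univ
  simp only [card_univ, mem_univ, forall_const] at this
  exact Nat.le_of_mul_le_mul_right this (pow_pos hn _)

/-- neighbourhood in a given direction -/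
noncomputable def nb (E : V → V → Prop) (b : Bool) (u : V) : Finset V :=
  univ.filter (fun v => step E b u v)

lemma mem_nb {E : V → V → Prop} {b : Bool} {u v : V} : v ∈ nb E b u ↔ step E b u v := by simp [nb]

lemma mem_nb' {E : V → V → Prop} {b : Bool} {u v : V} : v ∈ nb E (!b) u ↔ step E b v u := by
  cases b <;> simp [nb, step]

lemma isHom_of {E : V → V → Prop} {K : ℕ} (d : Fin (K + 1) → Bool) (φ : Fin (K + 1) → V)
    (h1 : ∀ i : Fin K, step E (d i.castSucc) (φ i.castSucc) (φ i.succ))
    (h2 : step E (d (Fin.last K)) (φ (Fin.last K)) (φ 0)) : IsHom E d φ := by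
  intro i i' hi
  induction i using Fin.lastCases with
  | last =>
    have : i' = 0 := by ext; simpa using hi
    subst this
    exact h2
  | cast i =>
    have : i' = i.succ := by
      ext
      rw [hi, Nat.mod_eq_of_lt (by simp)]
      simp
    subst this
    exact h1 i

/-- `α` is an absorber for `s` -/
def Abs (E : V → V → Prop) {K : ℕ} (d : Fin (K + 1) → Bool) (s : Fin (K + 1) → V)
    (α : Fin (K + 1) × Fin (K + 1) → V) : Prop :=
  IsHom E d (fun i => α (i, 0)) ∧ ∀ i, IsHom E d (fun j => if j = 0 then s i else α (i, j))

/-- `α` is a tiled block -/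
def Base (E : V → V → Prop) {K : ℕ} (d : Fin (K + 1) → Bool)
    (α : Fin (K + 1) × Fin (K + 1) → V) : Prop :=
  Function.Injective α ∧ ∀ i, IsHom E d (fun j => α (i, j))

/-- order in which the positions of a row are chosen -/
def pos (K : ℕ) (j : ℕ) : ℕ := if j = 0 then 0 else if j = K then 1 else j + 1

/-- cyclic predecessor for nonzero positions -/
def prd {K : ℕ} (j : Fin (K + 1)) : Fin (K + 1) := ⟨j.val - 1, by omega⟩

/-- first constraint set -/
noncomputable def N1 (E : V → V → Prop) {K : ℕ} (d : Fin (K + 1) → Bool)
    (x : Fin (K + 1) × Fin (K + 1)) (α : Fin (K + 1) × Fin (K + 1) → V) : Finset V :=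
  if x.2 = 0 then (if x.1 = 0 then univ else nb E (d (prd x.1)) (α (prd x.1, 0)))
  else if x.2 = Fin.last K then nb E (!d x.2) (α (x.1, 0))
  else nb E (d (prd x.2)) (α (x.1, prd x.2))

/-- second constraint set -/
noncomputable def N2 (E : V → V → Prop) {K : ℕ} (d : Fin (K + 1) → Bool) (s : Fin (K + 1) → V)
    (x : Fin (K + 1) × Fin (K + 1)) (α : Fin (K + 1) × Fin (K + 1) → V) : Finset V :=
  if x.2 = 0 then (if x.1 = Fin.last K then nb E (!d x.1) (α (0, 0)) else univ)
  else if x.2 = Fin.last K then nb E (!d x.2) (s x.1)
  else if x.2.val = 1 then nb E (d 0) (s x.1)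
  else if x.2.val + 1 = K then nb E (!d x.2) (α (x.1, Fin.last K)) else univ

lemma absorb_count {E : V → V → Prop} {K : ℕ} (hK : 3 ≤ K) (d : Fin (K + 1) → Bool)
    (s : Fin (K + 1) → V) (B : Finset V) (m : ℕ) (hn : 0 < Fintype.card V)
    (hE : ∀ b u b' u', m + B.card + (K + 1) ^ 2 ≤ (nb E b u ∩ nb E b' u').card) :
    m ^ ((K + 1) ^ 2) ≤ (univ.filter (fun α : Fin (K + 1) × Fin (K + 1) → V =>
      (Base E d α ∧ ∀ x, α x ∉ B) ∧ Abs E d s α)).card := by
  set r : Fin (K + 1) × Fin (K + 1) → ℕ := fun x => pos K x.2.val * (K + 1) + x.1.val with hr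
  have rlt : ∀ x y : Fin (K + 1) × Fin (K + 1), (pos K y.2.val < pos K x.2.val ∨
      (y.2 = x.2 ∧ y.1.val < x.1.val)) → r y < r x := by
    rintro x y (h | h)
    · have h1 := y.1.2
      have h2 := Nat.mul_le_mul_right (K + 1) (Nat.succ_le_of_lt h)
      simp only [hr]
      rw [Nat.succ_mul] at h2
      omega
    · simp only [hr, h.1]
      omega
  have rne : ∀ x y : Fin (K + 1) × Fin (K + 1), x ≠ y → r y < r x ∨ r x < r y := by
    intro x y hxy
    by_cases h : x.2 = y.2
    · have : x.1.val ≠ y.1.val := fun h' => hxy (Prod.ext (Fin.ext h') h)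
      rcases lt_or_gt_of_ne this with h' | h'
      · exact Or.inr (rlt _ _ (Or.inr ⟨h, h'⟩))
      · exact Or.inl (rlt _ _ (Or.inr ⟨h.symm, h'⟩))
    · have h1 : x.2.val ≠ y.2.val := fun h' => h (Fin.ext h')
      have : pos K x.2.val ≠ pos K y.2.val := by
        unfold pos
        split_ifs <;> omega
      rcases lt_or_gt_of_ne this with h' | h'
      · exact Or.inr (rlt _ _ (Or.inl h'))
      · exact Or.inl (rlt _ _ (Or.inl h'))
  have h0 : ∀ j : Fin (K + 1), j = 0 ↔ j.val = 0 := fun j => by rw [Fin.ext_iff]; simp
  have hl : ∀ j : Fin (K + 1), j = Fin.last K ↔ j.val = K := fun j => by rw [Fin.ext_iff]; simp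
  have two : ∀ A1 A2 : Finset V, (∃ b u, nb E b u ⊆ A1) → (∃ b u, nb E b u ⊆ A2) →
      m + B.card + (K + 1) ^ 2 ≤ (A1 ∩ A2).card := by
    rintro A1 A2 ⟨b, u, h1⟩ ⟨b', u', h2⟩
    exact (hE b u b' u').trans (card_le_card (inter_subset_inter h1 h2))
  have h := count_seq r (fun x α => (N1 E d x α ∩ N2 E d s x α) \
    (B ∪ (univ.filter (fun y => r y < r x)).image α)) (by
      intro x α β h
      have e1 : N1 E d x α = N1 E d x β := by
        unfold N1
        split_ifs with a1 a2 a3
        · rfl
        · rw [h _ (rlt _ _ (Or.inr ⟨a1.symm, by rw [h0] at a2; simp only [prd]; omega⟩))]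
        · rw [h _ (rlt _ _ (Or.inl (by
            rw [h0] at a1
            simp only [pos, Fin.val_zero, if_true]
            split_ifs <;> omega)))]
        · rw [h _ (rlt _ _ (Or.inl (by
            rw [h0] at a1
            rw [hl] at a3
            have := x.2.2
            simp only [pos, prd]
            split_ifs <;> omega)))]
      have e2 : N2 E d s x α = N2 E d s x β := by
        unfold N2
        split_ifs with a1 a2 a3 a4 a5
        · rw [h _ (rlt _ _ (Or.inr ⟨a1.symm, by rw [hl] at a2; simp only [Fin.val_zero]; omega⟩))]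
        · rfl
        · rfl
        · rfl
        · rw [h _ (rlt _ _ (Or.inl (by
            simp only [pos, Fin.val_last]
            split_ifs <;> omega)))]
        · rfl
      have e3 : (univ.filter (fun y => r y < r x)).image α
          = (univ.filter (fun y => r y < r x)).image β :=
        image_congr (fun y hy => h y (mem_filter.1 hy).2)
      simp only [e1, e2, e3]) m (by
      intro x α
      have h1 := two (N1 E d x α) (N2 E d s x α)
        (by unfold N1; split_ifs
            · exact ⟨true, s 0, subset_univ _⟩
            all_goals exact ⟨_, _, Subset.rfl⟩)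
        (by unfold N2; split_ifs
            · exact ⟨_, _, Subset.rfl⟩
            · exact ⟨true, s 0, subset_univ _⟩
            · exact ⟨_, _, Subset.rfl⟩
            · exact ⟨_, _, Subset.rfl⟩
            · exact ⟨_, _, Subset.rfl⟩
            · exact ⟨true, s 0, subset_univ _⟩)
      have h2 := le_card_sdiff (B ∪ (univ.filter (fun y => r y < r x)).image α)
        (N1 E d x α ∩ N2 E d s x α)
      have h3 := card_union_le B ((univ.filter (fun y => r y < r x)).image α)
      have h4 : ((univ.filter (fun y => r y < r x)).image α).card ≤ (K + 1) ^ 2 := by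
        refine card_image_le.trans ((card_le_univ _).trans ?_)
        simp [sq]
      omega) hn
  rw [Fintype.card_prod, Fintype.card_fin, ← sq] at h
  refine h.trans (card_le_card ?_)
  intro α hα
  simp only [mem_filter, mem_univ, true_and, mem_sdiff, mem_inter, mem_union, mem_image,
    not_or, not_exists, not_and] at hα ⊢
  have l0 : Fin.last K ≠ 0 := by rw [Ne, h0]; simp; omega
  have pr : ∀ i : Fin K, prd i.succ = i.castSucc := fun i => by ext; simp [prd]
  have row : ∀ i, ∀ j : Fin K, step E (d j.castSucc) (α (i, j.castSucc)) (α (i, j.succ)) := by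
    intro i j
    by_cases hj : j.succ = Fin.last K
    · have h1 := (hα (i, j.castSucc)).1.2
      have h2 : j.val + 1 = K := by simpa using (hl _).1 hj
      simp only [N2] at h1
      rw [if_neg (by rw [h0]; simp; omega), if_neg (by rw [hl]; simp; omega),
        if_neg (by simp; omega), if_pos (by simpa using h2), mem_nb'] at h1
      rwa [hj]
    · have h1 := (hα (i, j.succ)).1.1
      simp only [N1] at h1
      rw [if_neg (Fin.succ_ne_zero j), if_neg hj, pr, mem_nb] at h1
      exact h1
  refine ⟨⟨⟨?_, ?_⟩, fun x => (hα x).2.1⟩, ?_, ?_⟩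
  · intro x y hxy
    by_contra hne
    rcases rne x y hne with h | h
    · exact (hα x).2.2 y h hxy.symm
    · exact (hα y).2.2 x h hxy
  · intro i
    apply isHom_of
    · exact row i
    · have h1 := (hα (i, Fin.last K)).1.1
      simp only [N1] at h1
      rwa [if_neg l0, if_pos trivial, mem_nb'] at h1
  · apply isHom_of
    · intro i
      have h1 := (hα (i.succ, 0)).1.1
      simp only [N1] at h1
      rwa [if_pos trivial, if_neg (Fin.succ_ne_zero i), pr, mem_nb] at h1
    · have h1 := (hα (Fin.last K, 0)).1.2
      simp only [N2] at h1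
      rwa [if_pos trivial, if_pos trivial, mem_nb'] at h1
  · intro i
    apply isHom_of
    · intro j
      rw [if_neg (Fin.succ_ne_zero j)]
      split_ifs with hj
      · have h1 := (hα (i, j.succ)).1.2
        have h2 : j.val = 0 := by simpa using (h0 _).1 hj
        simp only [N2] at h1
        rw [if_neg (Fin.succ_ne_zero j), if_neg (by rw [hl]; simp; omega),
          if_pos (by simpa using h2), mem_nb] at h1
        rwa [hj]
      · exact row i j
    · have h1 := (hα (i, Fin.last K)).1.2
      simp only [N2] at h1
      rw [if_neg l0, if_pos trivial, mem_nb'] at h1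
      rw [if_neg l0, if_pos rfl]
      exact h1

end Pool.Agent.OCyc
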