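import Pool.Agent.Lib.MP_061df2_co.FracWalk

set_option autoImplicit false
set_option linter.unusedSectionVars false

open Finset
open scoped Classical

namespace Pool.Agent.OCyc

variable {V : Type*} [Fintype V] {E : V → V → Prop}

lemma exists_factor (hD : Deg E) : ∃ σ : Equiv.Perm V, ∀ v, E v (σ v) := by
  obtain ⟨f, hf, hf2⟩ := (all_card_le_biUnion_card_iff_exists_injective
    (fun v : V => univ.filter (fun y => E v y))).1 (by
    intro S
    rcases S.eq_empty_or_nonempty with rfl | ⟨v, hv⟩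
    · simp
    by_cases h : 2 * S.card ≤ Fintype.card V
    · have h1 := (hD v).1
      have : (univ.filter (fun y => E v y)).card
          ≤ (S.biUnion (fun v : V => univ.filter (fun y => E v y))).card :=
        card_le_card (subset_biUnion_of_mem (fun v : V => univ.filter (fun y => E v y)) hv)
      omega
    · have : S.biUnion (fun v : V => univ.filter (fun y => E v y)) = univ := by
        apply eq_univ_of_forall
        intro y
        obtain ⟨z, hz1, hz2⟩ := exists_out hD.flip Sᶜ (by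
          have := card_compl S
          have := card_le_univ S
          omega) y
        exact mem_biUnion.2 ⟨z, by simpa using hz2, mem_filter.2 ⟨mem_univ _, hz1⟩⟩
      rw [this]
      exact card_le_univ _)
  exact ⟨Equiv.ofBijective f (Finite.injective_iff_bijective.1 hf),
    fun v => (mem_filter.1 (hf2 v)).2⟩

lemma exists_double (hD : Deg E) (v : V) : ∃ d, E v d ∧ E d v := by
  by_contra h
  push Not at h
  have := close hD v v ∅ ∅ (by simp) (fun b h1 h2 => absurd h2 (h b h1))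
  simp at this

lemma best_four (hD : Deg E) (w : V → ℤ) : ∃ S : V → ℤ,
    (∀ v, Wk E w (List.replicate 4 true) v v (S v)) ∧ 4 * ∑ v, w v ≤ ∑ v, S v := by
  have h1 : ∀ v : V, ∃ s : ℤ, Wk E w (List.replicate 4 true) v v s ∧
      ∀ b c d, E v b → E b c → E c d → E d v → w v + w b + w c + w d ≤ s := by
    intro v
    obtain ⟨d0, hd1, hd2⟩ := exists_double hD v
    obtain ⟨p, hp, hmax⟩ := exists_max_image (univ.filter (fun p : V × V × V =>
      E v p.1 ∧ E p.1 p.2.1 ∧ E p.2.1 p.2.2 ∧ E p.2.2 v))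
      (fun p => w v + w p.1 + w p.2.1 + w p.2.2)
      ⟨(d0, v, d0), mem_filter.2 ⟨mem_univ _, hd1, hd2, hd1, hd2⟩⟩
    obtain ⟨p1, p2, p3, p4⟩ := (mem_filter.1 hp).2
    exact ⟨_, Wk.four p1 p2 p3 p4, fun b c d b1 b2 b3 b4 =>
      hmax (b, c, d) (mem_filter.2 ⟨mem_univ _, b1, b2, b3, b4⟩)⟩
  choose S hS1 hS2 using h1
  refine ⟨S, hS1, ?_⟩
  have := frac_four hD (w := fun v => 4 * w v - S v) (by
    intro a b c d h1 h2 h3 h4
    have := hS2 a b c d h1 h2 h3 h4
    have := hS2 b c d a h2 h3 h4 h1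
    have := hS2 c d a b h3 h4 h1 h2
    have := hS2 d a b c h4 h1 h2 h3
    simp only
    omega)
  rw [sum_sub_distrib, ← mul_sum] at this
  omega

lemma best_six (hD : Deg E) (w : V → ℤ) : ∃ S : V → ℤ,
    (∀ v, Wk E w (List.replicate 6 true) v v (S v)) ∧ 6 * ∑ v, w v ≤ ∑ v, S v := by
  have h1 : ∀ v : V, ∃ s : ℤ, Wk E w (List.replicate 6 true) v v s ∧
      ∀ b c d e f, E v b → E b c → E c d → E d e → E e f → E f v →
        w v + w b + w c + w d + w e + w f ≤ s := by
    intro v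
    obtain ⟨d0, hd1, hd2⟩ := exists_double hD v
    obtain ⟨p, hp, hmax⟩ := exists_max_image (univ.filter (fun p : V × V × V × V × V =>
      E v p.1 ∧ E p.1 p.2.1 ∧ E p.2.1 p.2.2.1 ∧ E p.2.2.1 p.2.2.2.1 ∧ E p.2.2.2.1 p.2.2.2.2 ∧
        E p.2.2.2.2 v))
      (fun p => w v + w p.1 + w p.2.1 + w p.2.2.1 + w p.2.2.2.1 + w p.2.2.2.2)
      ⟨(d0, v, d0, v, d0), mem_filter.2 ⟨mem_univ _, hd1, hd2, hd1, hd2, hd1, hd2⟩⟩
    obtain ⟨p1, p2, p3, p4, p5, p6⟩ := (mem_filter.1 hp).2
    exact ⟨_, Wk.six p1 p2 p3 p4 p5 p6, fun b c d e f b1 b2 b3 b4 b5 b6 =>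
      hmax (b, c, d, e, f) (mem_filter.2 ⟨mem_univ _, b1, b2, b3, b4, b5, b6⟩)⟩
  choose S hS1 hS2 using h1
  refine ⟨S, hS1, ?_⟩
  have := frac_six hD (w := fun v => 6 * w v - S v) (by
    intro a b c d e f h1 h2 h3 h4 h5 h6
    have := hS2 a b c d e f h1 h2 h3 h4 h5 h6
    have := hS2 b c d e f a h2 h3 h4 h5 h6 h1
    have := hS2 c d e f a b h3 h4 h5 h6 h1 h2
    have := hS2 d e f a b c h4 h5 h6 h1 h2 h3
    have := hS2 e f a b c d h5 h6 h1 h2 h3 h4
    have := hS2 f a b c d e h6 h1 h2 h3 h4 h5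
    simp only
    omega)
  rw [sum_sub_distrib, ← mul_sum] at this
  omega

lemma frac_list_aux (hD : Deg E) {w : V → ℤ} {p : List Bool} (hl : 4 ≤ p.length)
    (he : 2 ∣ p.length) (hn : 0 ≤ net p) (h : Cl E w p) : ∑ v, w v ≤ 0 := by
  have hp : p ≠ [] := by rintro rfl; simp at hl
  have hpar := net_parity p
  by_cases h0 : net p = 0
  · obtain ⟨σ, hσ⟩ := exists_factor hD
    exact orbit_le σ id hσ hp (by rw [h0]; simp) h
  by_cases h4 : (4 : ℤ) ∣ net p
  · have := cl_cycle 4 (by norm_num) hp h4 h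
    exact frac_four hD (fun a b c d h1 h2 h3 h4 => this a _ (Wk.four h1 h2 h3 h4))
  by_cases h2 : net p = 2
  · have := cl_cycle 2 (by norm_num) hp (by rw [h2]; simp) h
    exact frac_two hD (fun a b h1 h2 => this a _ (Wk.two h1 h2)) (kp_of_cl (by omega) h2 h)
      (kp_of_cl (by simp; omega) (by rw [net_reverse, h2]) h.rev)
  obtain ⟨j, hj⟩ : ∃ j : ℕ, net p = j * 4 + 6 := ⟨((net p - 6) / 4).toNat, by omega⟩
  have hc := cl_cycle (j * 4 + 6) (by omega) hp (by rw [hj]; push_cast; exact dvd_rfl) h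
  obtain ⟨S4, a1, a2⟩ := best_four hD w
  obtain ⟨S6, b1, b2⟩ := best_six hD w
  have h5 : ∑ v, (j * S4 v + S6 v) ≤ 0 := by
    apply sum_nonpos
    intro v _
    have := ((a1 v).repeat j).append (b1 v)
    rw [List.replicate_append_replicate] at this
    exact hc v _ this
  rw [sum_add_distrib, ← mul_sum] at h5
  have h6 : (j : ℤ) * (4 * ∑ v, w v) ≤ j * ∑ v, S4 v := mul_le_mul_of_nonneg_left a2 (by positivity)
  by_contra hcon
  push Not at hcon
  have : (0 : ℤ) ≤ j * (4 * ∑ v, w v) := by positivity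
  omega

lemma frac_list (hD : Deg E) {w : V → ℤ} {p : List Bool} (hl : 4 ≤ p.length)
    (he : 2 ∣ p.length) (h : Cl E w p) : ∑ v, w v ≤ 0 := by
  by_cases hn : 0 ≤ net p
  · exact frac_list_aux hD hl he hn h
  · exact frac_list_aux hD.flip (p := p.map not) (by simpa using hl) (by simpa using he)
      (by rw [net_map_not]; omega) h.flip

/-- `φ` is a homomorphism from the oriented cycle with edge directions `d` -/
def IsHom {W : Type*} (E : W → W → Prop) {k : ℕ} (d : Fin k → Bool) (φ : Fin k → W) : Prop :=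
  ∀ i i' : Fin k, i'.val = (i.val + 1) % k →
    (d i = true → E (φ i) (φ i')) ∧ (d i = false → E (φ i') (φ i))

/-- the fractional tiling theorem in dual form -/
theorem frac_dual (hD : Deg E) {k : ℕ} (hk : 4 ≤ k) (he : 2 ∣ k) (d : Fin k → Bool) (w : V → ℤ)
    (h : ∀ φ, IsHom E d φ → ∑ i, w (φ i) ≤ 0) : ∑ v, w v ≤ 0 := by
  apply frac_list hD (p := List.ofFn d) (by simpa using hk) (by simpa using he)
  intro u s hw
  obtain ⟨f, f0, f1, f2, f3⟩ := hw.exists_fun
  simp only [List.length_ofFn] at f1 f2 f3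
  have := h (fun i => f i.val) (by
    intro i i' hi
    have h1 := f2 i.val i.2
    simp only [List.getElem_ofFn] at h1
    have e : f i'.val = f (i.val + 1) := by
      by_cases h2 : i.val + 1 < k
      · rw [hi, Nat.mod_eq_of_lt h2]
      · have h3 : i.val + 1 = k := by omega
        rw [hi, h3, Nat.mod_self, f0, f1]
    simp only [e]
    exact h1)
  rw [Fin.sum_univ_eq_sum_range (fun j => w (f j)) k] at this
  have e2 := sum_range_succ (fun j => w (f j)) k
  have e3 := sum_range_succ' (fun j => w (f j)) k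
  simp only [f0, f1] at e2 e3
  omega

end Pool.Agent.OCyc
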