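import Pool.Agent.Lib.MP_061df2_co.Reg
import Pool.Agent.Lib.MP_061df2_co.FracMain

set_option autoImplicit false
set_option linter.unusedSectionVars false

open Finset
open scoped Classical

namespace Pool.Agent.OCyc

variable {V : Type*} [Fintype V]

/-- all large subsets span many edges -/
def Dense (Q : V → V → Prop) (δ : ℝ) (Z Z' : Finset V) (α β : ℝ) : Prop :=
  ∀ A ⊆ Z, ∀ B ⊆ Z', α ≤ A.card → β ≤ B.card → δ * (A.card * B.card) ≤ ecount Q A B

lemma ecount_swap (Q : V → V → Prop) (A B : Finset V) :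
    ecount (fun a b => Q b a) B A = ecount Q A B := by
  unfold ecount ind
  exact sum_comm

lemma ecount_card (Q : V → V → Prop) (A B : Finset V) :
    ecount Q A B = ∑ u ∈ A, ((B.filter (fun v => Q u v)).card : ℝ) := by
  unfold ecount ind
  apply sum_congr rfl
  intro u _
  simp

lemma Dense.swap {Q : V → V → Prop} {δ : ℝ} {Z Z' : Finset V} {α β : ℝ} (h : Dense Q δ Z Z' α β) :
    Dense (fun a b => Q b a) δ Z' Z β α := by
  intro B hB A hA h1 h2
  rw [ecount_swap, mul_comm (B.card : ℝ)]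
  exact h A hA B hB h2 h1

lemma few_low {Q : V → V → Prop} {δ : ℝ} {Z Z' : Finset V} {α β : ℝ} (h : Dense Q δ Z Z' α β)
    (hα : 0 < α) (B : Finset V) (hB : B ⊆ Z') (hβ : β ≤ B.card) :
    ((Z.filter (fun u => ((B.filter (fun v => Q u v)).card : ℝ) < δ * B.card)).card : ℝ) < α := by
  by_contra hc
  push Not at hc
  set A := Z.filter (fun u => ((B.filter (fun v => Q u v)).card : ℝ) < δ * B.card) with hA
  have h1 := h A (filter_subset _ _) B hB hc hβ
  have hne : A.Nonempty := by
    rw [← card_pos]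
    have : (0 : ℝ) < A.card := by linarith
    exact_mod_cast this
  have h2 : ∑ u ∈ A, ((B.filter (fun v => Q u v)).card : ℝ) < ∑ _u ∈ A, δ * B.card :=
    sum_lt_sum_of_nonempty hne (fun u hu => (mem_filter.1 hu).2)
  rw [sum_const, nsmul_eq_mul] at h2
  rw [ecount_card] at h1
  linarith

lemma few_unreached {Q : V → V → Prop} {δ : ℝ} {Z Z' : Finset V} {α β : ℝ}
    (h : Dense Q δ Z Z' α β) (hδ : 0 < δ) (hα : 0 < α) (hβ : 0 < β) (A : Finset V) (hA : A ⊆ Z)
    (hAc : α ≤ A.card) : ((Z'.filter (fun v => ¬ ∃ u ∈ A, Q u v)).card : ℝ) < β := by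
  refine lt_of_le_of_lt ?_ (few_low h.swap hβ A hA hAc)
  have : (Z'.filter (fun v => ¬ ∃ u ∈ A, Q u v)) ⊆
      Z'.filter (fun v => ((A.filter (fun u => Q u v)).card : ℝ) < δ * A.card) := by
    intro v hv
    obtain ⟨h1, h2⟩ := mem_filter.1 hv
    refine mem_filter.2 ⟨h1, ?_⟩
    have : A.filter (fun u => Q u v) = ∅ := by
      apply filter_eq_empty_iff.2
      intro u hu hq
      exact h2 ⟨u, hu, hq⟩
    rw [this]
    have : 0 < δ * A.card := mul_pos hδ (by linarith)
    simpa using this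
  exact_mod_cast card_le_card this

lemma embed_nat (P : ℕ → V → V → Prop) (k : ℕ) (Z : ℕ → Finset V) (a : ℕ → ℝ) (δ : ℝ)
    (hδ : 0 < δ) (hδ1 : δ ≤ 1) (ha : ∀ i, 0 < a i)
    (h1 : ∀ i, i < k + 2 → Dense (P i) δ (Z i) (Z (i + 1)) (a i) (a (i + 1)))
    (h2 : Dense (P (k + 2)) δ (Z (k + 2)) (Z 0) (a (k + 2)) (a 0))
    (hZ : ∀ i, i ≤ k + 2 → 2 * a i ≤ δ * (Z i).card) :
    ∃ f : ℕ → V, (∀ i ≤ k + 2, f i ∈ Z i) ∧ (∀ i < k + 2, P i (f i) (f (i + 1))) ∧
      P (k + 2) (f (k + 2)) (f 0) := by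
  have hZ' : ∀ i, i ≤ k + 2 → 2 * a i ≤ (Z i).card := by
    intro i hi
    have := hZ i hi
    have h0 : (0 : ℝ) ≤ (Z i).card := by positivity
    nlinarith
  have b1 := few_low (h1 0 (by omega)) (ha 0) (Z 1) Subset.rfl
    (by have := hZ' 1 (by omega); have := ha 1; simp only [zero_add]; linarith)
  have b2 := few_low h2.swap (ha 0) (Z (k + 2)) Subset.rfl
    (by have := hZ' (k + 2) le_rfl; have := ha (k + 2); linarith)
  obtain ⟨v0, hv0, hv1, hv2⟩ : ∃ v0 ∈ Z 0,
      δ * (Z 1).card ≤ (((Z 1).filter (fun v => P 0 v0 v)).card : ℝ) ∧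
      δ * (Z (k + 2)).card ≤ (((Z (k + 2)).filter (fun v => P (k + 2) v v0)).card : ℝ) := by
    by_contra hc
    push Not at hc
    have : (Z 0).card ≤ ((Z 0).filter (fun u =>
        (((Z 1).filter (fun v => P 0 u v)).card : ℝ) < δ * (Z 1).card)).card +
        ((Z 0).filter (fun u => (((Z (k + 2)).filter (fun v => P (k + 2) v u)).card : ℝ)
          < δ * (Z (k + 2)).card)).card := by
      refine le_trans (card_le_card ?_) (card_union_le _ _)
      intro u hu
      rw [mem_union, mem_filter, mem_filter]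
      by_cases h : δ * (Z 1).card ≤ (((Z 1).filter (fun v => P 0 u v)).card : ℝ)
      · exact Or.inr ⟨hu, hc u hu h⟩
      · exact Or.inl ⟨hu, not_le.1 h⟩
    have this' := (Nat.cast_le (α := ℝ)).2 this
    push_cast at this'
    have := hZ' 0 (by omega)
    linarith
  set R : ℕ → Finset V := fun j => (Z j).filter (fun y => ∃ f : ℕ → V, f 0 = v0 ∧ f j = y ∧
    (∀ i ≤ j, f i ∈ Z i) ∧ ∀ i < j, P i (f i) (f (i + 1))) with hR
  have ext : ∀ j y, y ∈ Z (j + 1) → (∃ u ∈ R j, P j u y) → y ∈ R (j + 1) := by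
    intro j y hy ⟨u, hu, hp⟩
    obtain ⟨-, f, f0, f1, f2, f3⟩ := mem_filter.1 hu
    refine mem_filter.2 ⟨hy, Function.update f (j + 1) y, ?_, ?_, ?_, ?_⟩
    · rw [Function.update_of_ne (by omega), f0]
    · simp
    · intro i hi
      by_cases h : i = j + 1
      · subst h; simpa using hy
      · rw [Function.update_of_ne h]; exact f2 i (by omega)
    · intro i hi
      by_cases h : i = j
      · subst h
        rw [Function.update_of_ne (by omega), f1]
        simpa using hp
      · rw [Function.update_of_ne (by omega), Function.update_of_ne (by omega)]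
        exact f3 i (by omega)
  have unre : ∀ j, j < k + 2 → a j ≤ (R j).card →
      (((Z (j + 1)).filter (fun y => y ∉ R (j + 1))).card : ℝ) < a (j + 1) := by
    intro j hj h
    refine lt_of_le_of_lt ?_ (few_unreached (h1 j hj) hδ (ha j) (ha (j + 1)) (R j)
      (filter_subset _ _) h)
    have : (Z (j + 1)).filter (fun y => y ∉ R (j + 1)) ⊆
        (Z (j + 1)).filter (fun v => ¬ ∃ u ∈ R j, P j u v) := by
      intro y hy
      obtain ⟨y1, y2⟩ := mem_filter.1 hy
      exact mem_filter.2 ⟨y1, fun h => y2 (ext j y y1 h)⟩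
    exact_mod_cast card_le_card this
  have big : ∀ j, j ≤ k → a (j + 1) ≤ (R (j + 1)).card := by
    intro j hj
    induction j with
    | zero =>
      have : (Z 1).filter (fun v => P 0 v0 v) ⊆ R 1 := by
        intro y hy
        obtain ⟨y1, y2⟩ := mem_filter.1 hy
        refine ext 0 y y1 ⟨v0, mem_filter.2 ⟨hv0, fun _ => v0, rfl, rfl, ?_, by simp⟩, y2⟩
        intro i hi
        obtain rfl : i = 0 := by omega
        exact hv0
      have h3 : ((((Z 1).filter (fun v => P 0 v0 v)).card : ℕ) : ℝ) ≤ (R 1).card := by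
        exact_mod_cast card_le_card this
      have := hZ 1 (by omega)
      have := ha 1
      simp only [zero_add]
      linarith
    | succ j ih =>
      have h3 := unre (j + 1) (by omega) (ih (by omega))
      have h4 : (Z (j + 1 + 1)).card ≤ ((Z (j + 1 + 1)).filter (fun y => y ∉ R (j + 1 + 1))).card
          + (R (j + 1 + 1)).card := by
        refine le_trans (card_le_card ?_) (card_union_le _ _)
        intro y hy
        rw [mem_union, mem_filter]
        tauto
      have h5 := (Nat.cast_le (α := ℝ)).2 h4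
      push_cast at h5
      have := hZ' (j + 1 + 1) (by omega)
      linarith
  have h3 := unre (k + 1) (by omega) (big k le_rfl)
  obtain ⟨y, hy, hy2⟩ : ∃ y ∈ R (k + 2), P (k + 2) y v0 := by
    by_contra hc
    push Not at hc
    have : (Z (k + 2)).filter (fun v => P (k + 2) v v0) ⊆
        (Z (k + 2)).filter (fun y => y ∉ R (k + 2)) := by
      intro y hy
      obtain ⟨y1, y2⟩ := mem_filter.1 hy
      exact mem_filter.2 ⟨y1, fun h => hc y h y2⟩
    have h4 : ((((Z (k + 2)).filter (fun v => P (k + 2) v v0)).card : ℕ) : ℝ) ≤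
        ((Z (k + 2)).filter (fun y => y ∉ R (k + 2))).card := by exact_mod_cast card_le_card this
    have := hZ (k + 2) le_rfl
    have := ha (k + 2)
    have h5 : k + 1 + 1 = k + 2 := rfl
    rw [h5] at h3
    linarith
  obtain ⟨-, f, f0, f1, f2, f3⟩ := mem_filter.1 hy
  exact ⟨f, f2, f3, by rw [f0, f1]; exact hy2⟩

lemma exists_split (Y : Finset V) (k : ℕ) : ∃ Z : Fin k → Finset V, (∀ i, Z i ⊆ Y) ∧
    (∀ i, (Z i).card = Y.card / k) ∧ ∀ i j, i ≠ j → Disjoint (Z i) (Z j) := by
  have h : Fintype.card (Fin k × Fin (Y.card / k)) ≤ Y.card := by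
    simp only [Fintype.card_prod, Fintype.card_fin]
    exact Nat.mul_div_le _ _
  obtain ⟨g, hg⟩ := Function.Embedding.exists_of_card_le_finset h
  refine ⟨fun i => univ.image (fun x => g (i, x)), ?_, ?_, ?_⟩
  · intro i v hv
    obtain ⟨x, -, rfl⟩ := mem_image.1 hv
    exact mem_coe.1 (hg ⟨_, rfl⟩)
  · intro i
    rw [card_image_of_injective]
    · simp
    · intro x y h
      simpa using g.injective h
  · intro i j hij
    rw [disjoint_left]
    intro v h1 h2
    obtain ⟨x, -, rfl⟩ := mem_image.1 h1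
    obtain ⟨y, -, h⟩ := mem_image.1 h2
    have := g.injective h
    simp only [Prod.mk.injEq] at this
    exact hij this.1.symm

/-- embedding one copy of the cycle into large subsets of classes forming a homomorphic image -/
lemma embed_cycle {ι : Type*} {E : V → V → Prop} {k : ℕ} (hk : 3 ≤ k) (d : Fin k → Bool)
    (X : ι → Finset V) (hX : ∀ i j, i ≠ j → Disjoint (X i) (X j)) (a : ι → ℝ) (δ : ℝ)
    (hδ : 0 < δ) (hδ1 : δ ≤ 1) (R : ι → ι → Prop)
    (hR : ∀ i j, R i j → Dense E δ (X i) (X j) (a i) (a j)) (ψ : Fin k → ι) (hψ : IsHom R d ψ)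
    (ha : ∀ i, 0 < a (ψ i)) (Y : ι → Finset V) (hY : ∀ j, Y j ⊆ X j)
    (hYc : ∀ i, 2 * a (ψ i) ≤ δ * ((Y (ψ i)).card / k : ℕ)) :
    ∃ φ : Fin k → V, Function.Injective φ ∧ IsHom E d φ ∧ ∀ i, φ i ∈ Y (ψ i) := by
  obtain ⟨k, rfl⟩ : ∃ k', k = k' + 3 := ⟨k - 3, by omega⟩
  choose Z hZ1 hZ2 hZ3 using fun j => exists_split (Y j) (k + 3)
  set g : ℕ → Fin (k + 3) := fun i => ⟨i % (k + 3), Nat.mod_lt _ (by omega)⟩ with hg
  have hden : ∀ i i' : Fin (k + 3), i'.val = (i.val + 1) % (k + 3) →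
      Dense (step E (d i)) δ (Z (ψ i) i) (Z (ψ i') i') (a (ψ i)) (a (ψ i')) := by
    intro i i' hi A hA B hB h1 h2
    have hA' : A ⊆ X (ψ i) := hA.trans ((hZ1 _ _).trans (hY _))
    have hB' : B ⊆ X (ψ i') := hB.trans ((hZ1 _ _).trans (hY _))
    cases hd : d i with
    | true =>
      have := hR _ _ ((hψ i i' hi).1 hd) A hA' B hB' h1 h2
      have e : step E true = E := by funext u v; simp [step]
      rwa [e]
    | false =>
      have := (hR _ _ ((hψ i i' hi).2 hd)).swap A hA' B hB' h1 h2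
      have e : step E false = fun u v => E v u := by funext u v; simp [step]
      rwa [e]
  obtain ⟨f, f1, f2, f3⟩ := embed_nat (fun i => step E (d (g i))) k (fun i => Z (ψ (g i)) (g i))
    (fun i => a (ψ (g i))) δ hδ hδ1 (fun i => ha _)
    (fun i _ => hden _ _ (by simp [hg]))
    (hden _ _ (by simp [hg])) (fun i _ => by rw [hZ2]; exact hYc _)
  have gi : ∀ i : Fin (k + 3), g i.val = i := by
    intro i; ext; simp [hg, Nat.mod_eq_of_lt i.2]
  have f1' : ∀ i : Fin (k + 3), f i.val ∈ Z (ψ i) i := by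
    intro i
    have := f1 i.val (by omega)
    rwa [gi] at this
  refine ⟨fun i => f i.val, ?_, ?_, fun i => hZ1 _ _ (f1' i)⟩
  · intro i j hij
    by_contra hne
    simp only at hij
    have a1 := f1' i
    have a2 := f1' j
    rw [hij] at a1
    by_cases h : ψ i = ψ j
    · rw [h] at a1
      exact disjoint_left.1 (hZ3 _ i j hne) a1 a2
    · exact disjoint_left.1 (hX _ _ h) (hY _ (hZ1 _ _ a1)) (hY _ (hZ1 _ _ a2))
  · intro i i' hi
    by_cases h : i.val < k + 2
    · have := f2 i.val h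
      rw [gi] at this
      have e : i'.val = i.val + 1 := by rw [hi, Nat.mod_eq_of_lt (by omega)]
      simp only [e]
      exact this
    · have e1 : i.val = k + 2 := by omega
      have e2 : i'.val = 0 := by rw [hi, e1]; simp
      have e3 : g (k + 2) = i := by rw [← e1, gi]
      rw [e3] at f3
      simp only [e1, e2]
      exact f3

end Pool.Agent.OCyc
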