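import Mathlib

set_option autoImplicit false
set_option linter.unusedSectionVars false

open Finset
open scoped Classical

namespace Pool.Agent.OCyc

variable {V : Type*} [Fintype V]

/-- every vertex has more than half of all vertices as out-neighbours and as in-neighbours -/
def Deg (E : V → V → Prop) : Prop :=
  ∀ v, Fintype.card V < 2 * (univ.filter (fun y => E v y)).card ∧
    Fintype.card V < 2 * (univ.filter (fun y => E y v)).card

/-- vertices of weight at most `-t` -/
noncomputable def Lo (w : V → ℤ) (t : ℤ) : Finset V := univ.filter (fun v => w v ≤ -t)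

/-- vertices of weight at least `i` -/
noncomputable def Up (w : V → ℤ) (i : ℤ) : Finset V := univ.filter (fun v => i ≤ w v)

/-- number of vertices of weight at most `-t` -/
noncomputable def lo (w : V → ℤ) (t : ℤ) : ℕ := (Lo w t).card

@[simp] lemma mem_Lo {w : V → ℤ} {t : ℤ} {v : V} : v ∈ Lo w t ↔ w v ≤ -t := by simp [Lo]
@[simp] lemma mem_Up {w : V → ℤ} {i : ℤ} {v : V} : v ∈ Up w i ↔ i ≤ w v := by simp [Up]

lemma lo_anti (w : V → ℤ) {s t : ℤ} (h : s ≤ t) : lo w t ≤ lo w s := by
  apply card_le_card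
  intro v hv
  simp only [mem_Lo] at hv ⊢
  omega

lemma Deg.flip {E : V → V → Prop} (h : Deg E) : Deg (fun a b => E b a) :=
  fun v => ⟨(h v).2, (h v).1⟩

lemma close {E : V → V → Prop} (hD : Deg E) (y z : V) (S L : Finset V)
    (hS : ∀ v ∈ S, ¬ E y v ∧ ¬ E v z) (hL : ∀ b, E y b → E b z → b ∈ L) : S.card < L.card := by
  have h1 := (hD y).1
  have h2 := (hD z).2
  set A := univ.filter (fun v => E y v) with hA
  set B := univ.filter (fun v => E v z) with hB
  have h3 : (A ∩ B).card ≤ L.card := by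
    apply card_le_card
    intro b hb
    simp only [hA, hB, mem_inter, mem_filter, mem_univ, true_and] at hb
    exact hL b hb.1 hb.2
  have h4 : (A ∪ B).card + S.card ≤ Fintype.card V := by
    rw [← card_union_of_disjoint]
    · exact card_le_univ _
    · rw [disjoint_left]
      intro v hv hvS
      simp only [hA, hB, mem_union, mem_filter, mem_univ, true_and] at hv
      have := hS v hvS
      tauto
  have h5 := card_union_add_card_inter A B
  omega

lemma closeW {E : V → V → Prop} (hD : Deg E) (w : V → ℤ) (t : ℤ) (y z : V) (S : Finset V)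
    (hS : ∀ v ∈ S, ¬ E y v ∧ ¬ E v z) (hL : ∀ b, E y b → E b z → w b ≤ -t) : S.card < lo w t :=
  close hD y z S (Lo w t) hS (fun b h1 h2 => mem_Lo.2 (hL b h1 h2))

/-- double counting of non-edges inside an asymmetric set -/
lemma sum_miss (E : V → V → Prop) (S : Finset V) (hS : ∀ u ∈ S, ∀ v ∈ S, E u v → ¬ E v u) :
    S.card * S.card + S.card ≤ 2 * ∑ a ∈ S, (S.filter (fun v => ¬ E a v)).card := by
  have h1 : ∑ a ∈ S, (S.filter (fun v => ¬ E a v)).card
      = ∑ a ∈ S, ∑ v ∈ S, if ¬ E a v then 1 else 0 := by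
    apply sum_congr rfl
    intro a _
    rw [card_filter]
  have h2 : ∑ a ∈ S, ∑ v ∈ S, (if ¬ E a v then 1 else 0 : ℕ)
      = ∑ a ∈ S, ∑ v ∈ S, if ¬ E v a then 1 else 0 := sum_comm
  have h3 : S.card * S.card + S.card
      = ∑ a ∈ S, ∑ v ∈ S, (1 + if v = a then 1 else 0 : ℕ) := by
    simp only [sum_add_distrib, sum_const, smul_eq_mul, mul_one]
    congr 1
    rw [card_eq_sum_ones]
    apply sum_congr rfl
    intro a ha
    simp [ha]
  rw [h3, two_mul, h1]
  nth_rewrite 2 [h2]
  rw [← sum_add_distrib]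
  apply sum_le_sum
  intro a ha
  rw [← sum_add_distrib]
  apply sum_le_sum
  intro v hv
  by_cases hva : v = a
  · subst hva
    have : ¬ E v v := fun h => hS v hv v hv h h
    simp [this]
  · by_cases h : E a v
    · have := hS a ha v hv h
      simp [hva, h, this]
    · simp [hva, h]

lemma half (E : V → V → Prop) (S : Finset V) (hne : S.Nonempty)
    (hS : ∀ u ∈ S, ∀ v ∈ S, E u v → ¬ E v u) :
    ∃ a ∈ S, S.card < 2 * (S.filter (fun v => ¬ E a v)).card := by
  by_contra hcon
  push Not at hcon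
  have h1 := sum_miss E S hS
  have h2 : ∑ a ∈ S, 2 * (S.filter (fun v => ¬ E a v)).card ≤ ∑ _a ∈ S, S.card :=
    sum_le_sum hcon
  rw [← mul_sum, sum_const, smul_eq_mul] at h2
  have := hne.card_pos
  omega

/-- `half` for a subset `F` of `S` containing all out-neighbours in `S` of its members -/
lemma half_closed (E : V → V → Prop) (S F : Finset V) (hne : F.Nonempty) (hFS : F ⊆ S)
    (hS : ∀ u ∈ S, ∀ v ∈ S, E u v → ¬ E v u) (hcl : ∀ u ∈ F, ∀ v ∈ S, E u v → v ∈ F) :
    ∃ a ∈ F, 2 * S.card < 2 * (S.filter (fun v => ¬ E a v)).card + F.card := by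
  obtain ⟨a, ha, h⟩ := half E F hne (fun u hu v hv => hS u (hFS hu) v (hFS hv))
  refine ⟨a, ha, ?_⟩
  have h1 : (S \ F).card + (F.filter (fun v => ¬ E a v)).card
      ≤ (S.filter (fun v => ¬ E a v)).card := by
    rw [← card_union_of_disjoint]
    · apply card_le_card
      intro v hv
      simp only [mem_union, mem_sdiff, mem_filter] at hv ⊢
      rcases hv with hv | hv
      · exact ⟨hv.1, fun h => hv.2 (hcl a ha v hv.1 h)⟩
      · exact ⟨hFS hv.1, hv.2⟩
    · rw [disjoint_left]
      intro v hv hv'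
      simp only [mem_sdiff, mem_filter] at hv hv'
      exact hv.2 hv'.1
  have h2 := card_sdiff_add_card_eq_card hFS
  omega

lemma exists_out {E : V → V → Prop} (hD : Deg E) (S : Finset V)
    (hS : 2 * S.card ≤ Fintype.card V) (v : V) : ∃ y, E v y ∧ y ∉ S := by
  by_contra hcon
  push Not at hcon
  have h1 := (hD v).1
  have : (univ.filter (fun y => E v y)).card ≤ S.card := by
    apply card_le_card
    intro y hy
    simp only [mem_filter, mem_univ, true_and] at hy
    exact hcon y hy
  omega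

lemma up_le_lo (w : V → ℤ) {i : ℤ} (hi : 1 ≤ i) (h : Fintype.card V ≤ 2 * lo w i) :
    (Up w i).card ≤ lo w i := by
  have : (Up w i).card + (Lo w i).card ≤ Fintype.card V := by
    rw [← card_union_of_disjoint]
    · exact card_le_univ _
    · rw [disjoint_left]
      intro v h1 h2
      simp only [mem_Up, mem_Lo] at h1 h2
      omega
  unfold lo at *
  omega

lemma card_split (S : Finset V) (p : V → Prop) :
    S.card = (S.filter p).card + (S.filter (fun v => ¬ p v)).card :=
  (card_filter_add_card_filter_not p).symm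

/-- layer-cake bound for the total weight -/
lemma sum_le_layers (w : V → ℤ) (M T : ℕ) (hM : ∀ v, w v ≤ M) :
    ∑ v, w v ≤ (∑ i ∈ range M, ((Up w (i + 1)).card : ℤ)) - ∑ t ∈ range T, (lo w (t + 1) : ℤ) := by
  have h1 : ∀ i : ℕ, ((Up w (i + 1)).card : ℤ) = ∑ v, if (i : ℤ) + 1 ≤ w v then 1 else 0 := by
    intro i
    simp [Up]
  have h2 : ∀ t : ℕ, (lo w (t + 1) : ℤ) = ∑ v, if w v ≤ -((t : ℤ) + 1) then 1 else 0 := by
    intro t
    simp [lo, Lo]
  simp only [h1, h2]
  rw [sum_comm, sum_comm (s := range T), ← sum_sub_distrib]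
  apply sum_le_sum
  intro v _
  have a1 : ∀ (N : ℕ) (a : ℤ), (∑ i ∈ range N, if (i : ℤ) + 1 ≤ a then (1 : ℤ) else 0)
      = max 0 (min a N) := by
    intro N a
    induction N with
    | zero => simp
    | succ N ih =>
      rw [sum_range_succ, ih]
      split_ifs with h
      · push_cast; omega
      · push_cast; omega
  have a2 : (∑ t ∈ range T, if w v ≤ -((t : ℤ) + 1) then (1 : ℤ) else 0)
      = ∑ t ∈ range T, if (t : ℤ) + 1 ≤ - w v then (1 : ℤ) else 0 := by
    apply sum_congr rfl
    intro t _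
    congr 1
    apply propext
    constructor <;> intro h <;> omega
  rw [a2, a1, a1]
  have := hM v
  omega

lemma sum_two (w : V → ℤ) (M β : ℕ) :
    ∑ i ∈ range β, (2 * lo w (M + 2 * (i + 1)) : ℤ)
      ≤ ∑ t ∈ range (2 * β), (lo w (M + t + 1) : ℤ) := by
  induction β with
  | zero => simp
  | succ β ih =>
    rw [sum_range_succ, show 2 * (β + 1) = 2 * β + 1 + 1 by ring, sum_range_succ, sum_range_succ]
    have h1 : lo w (M + 2 * ((β : ℤ) + 1)) ≤ lo w (M + ((2 * β : ℕ) : ℤ) + 1) :=
      lo_anti w (by push_cast; omega)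
    have h2 : lo w (M + 2 * ((β : ℤ) + 1)) ≤ lo w (M + ((2 * β + 1 : ℕ) : ℤ) + 1) :=
      lo_anti w (by push_cast; omega)
    have h1' : (lo w (M + 2 * ((β : ℤ) + 1)) : ℤ) ≤ lo w (M + ((2 * β : ℕ) : ℤ) + 1) := by
      exact_mod_cast h1
    have h2' : (lo w (M + 2 * ((β : ℤ) + 1)) : ℤ) ≤ lo w (M + ((2 * β + 1 : ℕ) : ℤ) + 1) := by
      exact_mod_cast h2
    linarith

/-- the summation step: level inequalities give nonpositive total weight -/
lemma sum_nonpos_of_levels (w : V → ℤ) (M β : ℕ) (c : ℤ) (hM : ∀ v, w v ≤ M) (hβ : β ≤ M)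
    (hc : c ≤ M)
    (h : ∀ i : ℤ, 1 ≤ i → i ≤ M → (Up w i).card ≤ lo w i +
      (if i ≤ β then 2 * lo w (M + 2 * i) else if 2 * (β : ℤ) < c + i then lo w (M + c + i) else 0)) :
    ∑ v, w v ≤ 0 := by
  have h0 := sum_le_layers w M (M + (2 * β + 2 * M)) hM
  rw [sum_range_add, sum_range_add (fun x : ℕ => (lo w (((M + x : ℕ) : ℤ) + 1) : ℤ))] at h0
  have h1 : ∑ i ∈ range M, ((Up w (i + 1)).card : ℤ) ≤ ∑ i ∈ range M, ((lo w (i + 1) : ℤ) +
      ((if (i : ℤ) + 1 ≤ β then (2 * lo w (M + 2 * (i + 1)) : ℤ) else 0) +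
       (if ¬ ((i : ℤ) + 1 ≤ β) ∧ 2 * (β : ℤ) < c + (i + 1) then (lo w (M + c + (i + 1)) : ℤ)
         else 0))) := by
    apply sum_le_sum
    intro i hi
    have hi' : i < M := mem_range.1 hi
    have := h (i + 1) (by omega) (by omega)
    by_cases a1 : (i : ℤ) + 1 ≤ β
    · simp only [a1, if_true, not_true, false_and, if_false] at this ⊢
      push_cast
      omega
    · by_cases a2 : 2 * (β : ℤ) < c + (i + 1)
      · simp only [a1, a2, if_true, if_false, not_false_iff, and_self] at this ⊢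
        omega
      · simp only [a1, a2, if_false, not_false_iff, and_false] at this ⊢
        omega
  rw [sum_add_distrib, sum_add_distrib] at h1
  have h2 : ∑ i ∈ range M, (if (i : ℤ) + 1 ≤ β then (2 * lo w (M + 2 * (i + 1)) : ℤ) else 0)
      = ∑ i ∈ range β, (2 * lo w (M + 2 * (i + 1)) : ℤ) := by
    rw [← sum_filter]
    apply sum_congr _ (fun _ _ => rfl)
    ext i
    simp only [mem_filter, mem_range]
    omega
  have h3 := sum_two w M β
  have h4 : ∑ i ∈ range M, (if ¬ ((i : ℤ) + 1 ≤ β) ∧ 2 * (β : ℤ) < c + (i + 1) then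
      (lo w (M + c + (i + 1)) : ℤ) else 0)
      ≤ ∑ t ∈ range (2 * M), (lo w (((M + (2 * β + t) : ℕ) : ℤ) + 1) : ℤ) := by
    rw [← sum_filter]
    set F := (range M).filter (fun i : ℕ => ¬ ((i : ℤ) + 1 ≤ β) ∧ 2 * (β : ℤ) < c + (i + 1))
      with hF
    have hinj : Set.InjOn (fun i : ℕ => (c + i - 2 * β).toNat) (F : Set ℕ) := by
      intro a ha b hb hab
      simp only [hF, coe_filter, mem_range, Set.mem_ofPred_eq] at ha hb hab
      omega
    calc ∑ i ∈ F, (lo w (M + c + (i + 1)) : ℤ)
        = ∑ i ∈ F, (fun t : ℕ => (lo w (((M + (2 * β + t) : ℕ) : ℤ) + 1) : ℤ))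
            ((fun i : ℕ => (c + i - 2 * β).toNat) i) := by
          apply sum_congr rfl
          intro i hi
          simp only [hF, mem_filter, mem_range] at hi
          simp only
          congr 2
          push_cast
          omega
      _ = ∑ t ∈ F.image (fun i : ℕ => (c + i - 2 * β).toNat),
            (lo w (((M + (2 * β + t) : ℕ) : ℤ) + 1) : ℤ) := by
          rw [sum_image hinj]
      _ ≤ _ := by
          apply sum_le_sum_of_subset_of_nonneg
          · intro t ht
            simp only [hF, mem_image, mem_filter, mem_range] at ht ⊢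
            obtain ⟨i, hi, rfl⟩ := ht
            omega
          · intros; positivity
  have h5 : ∑ t ∈ range (2 * β), (lo w (M + t + 1) : ℤ)
      = ∑ x ∈ range (2 * β), (lo w (((M + x : ℕ) : ℤ) + 1) : ℤ) := by
    apply sum_congr rfl
    intro t _
    push_cast
    rfl
  linarith

/-- uniform version -/
lemma sum_nonpos_of_levels' (w : V → ℤ) (M : ℕ) (hM : ∀ v, w v ≤ M)
    (h : ∀ i : ℤ, 1 ≤ i → i ≤ M → (Up w i).card ≤ lo w i + 2 * lo w (M + 2 * i)) :
    ∑ v, w v ≤ 0 := by
  apply sum_nonpos_of_levels w M M 0 hM le_rfl (by positivity)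
  intro i h1 h2
  simp only [h2, if_true]
  exact h i h1 h2

/-- reduction to a top vertex of positive weight -/
lemma top_reduce (w : V → ℤ)
    (h : ∀ (x : V) (M : ℕ), w x = M → 1 ≤ M → (∀ v, w v ≤ M) → ∑ v, w v ≤ 0) :
    ∑ v, w v ≤ 0 := by
  by_cases hne : Nonempty V
  · obtain ⟨x, -, hx⟩ := exists_max_image univ w univ_nonempty
    by_cases h0 : w x ≤ 0
    · exact sum_nonpos (fun v _ => (hx v (mem_univ _)).trans h0)
    · refine h x (w x).toNat (by omega) (by omega) ?_
      intro v
      have := hx v (mem_univ _)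
      omega
  · have : IsEmpty V := not_nonempty_iff.1 hne
    simp

end Pool.Agent.OCyc
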