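import Pool.Agent.Lib.MP_061df2_co.FracSix

set_option autoImplicit false
set_option linter.unusedSectionVars false

open Finset
open scoped Classical

namespace Pool.Agent.OCyc

variable {V : Type*} [Fintype V]

/-- closed walks of length four have nonpositive weight -/
def W4 (E : V → V → Prop) (w : V → ℤ) : Prop :=
  ∀ a b c d, E a b → E b c → E c d → E d a → w a + w b + w c + w d ≤ 0

lemma W4.flip {E : V → V → Prop} {w : V → ℤ} (h : W4 E w) : W4 (fun a b => E b a) w := by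
  intro a b c d h1 h2 h3 h4
  have := h d c b a h3 h2 h1 h4
  omega

lemma W4.two {E : V → V → Prop} {w : V → ℤ} (h : W4 E w) : W2 E w := by
  intro a b h1 h2
  have := h a b a b h1 h2 h1 h2
  omega

lemma quad (E : V → V → Prop) (S : Finset V) (hS : ∀ u ∈ S, ∀ v ∈ S, E u v → ¬ E v u)
    (g : V → ℕ) (δ : ℕ) (h : ∀ t ∈ S, g t + (S.filter (fun v => ¬ E t v)).card ≤ δ) :
    2 * ∑ t ∈ S, g t ≤ δ * δ := by
  have h1 := sum_miss E S hS
  have h2 : ∑ t ∈ S, (g t + (S.filter (fun v => ¬ E t v)).card) ≤ ∑ _t ∈ S, δ := sum_le_sum h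
  rw [sum_add_distrib, sum_const, smul_eq_mul] at h2
  nlinarith [sq_nonneg ((S.card : ℤ) - δ), Nat.zero_le S.card]

lemma four_d {E : V → V → Prop} (hD : Deg E) {w : V → ℤ} (h4 : W4 E w) (x : V) (i : ℤ)
    (hi : 1 ≤ i) (hx : i ≤ w x) (U1 : Finset V) (mU1 : ∀ v, v ∈ U1 ↔ i ≤ w v ∧ E x v)
    (he : ∃ a ∈ U1, ∃ b ∈ U1, E a b) : U1.card ≤ 2 * lo w (w x + 2 * i) := by
  have h2 := h4.two
  set F := U1.filter (fun d => ∃ a ∈ U1, E a d) with hF
  have hFne : F.Nonempty := by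
    obtain ⟨a, ha, b, hb, h1⟩ := he
    exact ⟨b, mem_filter.2 ⟨hb, a, ha, h1⟩⟩
  obtain ⟨d, hd, hh⟩ := half_closed E U1 F hFne (filter_subset _ _)
    (asym_up h2 hi U1 (fun v hv => ((mU1 v).1 hv).1))
    (fun u hu v hv huv => mem_filter.2 ⟨hv, u, (mem_filter.1 hu).1, huv⟩)
  obtain ⟨hd1, a, ha, h1⟩ := mem_filter.1 hd
  have hF1 : F.card ≤ U1.card := card_le_card (filter_subset _ _)
  have h5 := closeW hD w (w x + 2 * i) d x (U1.filter (fun v => ¬ E d v)) (by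
      intro v hv
      have := (mU1 v).1 (mem_filter.1 hv).1
      exact ⟨(mem_filter.1 hv).2, disj_12 h2 x hi hx v this.1 this.2⟩) (by
      intro b b1 b2
      rw [mU1] at ha hd1
      have := h4 x a d b ha.2 h1 b1 b2
      omega)
  omega

lemma four_c1 {E : V → V → Prop} (hD : Deg E) {w : V → ℤ} (h4 : W4 E w) (x : V) (i : ℤ)
    (hi : 1 ≤ i) (hx : i ≤ w x) (U1 U2 : Finset V) (mU1 : ∀ v, v ∈ U1 ↔ i ≤ w v ∧ E x v)
    (mU2 : ∀ v, v ∈ U2 ↔ i ≤ w v ∧ E v x) (hdis : Disjoint U1 U2)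
    (he1 : ∃ a ∈ U1, ∃ b ∈ U1, E a b) (he2 : ∃ a ∈ U2, ∃ b ∈ U2, E b a) :
    U1.card + U2.card ≤ 2 * lo w (w x + 2 * i) := by
  have h2 := h4.two
  set F := U1.filter (fun d => ∃ a ∈ U1, E a d) with hF
  have hFne : F.Nonempty := by
    obtain ⟨a, ha, b, hb, h1⟩ := he1
    exact ⟨b, mem_filter.2 ⟨hb, a, ha, h1⟩⟩
  obtain ⟨d, hd, hh⟩ := half_closed E U1 F hFne (filter_subset _ _)
    (asym_up h2 hi U1 (fun v hv => ((mU1 v).1 hv).1))
    (fun u hu v hv huv => mem_filter.2 ⟨hv, u, (mem_filter.1 hu).1, huv⟩)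
  obtain ⟨hd1, a, ha, h1⟩ := mem_filter.1 hd
  have hF1 : F.card ≤ U1.card := card_le_card (filter_subset _ _)
  set F' := U2.filter (fun d => ∃ a ∈ U2, E d a) with hF'
  have hFne' : F'.Nonempty := by
    obtain ⟨a, ha, b, hb, h1⟩ := he2
    exact ⟨b, mem_filter.2 ⟨hb, a, ha, h1⟩⟩
  obtain ⟨d', hd', hh'⟩ := half_closed (fun a b => E b a) U2 F' hFne' (filter_subset _ _)
    (asym_up h2.flip hi U2 (fun v hv => ((mU2 v).1 hv).1))
    (fun u hu v hv huv => mem_filter.2 ⟨hv, u, (mem_filter.1 hu).1, huv⟩)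
  obtain ⟨hd1', a', ha', h1'⟩ := mem_filter.1 hd'
  have hF1' : F'.card ≤ U2.card := card_le_card (filter_subset _ _)
  rw [mU1] at ha hd1
  rw [mU2] at ha' hd1'
  have h5 := closeW hD w (w x + 2 * i) d d'
    (U1.filter (fun v => ¬ E d v) ∪ U2.filter (fun v => ¬ E v d')) (by
      intro v hv
      rcases mem_union.1 hv with hv | hv
      · refine ⟨(mem_filter.1 hv).2, fun h => ?_⟩
        have b1 := (mU1 v).1 (mem_filter.1 hv).1
        have := h4 x v d' a' b1.2 h h1' ha'.2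
        omega
      · refine ⟨fun h => ?_, (mem_filter.1 hv).2⟩
        have b1 := (mU2 v).1 (mem_filter.1 hv).1
        have := h4 x a d v ha.2 h1 h b1.2
        omega) (by
      intro b b1 b2
      have := h4 x d b d' hd1.2 b1 b2 hd1'.2
      omega)
  rw [card_union_of_disjoint (disjoint_filter_filter hdis)] at h5
  omega

lemma four_c2 {E : V → V → Prop} (hD : Deg E) {w : V → ℤ} (h4 : W4 E w) (x : V) (i : ℤ)
    (hi : 1 ≤ i) (hx : i ≤ w x) (U1 U2 : Finset V) (mU1 : ∀ v, v ∈ U1 ↔ i ≤ w v ∧ E x v)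
    (mU2 : ∀ v, v ∈ U2 ↔ i ≤ w v ∧ E v x) (hdis : Disjoint U1 U2) (hne : U1.Nonempty)
    (he1 : ∀ a ∈ U1, ∀ b ∈ U1, ¬ E a b) (he2 : ∃ a ∈ U2, ∃ b ∈ U2, E b a) :
    U1.card + U2.card ≤ 2 * lo w (w x + 2 * i) := by
  have h2 := h4.two
  set F' := U2.filter (fun d => ∃ a ∈ U2, E d a) with hF'
  have hFne' : F'.Nonempty := by
    obtain ⟨a, ha, b, hb, h1⟩ := he2
    exact ⟨b, mem_filter.2 ⟨hb, a, ha, h1⟩⟩
  obtain ⟨c, hc, hh⟩ := half (fun a b => E b a) F' hFne'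
    (asym_up h2.flip hi F' (fun v hv => ((mU2 v).1 (mem_filter.1 hv).1).1))
  obtain ⟨hc1, c', hc', h1'⟩ := mem_filter.1 hc
  obtain ⟨a, ha⟩ := hne
  have ha1 := (mU1 a).1 ha
  have hc2 := (mU2 c).1 hc1
  have hc3 := (mU2 c').1 hc'
  have h5 := closeW hD w (w x + 2 * i) x c ((U2 \ F') ∪ F'.filter (fun v => ¬ E v c)) (by
      intro v hv
      rcases mem_union.1 hv with hv | hv
      · have b1 := (mU2 v).1 (mem_sdiff.1 hv).1
        exact ⟨disj_12 h2.flip x hi hx v b1.1 b1.2,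
          fun h => (mem_sdiff.1 hv).2 (mem_filter.2 ⟨(mem_sdiff.1 hv).1, c, hc1, h⟩)⟩
      · have b1 := (mU2 v).1 (mem_filter.1 (mem_filter.1 hv).1).1
        exact ⟨disj_12 h2.flip x hi hx v b1.1 b1.2, (mem_filter.1 hv).2⟩) (by
      intro b b1 b2
      have := h4 x b c c' b1 b2 h1' hc3.2
      omega)
  have h6 := closeW hD w (w x + 2 * i) a c (U1 ∪ F'.filter (fun v => ¬ E v c)) (by
      intro v hv
      rcases mem_union.1 hv with hv | hv
      · refine ⟨he1 a ha v hv, fun h => ?_⟩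
        have b1 := (mU1 v).1 hv
        have := h4 x v c c' b1.2 h h1' hc3.2
        omega
      · refine ⟨fun h => ?_, (mem_filter.1 hv).2⟩
        obtain ⟨b1, f, hf, b2⟩ := mem_filter.1 (mem_filter.1 hv).1
        rw [mU2] at b1 hf
        have := h4 x a v f ha1.2 h b2 hf.2
        omega) (by
      intro b b1 b2
      have := h4 x a b c ha1.2 b1 b2 hc2.2
      omega)
  rw [card_union_of_disjoint (disjoint_of_subset_right (filter_subset _ _) sdiff_disjoint)] at h5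
  rw [card_union_of_disjoint (disjoint_of_subset_right
    ((filter_subset _ _).trans (filter_subset _ _)) hdis)] at h6
  have h7 := card_sdiff_add_card_eq_card (filter_subset (fun d => ∃ a ∈ U2, E d a) U2)
  rw [← hF'] at h6 h7
  omega

lemma four_c {E : V → V → Prop} (hD : Deg E) {w : V → ℤ} (h4 : W4 E w) (x : V) (i : ℤ)
    (hi : 1 ≤ i) (hx : i ≤ w x) (hU1 : ∃ v, i ≤ w v ∧ E x v) (hU2 : ∃ v, i ≤ w v ∧ E v x) :
    (Up w i).card ≤ lo w i + 2 * lo w (w x + 2 * i) := by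
  have h2 := h4.two
  set U := Up w i with hU
  set l := lo w i with hl
  set m := lo w (w x + 2 * i) with hm
  have hml : m ≤ l := lo_anti w (by omega)
  have mU : ∀ v, v ∈ U ↔ i ≤ w v := fun v => mem_Up
  have h3 := card_three E x U
  set U0 := U.filter (fun v => ¬ E x v ∧ ¬ E v x) with hU0
  set U1 := U.filter (fun v => E x v) with hU1'
  set U2 := U.filter (fun v => E v x) with hU2'
  have mU0 : ∀ v, v ∈ U0 ↔ i ≤ w v ∧ ¬ E x v ∧ ¬ E v x := by intro v; simp [hU0, mU]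
  have mU1 : ∀ v, v ∈ U1 ↔ i ≤ w v ∧ E x v := by intro v; simp [hU1', mU]
  have mU2 : ∀ v, v ∈ U2 ↔ i ≤ w v ∧ E v x := by intro v; simp [hU2', mU]
  have hne1 : U1.Nonempty := by obtain ⟨v, h1, h4⟩ := hU1; exact ⟨v, (mU1 v).2 ⟨h1, h4⟩⟩
  have hne2 : U2.Nonempty := by obtain ⟨v, h1, h4⟩ := hU2; exact ⟨v, (mU2 v).2 ⟨h1, h4⟩⟩
  have h0 : U0.card < l :=
    lt_of_lt_of_le (card_Z hD h2 x _ (fun v hv => ((mU0 v).1 hv).2)) (lo_anti w hx)
  have hnx1 : ∀ a ∈ U1, ¬ E a x := fun v hv =>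
    disj_12 h2 x hi hx v ((mU1 v).1 hv).1 ((mU1 v).1 hv).2
  have hnx2 : ∀ a ∈ U2, ¬ E x a := fun v hv =>
    disj_12 h2.flip x hi hx v ((mU2 v).1 hv).1 ((mU2 v).1 hv).2
  have hdis : Disjoint U1 U2 := by
    rw [disjoint_left]
    intro v hv hv'
    exact hnx1 v hv ((mU2 v).1 hv').2
  by_cases he1 : ∃ a ∈ U1, ∃ b ∈ U1, E a b
  · by_cases he2 : ∃ a ∈ U2, ∃ b ∈ U2, E b a
    · have := four_c1 hD h4 x i hi hx U1 U2 mU1 mU2 hdis he1 he2
      omega
    · push Not at he2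
      have := four_c2 hD.flip h4.flip x i hi hx U2 U1 mU2 mU1 hdis.symm hne2 he2 he1
      omega
  push Not at he1
  by_cases he2 : ∃ a ∈ U2, ∃ b ∈ U2, E b a
  · have := four_c2 hD h4 x i hi hx U1 U2 mU1 mU2 hdis hne1 he1 he2
    omega
  push Not at he2
  by_cases he : ∃ a ∈ U1, ∃ c ∈ U2, E a c
  · obtain ⟨a, ha, c, hc, hac⟩ := he
    have ha1 := (mU1 a).1 ha
    have hc1 := (mU2 c).1 hc
    have asy := asym_up h2 hi U (fun v hv => (mU v).1 hv)
    have h5 := closeW hD w (w x + 2 * i) c x (U.filter (fun v => ¬ E c v ∧ ¬ E v x))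
      (fun v hv => (mem_filter.1 hv).2) (by
      intro b b1 b2
      have := h4 x a c b ha1.2 hac b1 b2
      omega)
    have h6 := closeW hD w (w x + 2 * i) x a (U.filter (fun v => ¬ E x v ∧ ¬ E v a))
      (fun v hv => (mem_filter.1 hv).2) (by
      intro b b1 b2
      have := h4 x b a c b1 b2 hac hc1.2
      omega)
    have h7 := closeW hD w (w x + 2 * i) a c (U.filter (fun v => ¬ E a v ∧ ¬ E v c))
      (fun v hv => (mem_filter.1 hv).2) (by
      intro b b1 b2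
      have := h4 x a b c ha1.2 b1 b2 hc1.2
      omega)
    have h8 : U.card ≤ (U.filter (fun v => ¬ E c v ∧ ¬ E v x)).card +
        (U.filter (fun v => ¬ E x v ∧ ¬ E v a)).card +
        (U.filter (fun v => ¬ E a v ∧ ¬ E v c)).card := by
      refine le_trans (card_le_card ?_) ((card_union_le _ _).trans
        (Nat.add_le_add_right (card_union_le _ _) _))
      intro v hv
      simp only [mem_union, mem_filter]
      have hv1 := (mU v).1 hv
      have s1 := asy c ((mU c).2 hc1.1) v hv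
      have s2 := asy v hv a ((mU a).2 ha1.1)
      have s3 : E x v → ¬ E a v ∧ ¬ E v x := fun h =>
        ⟨he1 a ha v ((mU1 v).2 ⟨hv1, h⟩), hnx1 v ((mU1 v).2 ⟨hv1, h⟩)⟩
      have s4 : E v x → ¬ E v c ∧ ¬ E x v := fun h =>
        ⟨he2 c hc v ((mU2 v).2 ⟨hv1, h⟩), hnx2 v ((mU2 v).2 ⟨hv1, h⟩)⟩
      tauto
    omega
  · push Not at he
    obtain ⟨a, ha⟩ := hne1
    obtain ⟨c, hc⟩ := hne2
    have ha1 := (mU1 a).1 ha
    have hc1 := (mU2 c).1 hc
    have h7 := closeW hD w (w x + 2 * i) a c (U1 ∪ U2) (by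
      intro v hv
      rcases mem_union.1 hv with hv | hv
      · exact ⟨he1 a ha v hv, he v hv c hc⟩
      · exact ⟨he a ha v hv, he2 c hc v hv⟩) (by
      intro b b1 b2
      have := h4 x a b c ha1.2 b1 b2 hc1.2
      omega)
    rw [card_union_of_disjoint hdis] at h7
    omega

end Pool.Agent.OCyc
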