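import Pool.Agent.Lib.MP_061df2_co.FracFourA

set_option autoImplicit false
set_option linter.unusedSectionVars false

open Finset
open scoped Classical

namespace Pool.Agent.OCyc

variable {V : Type*} [Fintype V]

lemma dcount_not (E : V → V → Prop) (P Q : Finset V) :
    ∑ p ∈ P, (Q.filter (fun q => ¬ E p q)).card
      = ∑ q ∈ Q, (P.filter (fun p => ¬ E p q)).card := by
  simp only [card_filter]
  exact sum_comm

lemma four_e {E : V → V → Prop} (hD : Deg E) {w : V → ℤ} (h4 : W4 E w) (x : V) (i : ℤ)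
    (hi : 1 ≤ i) (hx : i ≤ w x) (hU2 : ∀ v, i ≤ w v → ¬ E v x)
    (hind : ∀ a b, i ≤ w a → E x a → i ≤ w b → E x b → ¬ E a b)
    (s q : V) (β : ℤ) (hβ : 1 ≤ β) (hβi : β ≤ i) (hxs : E x s) (hxq : E x q) (hsq : E s q)
    (hs : β ≤ w s) (hq : β ≤ w q) :
    (Up w i).card ≤ lo w i + lo w (w x + β + i) := by
  by_contra hcon
  push Not at hcon
  have h2 := h4.two
  set U := Up w i with hU
  set l := lo w i with hl
  set m := lo w (w x + β + i) with hm
  have mU : ∀ v, v ∈ U ↔ i ≤ w v := fun v => mem_Up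
  have asy := asym_up h2 hi U (fun v hv => (mU v).1 hv)
  set U1 := U.filter (fun v => E x v) with hU1
  have mU1 : ∀ v, v ∈ U1 ↔ i ≤ w v ∧ E x v := by intro v; simp [hU1, mU]
  have hsp := card_split U (fun v => E x v)
  rw [← hU1] at hsp
  have h0 : (U.filter (fun v => ¬ E x v)).card < l :=
    lt_of_lt_of_le (card_Z hD h2 x _ (fun v hv =>
      ⟨(mem_filter.1 hv).2, hU2 v ((mU v).1 (mem_filter.1 hv).1)⟩)) (lo_anti w hx)
  have hu1 : m < U1.card := by omega
  have miss : ∀ (y : V) (t : ℤ), (∀ b, E y b → E b x → w b ≤ -t) →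
      (U.filter (fun v => ¬ E y v)).card < lo w t := by
    intro y t h
    exact closeW hD w t y x _ (fun v hv =>
      ⟨(mem_filter.1 hv).2, hU2 v ((mU v).1 (mem_filter.1 hv).1)⟩) h
  have miss1 : ∀ a v, E x a → E a v → β + i ≤ w a + w v →
      (U.filter (fun p => ¬ E v p)).card < m := by
    intro a v h1 h3 h5
    apply miss
    intro b b1 b2
    have := h4 x a v b h1 h3 b1 b2
    omega
  have hq1 : ∀ y ∈ U1, ¬ E q y := by
    intro y hy hqy
    have hy' := (mU1 y).1 hy
    have h5 := miss1 q y hxq hqy (by omega)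
    have : U1.card ≤ (U.filter (fun p => ¬ E y p)).card := by
      apply card_le_card
      intro p hp
      have hp' := (mU1 p).1 hp
      exact mem_filter.2 ⟨(mU p).2 hp'.1, hind y p hy'.1 hy'.2 hp'.1 hp'.2⟩
    omega
  have hq3 : (U.filter (fun p => ¬ E q p)).card < l := by
    apply miss
    intro b b1 b2
    have := h4 x s q b hxs hsq b1 b2
    omega
  set F0 := U.filter (fun p => E q p) with hF0
  have hF0c : m < F0.card := by
    have := card_split U (fun p => E q p)
    rw [← hF0] at this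
    omega
  have missF : ∀ v ∈ F0, (U.filter (fun p => ¬ E v p)).card < m := by
    intro v hv
    obtain ⟨h1, h3⟩ := mem_filter.1 hv
    rw [mU] at h1
    exact miss1 q v hxq h3 (by omega)
  set Tq := U.filter (fun t => E t q) with hTq
  have hTqc : 2 * Tq.card ≤ m := by
    set F := F0.filter (fun d => ∃ a ∈ F0, E a d) with hF
    have hFne : F.Nonempty := by
      obtain ⟨a, ha⟩ : F0.Nonempty := card_pos.1 (by omega)
      by_contra hcon'
      have h5 := missF a ha
      have : F0.card ≤ (U.filter (fun p => ¬ E a p)).card := by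
        apply card_le_card
        intro p hp
        exact mem_filter.2 ⟨(mem_filter.1 hp).1,
          fun h => hcon' ⟨p, mem_filter.2 ⟨hp, a, ha, h⟩⟩⟩
      omega
    obtain ⟨d, hd, hh⟩ := half_closed E F0 F hFne (filter_subset _ _)
      (fun u hu v hv => asy u (mem_filter.1 hu).1 v (mem_filter.1 hv).1)
      (fun u hu v hv huv => mem_filter.2 ⟨hv, u, (mem_filter.1 hu).1, huv⟩)
    obtain ⟨hd1, a, ha, h1⟩ := mem_filter.1 hd
    have hF1 : F.card ≤ F0.card := card_le_card (filter_subset _ _)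
    have h5 := missF d hd1
    have h6 : (Tq ∪ F0.filter (fun p => ¬ E d p)).card ≤ (U.filter (fun p => ¬ E d p)).card := by
      apply card_le_card
      intro p hp
      rcases mem_union.1 hp with hp | hp
      · obtain ⟨p1, p2⟩ := mem_filter.1 hp
        refine mem_filter.2 ⟨p1, fun h => ?_⟩
        have b1 := (mU a).1 (mem_filter.1 ha).1
        have b2 := (mU d).1 (mem_filter.1 hd1).1
        have b3 := (mU p).1 p1
        have := h4 q a d p (mem_filter.1 ha).2 h1 h p2
        omega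
      · exact mem_filter.2 ⟨(mem_filter.1 (mem_filter.1 hp).1).1, (mem_filter.1 hp).2⟩
    rw [card_union_of_disjoint] at h6
    · omega
    · rw [disjoint_left]
      intro p hp hp'
      have b1 := (mU p).1 (mem_filter.1 hp).1
      have := h2 q p (mem_filter.1 (mem_filter.1 hp').1).2 (mem_filter.1 hp).2
      omega
  set S0 := U.filter (fun v => ¬ E x v ∧ (U.filter (fun p => ¬ E v p)).card < m) with hS0
  have hcount := quad E S0 (fun u hu v hv => asy u (mem_filter.1 hu).1 v (mem_filter.1 hv).1)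
    (fun v => (U1.filter (fun p => ¬ E v p)).card) m (by
      intro t ht
      obtain ⟨-, t1, t2⟩ := mem_filter.1 ht
      rw [← card_union_of_disjoint]
      · refine le_trans (card_le_card ?_) t2.le
        intro p hp
        rcases mem_union.1 hp with hp | hp
        · exact mem_filter.2 ⟨(mem_filter.1 (mem_filter.1 hp).1).1, (mem_filter.1 hp).2⟩
        · exact mem_filter.2 ⟨(mem_filter.1 (mem_filter.1 hp).1).1, (mem_filter.1 hp).2⟩
      · rw [disjoint_left]
        intro p hp hp'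
        exact (mem_filter.1 (mem_filter.1 hp').1).2.1 (mem_filter.1 (mem_filter.1 hp).1).2)
  rw [dcount_not] at hcount
  obtain ⟨y, hy, hy2⟩ : ∃ y ∈ U1, 2 * (S0.filter (fun p => ¬ E p y)).card ≤ m := by
    by_contra hcon'
    push Not at hcon'
    have h5 : ∑ _y ∈ U1, (m + 1) ≤ ∑ y ∈ U1, 2 * (S0.filter (fun p => ¬ E p y)).card :=
      sum_le_sum hcon'
    rw [← mul_sum, sum_const, smul_eq_mul] at h5
    nlinarith
  have hy' := (mU1 y).1 hy
  obtain ⟨v, hv, hvy⟩ : ∃ v ∈ F0, E v y := by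
    by_contra hcon'
    push Not at hcon'
    have : F0.card ≤ (S0.filter (fun p => ¬ E p y)).card := by
      apply card_le_card
      intro p hp
      refine mem_filter.2 ⟨mem_filter.2 ⟨(mem_filter.1 hp).1, fun h => ?_, missF p hp⟩, hcon' p hp⟩
      exact hq1 p (mem_filter.2 ⟨(mem_filter.1 hp).1, h⟩) (mem_filter.1 hp).2
    omega
  have h7 := closeW hD w i y q (U \ (S0.filter (fun p => ¬ E p y) ∪ Tq)) (by
      intro p hp
      obtain ⟨p1, p2⟩ := mem_sdiff.1 hp
      have p3 := (mU p).1 p1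
      refine ⟨fun h => p2 (mem_union_left _ (mem_filter.2 ⟨mem_filter.2 ⟨p1,
        fun h' => hind y p hy'.1 hy'.2 p3 h' h, miss1 y p hy'.2 h (by omega)⟩,
        asy y ((mU y).2 hy'.1) p p1 h⟩)), fun h => p2 (mem_union_right _ (mem_filter.2 ⟨p1, h⟩))⟩)
    (by
      intro b b1 b2
      have b3 := (mU v).1 (mem_filter.1 hv).1
      have := h4 q v y b (mem_filter.1 hv).2 hvy b1 b2
      omega)
  have h8 := le_card_sdiff (S0.filter (fun p => ¬ E p y) ∪ Tq) U
  have h9 := card_union_le (S0.filter (fun p => ¬ E p y)) Tq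
  omega

lemma ar1 (k δ S : ℕ) (h1 : 2 * S ≤ δ * δ) (h2 : k * (δ + 1) ≤ S) : 2 * k ≤ δ := by
  by_contra h
  push Not at h
  nlinarith

lemma ar2 (y ε n1 n0 b μ a1 a2 a3 : ℕ) (h1 : 2 * a1 ≤ ε * ε) (h2 : a2 ≤ b * (y + ε))
    (h3 : a3 ≤ y * n1) (h4 : μ * (y + ε + 1) ≤ a1 + a2 + a3) (h5 : b ≤ n0) (h6 : y + ε < μ)
    (h7 : n1 + n0 ≤ y + ε) (h8 : y + ε ≤ 2 * n1) : False := by
  have e1 : b * (y + ε) ≤ n0 * (y + ε) := Nat.mul_le_mul_right _ h5
  have e2 : (y + ε + 1) * (y + ε + 1) ≤ μ * (y + ε + 1) := Nat.mul_le_mul_right _ h6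
  have e3 : (n1 + n0) * (y + ε) ≤ (y + ε) * (y + ε) := Nat.mul_le_mul_right _ h7
  have e4 : ε * ε ≤ 2 * n1 * ε := Nat.mul_le_mul_right _ (by omega)
  nlinarith

lemma card_union3_le (A B C D : Finset V) (hAB : Disjoint A B) (hAC : Disjoint A C)
    (hBC : Disjoint B C) (hA : A ⊆ D) (hB : B ⊆ D) (hC : C ⊆ D) :
    A.card + B.card + C.card ≤ D.card := by
  rw [← card_union_of_disjoint hAB, ← card_union_of_disjoint (disjoint_union_left.2 ⟨hAC, hBC⟩)]
  exact card_le_card (union_subset (union_subset hA hB) hC)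

lemma four_f {E : V → V → Prop} (hD : Deg E) {w : V → ℤ} (h4 : W4 E w) (x : V) (i : ℤ)
    (hi : 1 ≤ i) (hx : i ≤ w x) (hU2 : ∀ v, i ≤ w v → ¬ E v x)
    (hind : ∀ a b, i ≤ w a → E x a → i ≤ w b → E x b → ¬ E a b)
    (c : V) (hcx : E c x) (hc : -i < w c) :
    (Up w i).card ≤ lo w i + lo w (w x + w c + i) := by
  by_contra hcon
  push Not at hcon
  have h2 := h4.two
  have hci : w c < i := by
    by_contra h
    exact hU2 c (by omega) hcx
  set U := Up w i with hU
  set l := lo w i with hl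
  set m := lo w (w x + w c + i) with hm
  have hml : m ≤ l := lo_anti w (by omega)
  have mU : ∀ v, v ∈ U ↔ i ≤ w v := fun v => mem_Up
  have asy := asym_up h2 hi U (fun v hv => (mU v).1 hv)
  set U1 := U.filter (fun v => E x v) with hU1
  have mU1 : ∀ v, v ∈ U1 ↔ i ≤ w v ∧ E x v := by intro v; simp [hU1, mU]
  have hsp := card_split U (fun v => E x v)
  rw [← hU1] at hsp
  have h0 : (U.filter (fun v => ¬ E x v)).card < l :=
    lt_of_lt_of_le (card_Z hD h2 x _ (fun v hv =>
      ⟨(mem_filter.1 hv).2, hU2 v ((mU v).1 (mem_filter.1 hv).1)⟩)) (lo_anti w hx)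
  have hu1 : m < U1.card := by omega
  have miss : ∀ (y : V) (t : ℤ), (∀ b, E y b → E b x → w b ≤ -t) →
      (U.filter (fun v => ¬ E y v)).card < lo w t := by
    intro y t h
    exact closeW hD w t y x _ (fun v hv =>
      ⟨(mem_filter.1 hv).2, hU2 v ((mU v).1 (mem_filter.1 hv).1)⟩) h
  have miss1 : ∀ a ∈ U1, ∀ v, i ≤ w v → E a v → (U.filter (fun p => ¬ E v p)).card < m := by
    intro a ha v hv h3
    rw [mU1] at ha
    apply miss
    intro b b1 b2
    have := h4 x a v b ha.2 h3 b1 b2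
    omega
  set J := U.filter (fun v => E v c) with hJ
  have mJ : ∀ v, v ∈ J ↔ i ≤ w v ∧ E v c := by intro v; simp [hJ, mU]
  have hKJ : ∀ v, i ≤ w v → E c v → ¬ E v c := by
    intro v hv h1 h3
    have := h2 c v h1 h3
    omega
  -- step 1
  have s1 : ∀ y ∈ U1, (U.filter (fun v => ¬ E y v ∧ ¬ E v c)).card < m := by
    intro y hy
    rw [mU1] at hy
    apply closeW hD w _ y c _ (fun v hv => (mem_filter.1 hv).2)
    intro b b1 b2
    have := h4 x y b c hy.2 b1 b2 hcx
    omega
  set M1 := U1.filter (fun v => ¬ E v c) with hM1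
  have mM1 : ∀ v, v ∈ M1 ↔ (i ≤ w v ∧ E x v) ∧ ¬ E v c := by intro v; simp [hM1, mU1]
  have hsp1 := card_split U1 (fun v => E v c)
  rw [← hM1] at hsp1
  have hM1m : M1.card < m := by
    obtain ⟨y, hy⟩ : U1.Nonempty := card_pos.1 (by omega)
    refine lt_of_le_of_lt (card_le_card ?_) (s1 y hy)
    intro v hv
    rw [mM1] at hv
    rw [mU1] at hy
    exact mem_filter.2 ⟨(mU v).2 hv.1.1, hind y v hy.1 hy.2 hv.1.1 hv.1.2, hv.2⟩
  have hJ1 : (U1.filter (fun v => E v c)).card ≤ J.card :=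
    card_le_card (filter_subset_filter _ (filter_subset _ _))
  obtain ⟨y0, hy0⟩ : (U1.filter (fun v => E v c)).Nonempty := card_pos.1 (by omega)
  have hy0' := (mU1 y0).1 (mem_filter.1 hy0).1
  have missc : (U.filter (fun v => ¬ E c v)).card < m := by
    apply miss
    intro b b1 b2
    have := h4 x y0 c b hy0'.2 (mem_filter.1 hy0).2 b1 b2
    omega
  set N1 := U.filter (fun v => E x v ∧ ¬ E c v ∧ ¬ E v c) with hN1
  set N0 := U.filter (fun v => ¬ E x v ∧ ¬ E c v ∧ ¬ E v c) with hN0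
  have mN1 : ∀ v, v ∈ N1 ↔ i ≤ w v ∧ E x v ∧ ¬ E c v ∧ ¬ E v c := by intro v; simp [hN1, mU]
  have mN0 : ∀ v, v ∈ N0 ↔ i ≤ w v ∧ ¬ E x v ∧ ¬ E c v ∧ ¬ E v c := by intro v; simp [hN0, mU]
  have hjn : J.card + N1.card + N0.card < m := by
    refine lt_of_le_of_lt (card_union3_le _ _ _ _ ?_ ?_ ?_ ?_ ?_ ?_) missc
    · rw [disjoint_left]; intro v h1 h3; rw [mJ] at h1; rw [mN1] at h3; tauto
    · rw [disjoint_left]; intro v h1 h3; rw [mJ] at h1; rw [mN0] at h3; tauto
    · rw [disjoint_left]; intro v h1 h3; rw [mN1] at h1; rw [mN0] at h3; tauto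
    · intro v hv; rw [mJ] at hv
      exact mem_filter.2 ⟨(mU v).2 hv.1, fun h => hKJ v hv.1 h hv.2⟩
    · intro v hv; rw [mN1] at hv
      exact mem_filter.2 ⟨(mU v).2 hv.1, hv.2.2.1⟩
    · intro v hv; rw [mN0] at hv
      exact mem_filter.2 ⟨(mU v).2 hv.1, hv.2.2.1⟩
  obtain ⟨δ, hδ⟩ : ∃ δ, m = J.card + δ := ⟨m - J.card, by omega⟩
  set K1 := U.filter (fun v => E x v ∧ E c v) with hK1
  have mK1 : ∀ v, v ∈ K1 ↔ i ≤ w v ∧ E x v ∧ E c v := by intro v; simp [hK1, mU]
  have hM1s : M1.card ≤ K1.card + N1.card := by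
    refine le_trans (card_le_card ?_) (card_union_le _ _)
    intro v hv
    rw [mM1] at hv
    rw [mem_union, mK1, mN1]
    tauto
  have hM1δ : δ < M1.card := by omega
  -- step 3
  set R := U.filter (fun v => ¬ E v c) with hR
  have hspR := card_split U (fun v => E v c)
  rw [← hJ, ← hR] at hspR
  have s3 : ∀ y ∈ U1, δ < (R.filter (fun v => E y v)).card := by
    intro y hy
    have b1 := s1 y hy
    have b2 := card_split R (fun v => E y v)
    have b3 : (R.filter (fun v => ¬ E y v)).card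
        ≤ (U.filter (fun v => ¬ E y v ∧ ¬ E v c)).card := by
      apply card_le_card
      intro v hv
      obtain ⟨v1, v2⟩ := mem_filter.1 hv
      exact mem_filter.2 ⟨(mem_filter.1 v1).1, v2, (mem_filter.1 v1).2⟩
    omega
  have zc : ∀ k v j, i ≤ w k → E c k → i ≤ w v → j ∈ J → E k v → ¬ E v j := by
    intro k v j k1 k2 v1 hj hkv hvj
    rw [mJ] at hj
    have := h4 c k v j k2 hkv hvj hj.2
    omega
  have tU0 : ∀ y ∈ U1, ∀ t, i ≤ w t → E y t → ¬ E x t := by
    intro y hy t ht hyt h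
    rw [mU1] at hy
    exact hind y t hy.1 hy.2 ht h hyt
  have hK1U : ∀ v ∈ K1, v ∈ U1 := by
    intro v hv; rw [mK1] at hv; exact (mU1 v).2 ⟨hv.1, hv.2.1⟩
  -- step 5
  have s5 : 2 * K1.card ≤ δ := by
    set S := R.filter (fun t => ∃ y ∈ K1, E y t) with hS
    have hq := quad E S (fun u hu v hv => asy u (mem_filter.1 (mem_filter.1 hu).1).1 v
      (mem_filter.1 (mem_filter.1 hv).1).1) (fun t => (K1.filter (fun y => E y t)).card) δ (by
      intro t ht
      obtain ⟨t1, y, hy, hyt⟩ := mem_filter.1 ht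
      obtain ⟨t2, t3⟩ := mem_filter.1 t1
      have t4 := (mU t).1 t2
      have hy' := (mK1 y).1 hy
      have b1 := miss1 y (hK1U y hy) t t4 hyt
      have b2 := card_union3_le J (K1.filter (fun y => E y t)) (S.filter (fun v => ¬ E t v))
        (U.filter (fun p => ¬ E t p)) (by
          rw [disjoint_left]; intro v h1 h3
          have := (mK1 v).1 (mem_filter.1 h3).1
          exact hKJ v this.1 this.2.2 ((mJ v).1 h1).2) (by
          rw [disjoint_left]; intro v h1 h3
          exact (mem_filter.1 (mem_filter.1 (mem_filter.1 h3).1).1).2 ((mJ v).1 h1).2) (by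
          rw [disjoint_left]; intro v h1 h3
          obtain ⟨v1, z, hz, hzv⟩ := mem_filter.1 (mem_filter.1 h3).1
          have := (mK1 v).1 (mem_filter.1 h1).1
          exact tU0 z (hK1U z hz) v this.1 hzv this.2.1) (by
          intro v hv
          exact mem_filter.2 ⟨(mem_filter.1 hv).1, zc y t v hy'.1 hy'.2.2 t4 hv hyt⟩) (by
          intro v hv
          have := (mK1 v).1 (mem_filter.1 hv).1
          exact mem_filter.2 ⟨(mU v).2 this.1, asy v ((mU v).2 this.1) t t2 (mem_filter.1 hv).2⟩)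
          (by
          intro v hv
          exact mem_filter.2 ⟨(mem_filter.1 (mem_filter.1 (mem_filter.1 hv).1).1).1,
            (mem_filter.1 hv).2⟩)
      omega)
    rw [← dcount] at hq
    have b3 : ∑ _y ∈ K1, (δ + 1) ≤ ∑ y ∈ K1, (S.filter (fun t => E y t)).card := by
      apply sum_le_sum
      intro y hy
      refine le_trans (s3 y (hK1U y hy)) (card_le_card ?_)
      intro t ht
      exact mem_filter.2 ⟨mem_filter.2 ⟨(mem_filter.1 ht).1, y, hy, (mem_filter.1 ht).2⟩,
        (mem_filter.1 ht).2⟩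
    rw [sum_const, smul_eq_mul] at b3
    exact ar1 _ _ _ hq b3
  -- step 6
  set Y0 := R.filter (fun v => ¬ E x v ∧ ∃ j ∈ J, E v j) with hY0
  have mY0 : ∀ v, v ∈ Y0 ↔ (i ≤ w v ∧ ¬ E v c) ∧ ¬ E x v ∧ ∃ j ∈ J, E v j := by
    intro v; simp only [hY0, hR, mem_filter, mU]
  have s6 : Y0.card ≤ δ := by
    obtain ⟨y, hy⟩ : K1.Nonempty := card_pos.1 (by omega)
    have hy' := (mK1 y).1 hy
    obtain ⟨t, ht, hct⟩ : ∃ t ∈ R.filter (fun v => E y v), E c t := by
      by_contra hcon'
      push Not at hcon'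
      have b1 := s3 y (hK1U y hy)
      have : (R.filter (fun v => E y v)).card ≤ N0.card := by
        apply card_le_card
        intro t ht
        obtain ⟨t1, t2⟩ := mem_filter.1 ht
        obtain ⟨t3, t4⟩ := mem_filter.1 t1
        rw [mU] at t3
        exact (mN0 t).2 ⟨t3, tU0 y (hK1U y hy) t t3 t2, hcon' t ht, t4⟩
      omega
    obtain ⟨t1, t2⟩ := mem_filter.1 ht
    obtain ⟨t3, t4⟩ := mem_filter.1 t1
    rw [mU] at t3
    have b1 := miss1 y (hK1U y hy) t t3 t2
    have b2 : (J ∪ Y0).card ≤ (U.filter (fun p => ¬ E t p)).card := by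
      apply card_le_card
      intro v hv
      rcases mem_union.1 hv with hv | hv
      · exact mem_filter.2 ⟨(mem_filter.1 hv).1, zc y t v hy'.1 hy'.2.2 t3 hv t2⟩
      · obtain ⟨v1, -, j, hj, hvj⟩ := (mY0 v).1 hv
        exact mem_filter.2 ⟨(mU v).2 v1.1, fun h => zc t v j t3 hct v1.1 hj h hvj⟩
    rw [card_union_of_disjoint] at b2
    · omega
    · rw [disjoint_left]
      intro v h1 h3
      exact ((mY0 v).1 h3).1.2 ((mJ v).1 h1).2
  obtain ⟨ε, hε⟩ : ∃ ε, δ = Y0.card + ε := ⟨δ - Y0.card, by omega⟩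
  -- step 7
  have hM1U : ∀ v ∈ M1, v ∈ U1 := fun v hv => (mem_filter.1 hv).1
  set A := R.filter (fun t => (∃ y ∈ M1, E y t) ∧ E c t ∧ ¬ ∃ j ∈ J, E t j) with hA
  have mA : ∀ t, t ∈ A ↔ (i ≤ w t ∧ ¬ E t c) ∧ (∃ y ∈ M1, E y t) ∧ E c t ∧ ¬ ∃ j ∈ J, E t j := by
    intro v; simp only [hA, hR, mem_filter, mU]
  have hqa := quad E A (fun u hu v hv => asy u (mem_filter.1 (mem_filter.1 hu).1).1 v
      (mem_filter.1 (mem_filter.1 hv).1).1) (fun t => (M1.filter (fun y => E y t)).card) ε (by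
      intro t ht
      obtain ⟨⟨t1, t2⟩, ⟨y, hy, hyt⟩, t3, t4⟩ := (mA t).1 ht
      have b1 := miss1 y (hM1U y hy) t t1 hyt
      have b0 : Disjoint J Y0 := by
        rw [disjoint_left]
        intro v h1 h3
        exact ((mY0 v).1 h3).1.2 ((mJ v).1 h1).2
      have b2 := card_union3_le (J ∪ Y0) (M1.filter (fun y => E y t))
        (A.filter (fun v => ¬ E t v)) (U.filter (fun p => ¬ E t p)) (by
          rw [disjoint_left]; intro v h1 h3
          have := (mM1 v).1 (mem_filter.1 h3).1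
          rcases mem_union.1 h1 with h1 | h1
          · exact this.2 ((mJ v).1 h1).2
          · exact ((mY0 v).1 h1).2.1 this.1.2) (by
          rw [disjoint_left]; intro v h1 h3
          have := (mA v).1 (mem_filter.1 h3).1
          rcases mem_union.1 h1 with h1 | h1
          · exact this.1.2 ((mJ v).1 h1).2
          · exact this.2.2.2 ((mY0 v).1 h1).2.2) (by
          rw [disjoint_left]; intro v h1 h3
          obtain ⟨v1, ⟨z, hz, hzv⟩, -⟩ := (mA v).1 (mem_filter.1 h3).1
          have := (mM1 v).1 (mem_filter.1 h1).1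
          exact tU0 z (hM1U z hz) v v1.1 hzv this.1.2) (by
          intro v hv
          rcases mem_union.1 hv with hv | hv
          · exact mem_filter.2 ⟨(mem_filter.1 hv).1, fun h => t4 ⟨v, hv, h⟩⟩
          · obtain ⟨v1, -, j, hj, hvj⟩ := (mY0 v).1 hv
            exact mem_filter.2 ⟨(mU v).2 v1.1, fun h => zc t v j t1 t3 v1.1 hj h hvj⟩) (by
          intro v hv
          have := (mM1 v).1 (mem_filter.1 hv).1
          exact mem_filter.2 ⟨(mU v).2 this.1.1,
            asy v ((mU v).2 this.1.1) t ((mU t).2 t1) (mem_filter.1 hv).2⟩) (by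
          intro v hv
          exact mem_filter.2 ⟨(mem_filter.1 (mem_filter.1 (mem_filter.1 hv).1).1).1,
            (mem_filter.1 hv).2⟩)
      rw [card_union_of_disjoint b0] at b2
      omega)
  set B := N0.filter (fun t => ¬ ∃ j ∈ J, E t j) with hB
  have hqb : ∑ t ∈ B, (M1.filter (fun y => E y t)).card ≤ ∑ _t ∈ B, δ := by
    apply sum_le_sum
    intro t ht
    obtain ⟨t1, t2⟩ := mem_filter.1 ht
    rw [mN0] at t1
    rcases (M1.filter (fun y => E y t)).eq_empty_or_nonempty with h | ⟨y, hy⟩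
    · rw [h]; simp
    · have b1 := miss1 y (hM1U y (mem_filter.1 hy).1) t t1.1 (mem_filter.1 hy).2
      have b2 : (J ∪ M1.filter (fun y => E y t)).card ≤ (U.filter (fun p => ¬ E t p)).card := by
        apply card_le_card
        intro v hv
        rcases mem_union.1 hv with hv | hv
        · exact mem_filter.2 ⟨(mem_filter.1 hv).1, fun h => t2 ⟨v, hv, h⟩⟩
        · have := (mM1 v).1 (mem_filter.1 hv).1
          exact mem_filter.2 ⟨(mU v).2 this.1.1,
            asy v ((mU v).2 this.1.1) t ((mU t).2 t1.1) (mem_filter.1 hv).2⟩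
      rw [card_union_of_disjoint] at b2
      · omega
      · rw [disjoint_left]
        intro v h1 h3
        exact ((mM1 v).1 (mem_filter.1 h3).1).2 ((mJ v).1 h1).2
  have hqc : ∑ t ∈ Y0, (M1.filter (fun y => E y t)).card ≤ ∑ _t ∈ Y0, N1.card := by
    apply sum_le_sum
    intro t ht
    obtain ⟨t1, -, j, hj, htj⟩ := (mY0 t).1 ht
    apply card_le_card
    intro v hv
    have := (mM1 v).1 (mem_filter.1 hv).1
    exact (mN1 v).2 ⟨this.1.1, this.1.2,
      fun h => zc v t j this.1.1 h t1.1 hj (mem_filter.1 hv).2 htj, this.2⟩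
  have hlow : ∑ _y ∈ M1, (δ + 1) ≤ ∑ y ∈ M1, ((A.filter (fun t => E y t)).card +
      (B.filter (fun t => E y t)).card + (Y0.filter (fun t => E y t)).card) := by
    apply sum_le_sum
    intro y hy
    refine le_trans (s3 y (hM1U y hy)) (le_trans (card_le_card ?_) ((card_union_le _ _).trans
      (Nat.add_le_add_right (card_union_le _ _) _)))
    intro t ht
    obtain ⟨t1, t2⟩ := mem_filter.1 ht
    obtain ⟨t3, t4⟩ := mem_filter.1 t1
    rw [mU] at t3
    have t5 := tU0 y (hM1U y hy) t t3 t2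
    by_cases b1 : ∃ j ∈ J, E t j
    · exact mem_union_right _ (mem_filter.2 ⟨(mY0 t).2 ⟨⟨t3, t4⟩, t5, b1⟩, t2⟩)
    · apply mem_union_left
      by_cases b2 : E c t
      · exact mem_union_left _ (mem_filter.2 ⟨(mA t).2 ⟨⟨t3, t4⟩, ⟨y, hy, t2⟩, b2, b1⟩, t2⟩)
      · exact mem_union_right _ (mem_filter.2 ⟨mem_filter.2 ⟨(mN0 t).2 ⟨t3, t5, b2, t4⟩, b1⟩, t2⟩)
  rw [sum_const, sum_add_distrib, sum_add_distrib, dcount E M1 A, dcount E M1 B,
    dcount E M1 Y0] at hlow
  simp only [sum_const, smul_eq_mul] at hlow hqb hqc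
  have hBc : B.card ≤ N0.card := card_le_card (filter_subset _ _)
  rw [hε] at hqb hlow
  exact ar2 _ _ N1.card N0.card _ _ _ _ _ hqa hqb hqc hlow hBc (by omega) (by omega) (by omega)

theorem frac_four_aux {E : V → V → Prop} (hD : Deg E) {w : V → ℤ} (h4 : W4 E w) (x : V) (M : ℕ)
    (hxM : w x = M) (htop : ∀ v, w v ≤ M) (a c : V) (hxa : E x a) (hcx : E c x)
    (hc : ∀ v, E v x → w v ≤ w c) (hca : w c ≤ w a) : ∑ v, w v ≤ 0 := by
  have h2 := h4.two
  have base : ∀ i : ℤ, 1 ≤ i → i ≤ M → i ≤ - w c → (Up w i).card ≤ lo w i := by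
    intro i hi _ h
    apply up_le_lo w hi
    have h1 := (hD x).2
    have : (univ.filter (fun y => E y x)).card ≤ lo w i := by
      apply card_le_card
      intro v hv
      have := hc v (mem_filter.1 hv).2
      exact mem_Lo.2 (by omega)
    omega
  by_cases hedge : ∃ p : V × V, E x p.1 ∧ E x p.2 ∧ E p.1 p.2 ∧ 1 ≤ min (w p.1) (w p.2) ∧
      w c ≤ min (w p.1) (w p.2)
  · obtain ⟨p0, hp0⟩ := hedge
    obtain ⟨p, hp, hmax⟩ := exists_max_image (univ.filter (fun p : V × V =>
      E x p.1 ∧ E x p.2 ∧ E p.1 p.2)) (fun p => min (w p.1) (w p.2))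
      ⟨p0, mem_filter.2 ⟨mem_univ _, hp0.1, hp0.2.1, hp0.2.2.1⟩⟩
    have hp0' := hmax p0 (mem_filter.2 ⟨mem_univ _, hp0.1, hp0.2.1, hp0.2.2.1⟩)
    obtain ⟨p1, p2, p3⟩ := (mem_filter.1 hp).2
    set β := min (w p.1) (w p.2) with hβ
    have hβ1 : 1 ≤ β := by omega
    have hβc : w c ≤ β := by omega
    have hβM : β ≤ M := by have := htop p.1; omega
    apply sum_nonpos_of_levels w M β.toNat β htop (by omega) hβM
    intro i hi hiM
    have hx : i ≤ w x := by omega
    have e : ((β.toNat : ℕ) : ℤ) = β := by omega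
    rw [e, ← hxM]
    by_cases hiβ : i ≤ β
    · simp only [hiβ, if_true]
      by_cases hU2 : ∃ v, i ≤ w v ∧ E v x
      · exact four_c hD h4 x i hi hx ⟨p.1, by omega, p1⟩ hU2
      · push Not at hU2
        have h5 := four_d hD h4 x i hi hx ((Up w i).filter (fun v => E x v)) (by intro v; simp)
          ⟨p.1, by simp; exact ⟨by omega, p1⟩, p.2, by simp; exact ⟨by omega, p2⟩, p3⟩
        have h6 := card_split (Up w i) (fun v => E x v)
        have h7 : ((Up w i).filter (fun v => ¬ E x v)).card < lo w i :=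
          lt_of_lt_of_le (card_Z hD h2 x _ (fun v hv =>
            ⟨(mem_filter.1 hv).2, hU2 v (mem_Up.1 (mem_filter.1 hv).1)⟩)) (lo_anti w hx)
        omega
    · have b1 : 2 * β < β + i := by omega
      simp only [hiβ, b1, if_true, if_false]
      refine four_e hD h4 x i hi hx (fun v hv h => by have := hc v h; omega) ?_ p.1 p.2 β hβ1
        (by omega) p1 p2 p3 (by omega) (by omega)
      intro s t s1 s2 t1 t2 h
      have := hmax (s, t) (mem_filter.2 ⟨mem_univ _, s2, t2, h⟩)
      simp only at this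
      omega
  · push Not at hedge
    have hcM := htop c
    apply sum_nonpos_of_levels w M (w c).toNat (w c) htop (by omega) hcM
    intro i hi hiM
    have hx : i ≤ w x := by omega
    rw [← hxM]
    by_cases hic : i ≤ w c
    · have b1 : i ≤ (((w c).toNat : ℕ) : ℤ) := by omega
      simp only [b1, if_true]
      exact four_c hD h4 x i hi hx ⟨a, by omega, hxa⟩ ⟨c, hic, hcx⟩
    · have b1 : ¬ i ≤ (((w c).toNat : ℕ) : ℤ) := by omega
      simp only [b1, if_false]
      by_cases hic2 : i ≤ - w c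
      · have := base i hi hiM hic2
        omega
      · have b2 : 2 * (((w c).toNat : ℕ) : ℤ) < w c + i := by omega
        simp only [b2, if_true]
        refine four_f hD h4 x i hi hx (fun v hv h => by have := hc v h; omega) ?_ c hcx (by omega)
        intro s t s1 s2 t1 t2 h
        have := hedge (s, t) s2 t2 h (by simp only; omega)
        simp only at this
        omega

theorem frac_four {E : V → V → Prop} (hD : Deg E) {w : V → ℤ} (h4 : W4 E w) : ∑ v, w v ≤ 0 := by
  apply top_reduce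
  intro x M hxM _ htop
  obtain ⟨a, ha, hamax⟩ := exists_max_image (univ.filter (fun v => E x v)) w
    (card_pos.1 (by have := (hD x).1; omega))
  obtain ⟨c, hc, hcmax⟩ := exists_max_image (univ.filter (fun v => E v x)) w
    (card_pos.1 (by have := (hD x).2; omega))
  by_cases hca : w c ≤ w a
  · exact frac_four_aux hD h4 x M hxM htop a c (mem_filter.1 ha).2 (mem_filter.1 hc).2
      (fun v hv => hcmax v (mem_filter.2 ⟨mem_univ _, hv⟩)) hca
  · exact frac_four_aux hD.flip h4.flip x M hxM htop c a (mem_filter.1 hc).2 (mem_filter.1 ha).2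
      (fun v hv => hamax v (mem_filter.2 ⟨mem_univ _, hv⟩)) (by omega)

end Pool.Agent.OCyc
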