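import Pool.Agent.Lib.MP_061df2_co.FracTwo

set_option autoImplicit false
set_option linter.unusedSectionVars false

open Finset
open scoped Classical

namespace Pool.Agent.OCyc

variable {V : Type*} [Fintype V]

/-- closed walks of length six have nonpositive weight -/
def W6 (E : V → V → Prop) (w : V → ℤ) : Prop :=
  ∀ a b c d e f, E a b → E b c → E c d → E d e → E e f → E f a →
    w a + w b + w c + w d + w e + w f ≤ 0

lemma W6.flip {E : V → V → Prop} {w : V → ℤ} (h : W6 E w) : W6 (fun a b => E b a) w := by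
  intro a b c d e f h1 h2 h3 h4 h5 h6
  have := h f e d c b a h5 h4 h3 h2 h1 h6
  omega

lemma W6.two {E : V → V → Prop} {w : V → ℤ} (h : W6 E w) : W2 E w := by
  intro a b h1 h2
  have := h a b a b a b h1 h2 h1 h2 h1 h2
  omega

lemma W6.three {E : V → V → Prop} {w : V → ℤ} (h : W6 E w) (a b c : V) (h1 : E a b) (h2 : E b c)
    (h3 : E c a) : w a + w b + w c ≤ 0 := by
  have := h a b c a b c h1 h2 h3 h1 h2 h3
  omega

lemma dcount (E : V → V → Prop) (P Q : Finset V) :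
    ∑ p ∈ P, (Q.filter (fun q => E p q)).card = ∑ q ∈ Q, (P.filter (fun p => E p q)).card := by
  simp only [card_filter]
  exact sum_comm

lemma exists_sink3 (E : V → V → Prop) (S : Finset V) (hne : S.Nonempty)
    (h : ¬ ∃ a ∈ S, ∃ b ∈ S, ∃ c ∈ S, ∃ d ∈ S, E a b ∧ E b c ∧ E c d) :
    ∃ a ∈ S, ∀ v ∈ S, ¬ E a v := by
  obtain ⟨a, ha⟩ := hne
  by_contra hcon
  push Not at hcon
  obtain ⟨b, hb, hab⟩ := hcon a ha
  obtain ⟨c, hc, hbc⟩ := hcon b hb
  obtain ⟨d, hd, hcd⟩ := hcon c hc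
  exact h ⟨a, ha, b, hb, c, hc, d, hd, hab, hbc, hcd⟩

lemma asym_up {E : V → V → Prop} {w : V → ℤ} (h2 : W2 E w) {i : ℤ} (hi : 1 ≤ i) (S : Finset V)
    (hS : ∀ v ∈ S, i ≤ w v) : ∀ u ∈ S, ∀ v ∈ S, E u v → ¬ E v u := by
  intro u hu v hv h1 h3
  have := h2 u v h1 h3
  have := hS u hu
  have := hS v hv
  omega

lemma exists_outH {E : V → V → Prop} (hD : Deg E) {w : V → ℤ} {i : ℤ}
    (h : 2 * lo w i ≤ Fintype.card V) (v : V) : ∃ y, E v y ∧ -i < w y := by
  obtain ⟨y, h1, h2⟩ := exists_out hD (Lo w i) h v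
  exact ⟨y, h1, by simpa using h2⟩

lemma six_one {E : V → V → Prop} (hD : Deg E) {w : V → ℤ} (h6 : W6 E w) (x : V) (i : ℤ)
    (hi : 1 ≤ i) (hx : i ≤ w x) (hn : 2 * lo w i ≤ Fintype.card V)
    (hU2 : ∀ v, i ≤ w v → ¬ E v x) :
    (Up w i).card ≤ lo w i + 2 * lo w (w x + 2 * i) := by
  by_contra hcon
  push Not at hcon
  have h2 := h6.two
  set U := Up w i with hU
  set l := lo w i with hl
  set m := lo w (w x + 2 * i) with hm
  have mU : ∀ v, v ∈ U ↔ i ≤ w v := fun v => mem_Up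
  set U1 := U.filter (fun v => E x v) with hU1
  have mU1 : ∀ v, v ∈ U1 ↔ i ≤ w v ∧ E x v := by intro v; simp [hU1, mU]
  have hsp := card_split U (fun v => E x v)
  rw [← hU1] at hsp
  have h0 : (U.filter (fun v => ¬ E x v)).card < l :=
    lt_of_lt_of_le (card_Z hD h2 x _ (fun v hv =>
      ⟨(mem_filter.1 hv).2, hU2 v ((mU v).1 (mem_filter.1 hv).1)⟩)) (lo_anti w hx)
  have hne : U1.Nonempty := card_pos.1 (by omega)
  have miss : ∀ (y : V) (t : ℤ), (∀ b, E y b → E b x → w b ≤ -t) →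
      (U.filter (fun v => ¬ E y v)).card < lo w t := by
    intro y t h
    exact closeW hD w t y x _ (fun v hv =>
      ⟨(mem_filter.1 hv).2, hU2 v ((mU v).1 (mem_filter.1 hv).1)⟩) h
  have missA : ∀ a ∈ U1, (U.filter (fun v => ¬ E a v)).card < l := by
    intro a ha
    rw [mU1] at ha
    apply miss
    intro b h1 h3
    have := h6.three x a b ha.2 h1 h3
    omega
  by_cases hbig : ∀ d, E x d → E d x → w d ≤ -(w x + 2 * i)
  · have h0' : (U.filter (fun v => ¬ E x v)).card < m :=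
      closeW hD w _ x x _ (fun v hv =>
        ⟨(mem_filter.1 hv).2, hU2 v ((mU v).1 (mem_filter.1 hv).1)⟩) hbig
    have hml : m ≤ l := lo_anti w (by omega)
    by_cases h3 : ∃ a ∈ U1, ∃ b ∈ U1, ∃ c ∈ U1, ∃ d ∈ U1, E a b ∧ E b c ∧ E c d
    · set F := U1.filter (fun d => ∃ a ∈ U1, ∃ b ∈ U1, ∃ c ∈ U1, E a b ∧ E b c ∧ E c d) with hF
      have hFne : F.Nonempty := by
        obtain ⟨a, ha, b, hb, c, hc, d, hd, h1, h3, h4⟩ := h3
        exact ⟨d, mem_filter.2 ⟨hd, a, ha, b, hb, c, hc, h1, h3, h4⟩⟩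
      obtain ⟨d, hd, hh⟩ := half_closed E U1 F hFne (filter_subset _ _)
        (asym_up h2 hi U1 (fun v hv => ((mU1 v).1 hv).1)) (by
          intro u hu v hv huv
          obtain ⟨hu1, a, ha, b, hb, c, hc, h1, h3, h4⟩ := mem_filter.1 hu
          exact mem_filter.2 ⟨hv, b, hb, c, hc, u, hu1, h3, h4, huv⟩)
      obtain ⟨hd1, a, ha, b, hb, c, hc, h1, h3, h4⟩ := mem_filter.1 hd
      have hF1 : F.card ≤ U1.card := card_le_card (filter_subset _ _)
      have h5 : (U.filter (fun v => ¬ E d v)).card < m := by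
        apply miss
        intro y h7 h8
        rw [mU1] at ha hb hc hd1
        have := h6 x a b c d y ha.2 h1 h3 h4 h7 h8
        omega
      have h7 : (U1.filter (fun v => ¬ E d v)).card ≤ (U.filter (fun v => ¬ E d v)).card :=
        card_le_card (filter_subset_filter _ (filter_subset _ _))
      omega
    · obtain ⟨a, ha, hs⟩ := exists_sink3 E U1 hne h3
      have h5 := missA a ha
      have h7 : U1.card ≤ (U.filter (fun v => ¬ E a v)).card := by
        apply card_le_card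
        intro v hv
        exact mem_filter.2 ⟨(mem_filter.1 hv).1, hs v hv⟩
      omega
  push Not at hbig
  obtain ⟨d, hd1, hd2, hd3⟩ := hbig
  set N2 := U.filter (fun t => ∃ a ∈ U1, E a t) with hN2
  set N3 := U.filter (fun v => ∃ t ∈ N2, E t v) with hN3
  have out2 : ∀ t ∈ N2, 2 * m < (U.filter (fun v => E t v)).card := by
    intro t ht
    obtain ⟨ht1, a, ha, hat⟩ := mem_filter.1 ht
    rw [mU1] at ha
    rw [mU] at ht1
    have h5 : (U.filter (fun v => ¬ E t v)).card < l := by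
      apply miss
      intro b h7 h8
      have := h6 x a t b x d ha.2 hat h7 h8 hd1 hd2
      omega
    have := card_split U (fun v => E t v)
    omega
  have miss4 : ∀ v ∈ N3, ∀ y, E v y → -i < w y → (U.filter (fun p => ¬ E y p)).card < m := by
    intro v hv y hvy hy
    obtain ⟨hv1, t, ht, htv⟩ := mem_filter.1 hv
    obtain ⟨ht1, a, ha, hat⟩ := mem_filter.1 ht
    rw [mU1] at ha
    rw [mU] at ht1 hv1
    apply miss
    intro b h7 h8
    have := h6 x a t v y b ha.2 hat htv hvy h7 h8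
    omega
  have in3 : ∀ v ∈ N3, (U.filter (fun p => E p v)).card < m := by
    intro v hv
    obtain ⟨y, hvy, hy⟩ := exists_outH hD hn v
    refine lt_of_le_of_lt (card_le_card ?_) (miss4 v hv y hvy hy)
    intro p hp
    obtain ⟨hp1, hp2⟩ := mem_filter.1 hp
    refine mem_filter.2 ⟨hp1, fun hyp => ?_⟩
    have := h6.three p v y hp2 hvy hyp
    have h7 := (mU v).1 (mem_filter.1 hv).1
    rw [mU] at hp1
    omega
  have hn2 : 2 * m < N2.card := by
    obtain ⟨a, ha⟩ := hne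
    have h5 := missA a ha
    have h7 := card_split U (fun v => E a v)
    have h8 : (U.filter (fun v => E a v)).card ≤ N2.card := by
      apply card_le_card
      intro v hv
      exact mem_filter.2 ⟨(mem_filter.1 hv).1, a, ha, (mem_filter.1 hv).2⟩
    omega
  obtain ⟨t0, ht0⟩ : N2.Nonempty := card_pos.1 (by omega)
  obtain ⟨v, hv⟩ : (U.filter (fun v => E t0 v)).Nonempty :=
    card_pos.1 (by have := out2 t0 ht0; omega)
  have hv3 : v ∈ N3 := mem_filter.2 ⟨(mem_filter.1 hv).1, t0, ht0, (mem_filter.1 hv).2⟩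
  have hvU := (mU v).1 (mem_filter.1 hv).1
  have hY : m ≤ (U.filter (fun y => E v y)).card := by
    have h5 := card_three E v U
    have h7 : (U.filter (fun p => ¬ E v p ∧ ¬ E p v)).card < l :=
      lt_of_lt_of_le (card_Z hD h2 v _ (fun p hp => (mem_filter.1 hp).2)) (lo_anti w hvU)
    have := in3 v hv3
    omega
  obtain ⟨Y, hYs, hYc⟩ := exists_subset_card_eq hY
  have hA : ∑ t ∈ N2 \ Y, (2 * m + 1) ≤ ∑ t ∈ N2 \ Y, (N3.filter (fun q => E t q)).card := by
    apply sum_le_sum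
    intro t ht
    have ht' := (mem_sdiff.1 ht).1
    refine le_trans (out2 t ht') (card_le_card ?_)
    intro q hq
    exact mem_filter.2 ⟨mem_filter.2 ⟨(mem_filter.1 hq).1, t, ht', (mem_filter.1 hq).2⟩,
      (mem_filter.1 hq).2⟩
  have hB : ∑ _y ∈ Y, N3.card ≤ ∑ y ∈ Y, ((N3.filter (fun q => E y q)).card + m) := by
    apply sum_le_sum
    intro y hy
    obtain ⟨hy1, hy2⟩ := mem_filter.1 (hYs hy)
    rw [mU] at hy1
    have h5 := miss4 v hv3 y hy2 (by omega)
    have h7 := card_split N3 (fun q => E y q)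
    have h8 : (N3.filter (fun q => ¬ E y q)).card ≤ (U.filter (fun p => ¬ E y p)).card :=
      card_le_card (filter_subset_filter _ (filter_subset _ _))
    omega
  have hC : ∑ p ∈ N2 \ Y ∪ Y, (N3.filter (fun q => E p q)).card ≤ ∑ _q ∈ N3, m := by
    rw [dcount]
    apply sum_le_sum
    intro q hq
    refine le_trans (card_le_card ?_) (in3 q hq).le
    apply filter_subset_filter
    intro p hp
    rcases mem_union.1 hp with hp | hp
    · exact (mem_filter.1 (mem_sdiff.1 hp).1).1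
    · exact (mem_filter.1 (hYs hp)).1
  rw [sum_union sdiff_disjoint] at hC
  rw [sum_add_distrib] at hB
  simp only [sum_const, smul_eq_mul, hYc] at hA hB hC
  have h9 : m + 1 ≤ (N2 \ Y).card := by
    have := le_card_sdiff Y N2
    omega
  nlinarith

lemma disj_12 {E : V → V → Prop} {w : V → ℤ} (h2 : W2 E w) (x : V) {i : ℤ} (hi : 1 ≤ i)
    (hx : i ≤ w x) (v : V) (hv : i ≤ w v) (h1 : E x v) : ¬ E v x := by
  intro h3
  have := h2 x v h1 h3
  omega

lemma six_walk {E : V → V → Prop} (hD : Deg E) {w : V → ℤ} (h6 : W6 E w) (x : V) (i : ℤ)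
    (hi : 1 ≤ i) (hx : i ≤ w x) (U1 U2 : Finset V) (mU1 : ∀ v, v ∈ U1 ↔ i ≤ w v ∧ E x v)
    (mU2 : ∀ v, v ∈ U2 ↔ i ≤ w v ∧ E v x) (hne : U2.Nonempty)
    (h3 : ∃ a ∈ U1, ∃ b ∈ U1, ∃ c ∈ U1, E a b ∧ E b c) :
    U1.card + U2.card ≤ 2 * lo w (w x + 2 * i) := by
  have h2 := h6.two
  have no12 : ∀ a ∈ U1, ∀ c ∈ U2, ¬ E a c := by
    intro a ha c hc hac
    rw [mU1] at ha
    rw [mU2] at hc
    have := h6.three x a c ha.2 hac hc.2
    omega
  set F := U1.filter (fun d => ∃ a ∈ U1, ∃ b ∈ U1, E a b ∧ E b d) with hF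
  have hFne : F.Nonempty := by
    obtain ⟨a, ha, b, hb, c, hc, h1, h3⟩ := h3
    exact ⟨c, mem_filter.2 ⟨hc, a, ha, b, hb, h1, h3⟩⟩
  obtain ⟨d, hd, hh⟩ := half_closed E U1 F hFne (filter_subset _ _)
    (asym_up h2 hi U1 (fun v hv => ((mU1 v).1 hv).1)) (by
      intro u hu v hv huv
      obtain ⟨hu1, a, ha, b, hb, h1, h3⟩ := mem_filter.1 hu
      exact mem_filter.2 ⟨hv, b, hb, u, hu1, h3, huv⟩)
  obtain ⟨hd1, a, ha, b, hb, h1, h4⟩ := mem_filter.1 hd
  have hF1 : F.card ≤ U1.card := card_le_card (filter_subset _ _)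
  obtain ⟨c, hc, hh'⟩ := half (fun a b => E b a) U2 hne
    (asym_up h2.flip hi U2 (fun v hv => ((mU2 v).1 hv).1))
  have h5 := closeW hD w (w x + 2 * i) d c
    (U1.filter (fun v => ¬ E d v) ∪ U2.filter (fun v => ¬ E v c)) (by
      intro v hv
      rcases mem_union.1 hv with hv | hv
      · exact ⟨(mem_filter.1 hv).2, no12 v (mem_filter.1 hv).1 c hc⟩
      · exact ⟨no12 d hd1 v (mem_filter.1 hv).1, (mem_filter.1 hv).2⟩) (by
      intro y h7 h8
      rw [mU1] at ha hb hd1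
      rw [mU2] at hc
      have := h6 c x a b d y hc.2 ha.2 h1 h4 h7 h8
      omega)
  rw [card_union_of_disjoint] at h5
  · omega
  · rw [disjoint_left]
    intro v hv hv'
    have a1 := (mU1 v).1 (mem_filter.1 hv).1
    have a2 := (mU2 v).1 (mem_filter.1 hv').1
    exact disj_12 h2 x hi hx v a1.1 a1.2 a2.2

lemma six_small {E : V → V → Prop} (hD : Deg E) {w : V → ℤ} (h6 : W6 E w) (x : V) (i : ℤ)
    (hi : 1 ≤ i) (hx : i ≤ w x) (hn : 2 * lo w i ≤ Fintype.card V)
    (U1 U2 T : Finset V) (mU1 : ∀ v, v ∈ U1 ↔ i ≤ w v ∧ E x v)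
    (mU2 : ∀ v, v ∈ U2 ↔ i ≤ w v ∧ E v x) (a c : V) (ha : a ∈ U1) (hc : c ∈ U2)
    (hdis : Disjoint U1 U2)
    (hsc : ∀ v ∈ U2, ¬ E v c) (hno : ∀ a ∈ U1, ∀ b ∈ U1, ∀ c ∈ U1, E a b → ¬ E b c)
    (hnx : ∀ a ∈ U1, ¬ E a x)
    (hT : ∀ v ∈ T, i ≤ w v ∧ ¬ E x v ∧ E a v) (hTc : lo w (w x + 2 * i) < T.card)
    (h12 : 2 * lo w (w x + 2 * i) < U1.card + U2.card) : False := by
  have h2 := h6.two
  set m := lo w (w x + 2 * i) with hm
  have no12 : ∀ a ∈ U1, ∀ c ∈ U2, ¬ E a c := by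
    intro a ha c hc hac
    rw [mU1] at ha
    rw [mU2] at hc
    have := h6.three x a c ha.2 hac hc.2
    omega
  obtain ⟨t, ht⟩ : T.Nonempty := card_pos.1 (by omega)
  obtain ⟨ht1, ht2, ht3⟩ := hT t ht
  obtain ⟨y, hty, hy⟩ := exists_outH hD hn t
  have ha' := (mU1 a).1 ha
  have hc' := (mU2 c).1 hc
  have h5 := closeW hD w (w x + 2 * i) y c ((U1 ∪ U2).filter (fun v => ¬ E y v)) (by
      intro v hv
      obtain ⟨hv1, hv2⟩ := mem_filter.1 hv
      rcases mem_union.1 hv1 with hv1 | hv1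
      · exact ⟨hv2, no12 v hv1 c hc⟩
      · exact ⟨hv2, hsc v hv1⟩) (by
      intro b h7 h8
      have := h6 c x a t y b hc'.2 ha'.2 ht3 hty h7 h8
      omega)
  have hy2 : ∀ c' ∈ U2, ¬ E y c' := by
    intro c' hc1 hyc
    rw [mU2] at hc1
    have := closeW hD w (w x + 2 * i) x a T (by
      intro v hv
      obtain ⟨b1, b2, b3⟩ := hT v hv
      refine ⟨b2, fun b4 => ?_⟩
      have := h2 a v b3 b4
      omega) (by
      intro b h7 h8
      have := h6 a t y c' x b ht3 hty hyc hc1.2 h7 h8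
      omega)
    omega
  set U1' := U1.filter (fun v => E y v) with hU1'
  have h7 : m < U1'.card := by
    have b1 := card_split (U1 ∪ U2) (fun v => E y v)
    rw [card_union_of_disjoint hdis] at b1
    have b2 : ((U1 ∪ U2).filter (fun v => E y v)).card ≤ U1'.card := by
      apply card_le_card
      intro v hv
      obtain ⟨hv1, hv2⟩ := mem_filter.1 hv
      rcases mem_union.1 hv1 with hv1 | hv1
      · exact mem_filter.2 ⟨hv1, hv2⟩
      · exact absurd hv2 (hy2 v hv1)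
    omega
  have h8 : ∀ p ∈ U1', ∃ q ∈ U1', E p q := by
    intro p hp
    by_contra hcon
    push Not at hcon
    obtain ⟨hp1, hp2⟩ := mem_filter.1 hp
    rw [mU1] at hp1
    have := closeW hD w (w x + 2 * i) p x U1'
      (fun v hv => ⟨hcon v hv, hnx v (mem_filter.1 hv).1⟩) (by
      intro b b1 b2
      have := h6 x a t y p b ha'.2 ht3 hty hp2 b1 b2
      omega)
    omega
  obtain ⟨p, hp⟩ : U1'.Nonempty := card_pos.1 (by omega)
  obtain ⟨q, hq, hpq⟩ := h8 p hp
  obtain ⟨r, hr, hqr⟩ := h8 q hq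
  exact hno p (mem_filter.1 hp).1 q (mem_filter.1 hq).1 r (mem_filter.1 hr).1 hpq hqr

theorem frac_six {E : V → V → Prop} (hD : Deg E) {w : V → ℤ} (h6 : W6 E w) : ∑ v, w v ≤ 0 := by
  apply top_reduce
  intro x M hxM hM htop
  apply sum_nonpos_of_levels' w M htop
  intro i hi hiM
  have hx : i ≤ w x := by omega
  have h2 := h6.two
  rw [← hxM]
  by_cases hn : Fintype.card V ≤ 2 * lo w i
  · have := up_le_lo w hi hn
    omega
  have hn' : 2 * lo w i ≤ Fintype.card V := by omega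
  by_cases hU2 : ∀ v, i ≤ w v → ¬ E v x
  · exact six_one hD h6 x i hi hx hn' hU2
  by_cases hU1 : ∀ v, i ≤ w v → ¬ E x v
  · exact six_one hD.flip h6.flip x i hi hx hn' hU1
  push Not at hU1 hU2
  set U := Up w i with hU
  set l := lo w i with hl
  set m := lo w (w x + 2 * i) with hm
  have mU : ∀ v, v ∈ U ↔ i ≤ w v := fun v => mem_Up
  have h3 := card_three E x U
  set U0 := U.filter (fun v => ¬ E x v ∧ ¬ E v x) with hU0
  set U1 := U.filter (fun v => E x v) with hU1'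
  set U2 := U.filter (fun v => E v x) with hU2'
  have mU0 : ∀ v, v ∈ U0 ↔ i ≤ w v ∧ ¬ E x v ∧ ¬ E v x := by intro v; simp [hU0, mU]
  have mU1 : ∀ v, v ∈ U1 ↔ i ≤ w v ∧ E x v := by intro v; simp [hU1', mU]
  have mU2 : ∀ v, v ∈ U2 ↔ i ≤ w v ∧ E v x := by intro v; simp [hU2', mU]
  have hne1 : U1.Nonempty := by obtain ⟨v, h1, h4⟩ := hU1; exact ⟨v, (mU1 v).2 ⟨h1, h4⟩⟩
  have hne2 : U2.Nonempty := by obtain ⟨v, h1, h4⟩ := hU2; exact ⟨v, (mU2 v).2 ⟨h1, h4⟩⟩
  have h0 : U0.card < l :=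
    lt_of_lt_of_le (card_Z hD h2 x _ (fun v hv => ((mU0 v).1 hv).2)) (lo_anti w hx)
  by_cases hw1 : ∃ a ∈ U1, ∃ b ∈ U1, ∃ c ∈ U1, E a b ∧ E b c
  · have := six_walk hD h6 x i hi hx U1 U2 mU1 mU2 hne2 hw1
    omega
  by_cases hw2 : ∃ a ∈ U2, ∃ b ∈ U2, ∃ c ∈ U2, E b a ∧ E c b
  · have := six_walk hD.flip h6.flip x i hi hx U2 U1 mU2 mU1 hne1 hw2
    omega
  have hno1 : ∀ a ∈ U1, ∀ b ∈ U1, ∀ c ∈ U1, E a b → ¬ E b c :=
    fun a ha b hb c hc h1 h4 => hw1 ⟨a, ha, b, hb, c, hc, h1, h4⟩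
  have hno2 : ∀ a ∈ U2, ∀ b ∈ U2, ∀ c ∈ U2, E b a → ¬ E c b :=
    fun a ha b hb c hc h1 h4 => hw2 ⟨a, ha, b, hb, c, hc, h1, h4⟩
  obtain ⟨a, ha, hsa⟩ := exists_sink E U1 hne1 hno1
  obtain ⟨c, hc, hsc⟩ := exists_sink (fun a b => E b a) U2 hne2 hno2
  have ha' := (mU1 a).1 ha
  have hc' := (mU2 c).1 hc
  have no12 : ∀ a ∈ U1, ∀ c ∈ U2, ¬ E a c := by
    intro a ha c hc hac
    rw [mU1] at ha
    rw [mU2] at hc
    have := h6.three x a c ha.2 hac hc.2
    omega
  have hnx1 : ∀ a ∈ U1, ¬ E a x := fun v hv =>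
    disj_12 h2 x hi hx v ((mU1 v).1 hv).1 ((mU1 v).1 hv).2
  have hnx2 : ∀ a ∈ U2, ¬ E x a := fun v hv =>
    disj_12 h2.flip x hi hx v ((mU2 v).1 hv).1 ((mU2 v).1 hv).2
  have hdis : Disjoint U1 U2 := by
    rw [disjoint_left]
    intro v hv hv'
    exact hnx1 v hv ((mU2 v).1 hv').2
  by_cases hbig : ∀ d, E x d → E d x → w d ≤ -(w x + 2 * i)
  · set Z := univ.filter (fun v => ¬ E x v ∧ ¬ E v x) with hZ
    have hZm : Z.card < m := closeW hD w _ x x _ (fun v hv => (mem_filter.1 hv).2) hbig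
    have h4 : U0.card ≤ Z.card := card_le_card (filter_subset_filter _ (subset_univ _))
    have h5 := close hD a c (U1 ∪ U2) (Z ∪ Lo w i) (by
      intro v hv
      rcases mem_union.1 hv with hv | hv
      · exact ⟨hsa v hv, no12 v hv c hc⟩
      · exact ⟨no12 a ha v hv, hsc v hv⟩) (by
      intro b b1 b2
      by_cases b3 : E b x
      · have := h6.three x a b ha'.2 b1 b3
        exact mem_union_right _ (mem_Lo.2 (by omega))
      · by_cases b4 : E x b
        · have := h6.three c x b hc'.2 b4 b2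
          exact mem_union_right _ (mem_Lo.2 (by omega))
        · exact mem_union_left _ (mem_filter.2 ⟨mem_univ _, b4, b3⟩))
    rw [card_union_of_disjoint hdis] at h5
    have h7 := card_union_le Z (Lo w i)
    have h8 : (Lo w i).card = l := rfl
    omega
  push Not at hbig
  obtain ⟨d, hd1, hd2, hd3⟩ := hbig
  by_contra hcon
  push Not at hcon
  set T := U0.filter (fun v => E a v) with hT
  set T' := U0.filter (fun v => E v c) with hT'
  have h5 := closeW hD w i a c (U \ (T ∪ T')) (by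
      intro v hv
      obtain ⟨hv1, hv2⟩ := mem_sdiff.1 hv
      rw [mU] at hv1
      by_cases b1 : E x v
      · have := (mU1 v).2 ⟨hv1, b1⟩
        exact ⟨hsa v this, no12 v this c hc⟩
      · by_cases b2 : E v x
        · have := (mU2 v).2 ⟨hv1, b2⟩
          exact ⟨no12 a ha v this, hsc v this⟩
        · have := (mU0 v).2 ⟨hv1, b1, b2⟩
          exact ⟨fun h => hv2 (mem_union_left _ (mem_filter.2 ⟨this, h⟩)),
            fun h => hv2 (mem_union_right _ (mem_filter.2 ⟨this, h⟩))⟩) (by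
      intro b b1 b2
      have := h6 x a b c x d ha'.2 b1 b2 hc'.2 hd1 hd2
      omega)
  have h7 := le_card_sdiff (T ∪ T') U
  have h8 := card_union_le T T'
  by_cases hTm : m < T.card
  · exact six_small hD h6 x i hi hx hn' U1 U2 T mU1 mU2 a c ha hc hdis hsc hno1 hnx1
      (fun v hv => ⟨((mU0 v).1 (mem_filter.1 hv).1).1, ((mU0 v).1 (mem_filter.1 hv).1).2.1,
        (mem_filter.1 hv).2⟩) hTm (by omega)
  · exact six_small hD.flip h6.flip x i hi hx hn' U2 U1 T' mU2 mU1 c a hc ha hdis.symm hsa hno2 hnx2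
      (fun v hv => ⟨((mU0 v).1 (mem_filter.1 hv).1).1, ((mU0 v).1 (mem_filter.1 hv).1).2.2,
        (mem_filter.1 hv).2⟩) (by omega) (by omega)

end Pool.Agent.OCyc
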