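import Pool.Agent.Lib.MP_061df2_co.FracBase

set_option autoImplicit false
set_option linter.unusedSectionVars false

open Finset
open scoped Classical

namespace Pool.Agent.OCyc

variable {V : Type*} [Fintype V]

/-- double edges have nonpositive weight -/
def W2 (E : V → V → Prop) (w : V → ℤ) : Prop := ∀ a b, E a b → E b a → w a + w b ≤ 0

/-- an infinite forward walk along edges of nonnegative weight starts at `v` -/
def Good (E : V → V → Prop) (w : V → ℤ) (v : V) : Prop :=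
  ∃ S : Set V, v ∈ S ∧ ∀ u ∈ S, ∃ y ∈ S, E u y ∧ 0 ≤ w u + w y

/-- the four-vertex core inequality -/
def KP (E : V → V → Prop) (w : V → ℤ) : Prop :=
  ∀ x a b c, E x a → E a b → E b c → E x c → Good E w x → Good E w a → Good E w c →
    0 ≤ w x → 0 ≤ w c → w x + w a + w b + w c ≤ 0

lemma W2.flip {E : V → V → Prop} {w : V → ℤ} (h : W2 E w) : W2 (fun a b => E b a) w :=
  fun a b h1 h2 => h a b h2 h1

lemma exists_sink (E : V → V → Prop) (S : Finset V) (hne : S.Nonempty)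
    (h : ∀ a ∈ S, ∀ b ∈ S, ∀ c ∈ S, E a b → ¬ E b c) : ∃ a ∈ S, ∀ v ∈ S, ¬ E a v := by
  obtain ⟨a, ha⟩ := hne
  by_contra hcon
  push Not at hcon
  obtain ⟨b, hb, hab⟩ := hcon a ha
  obtain ⟨c, hc, hbc⟩ := hcon b hb
  exact h a ha b hb c hc hab hbc

lemma card_Z {E : V → V → Prop} (hD : Deg E) {w : V → ℤ} (h2 : W2 E w) (x : V) (S : Finset V)
    (hS : ∀ v ∈ S, ¬ E x v ∧ ¬ E v x) : S.card < lo w (w x) :=
  closeW hD w _ x x S hS (fun b h1 h3 => by have := h2 x b h1 h3; omega)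

lemma card_three (E : V → V → Prop) (x : V) (U : Finset V) :
    U.card ≤ (U.filter (fun v => ¬ E x v ∧ ¬ E v x)).card + (U.filter (fun v => E x v)).card
      + (U.filter (fun v => E v x)).card := by
  refine le_trans (card_le_card ?_) ((card_union_le _ _).trans
    (Nat.add_le_add_right (card_union_le _ _) _))
  intro v hv
  simp only [mem_union, mem_filter]
  tauto

lemma two_side {E : V → V → Prop} (hD : Deg E) {w : V → ℤ} (hK : KP E w) (x : V) (i : ℤ)
    (hi : 1 ≤ i) (hx : i ≤ w x) :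
    (∃ v ∈ Up w i, (∀ u ∈ Up w i, ¬ E v u) ∧ ∀ u ∈ Up w i, ∀ b, E v b → E b u → w b ≤ -i) ∨
      ((Up w i).filter (fun v => E x v)).card ≤ lo w (w x + 2 * i) := by
  by_cases hP : ∃ v ∈ Up w i, (∀ u ∈ Up w i, ¬ E v u) ∧
      ∀ u ∈ Up w i, ∀ b, E v b → E b u → w b ≤ -i
  · exact Or.inl hP
  right
  push Not at hP
  have hG : ∀ v, i ≤ w v → Good E w v := by
    intro v hv
    refine ⟨{v | i ≤ w v ∨ (-i < w v ∧ ∃ u, i ≤ w u ∧ E v u)}, Or.inl hv, ?_⟩
    intro u hu
    rcases hu with hu | ⟨hu, y, hy, huy⟩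
    · by_cases hs : ∀ y ∈ Up w i, ¬ E u y
      · obtain ⟨y, hy, b, h1, h2, h3⟩ := hP u (mem_Up.2 hu) hs
        exact ⟨b, Or.inr ⟨h3, y, mem_Up.1 hy, h2⟩, h1, by omega⟩
      · push Not at hs
        obtain ⟨y, hy, h1⟩ := hs
        have := mem_Up.1 hy
        exact ⟨y, Or.inl this, h1, by omega⟩
    · exact ⟨y, Or.inl hy, huy, by omega⟩
  set U1 := (Up w i).filter (fun v => E x v) with hU1
  have hm : ∀ v, v ∈ U1 ↔ i ≤ w v ∧ E x v := by intro v; simp [hU1]
  rcases U1.eq_empty_or_nonempty with h0 | hne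
  · rw [h0]; simp
  have hno : ∀ a ∈ U1, ∀ b ∈ U1, ∀ c ∈ U1, E a b → ¬ E b c := by
    intro a ha b hb c hc hab hbc
    rw [hm] at ha hb hc
    have := hK x a b c ha.2 hab hbc hc.2 (hG x hx) (hG a ha.1) (hG c hc.1) (by omega) (by omega)
    omega
  obtain ⟨a, ha, hsa⟩ := exists_sink E U1 hne hno
  obtain ⟨c, hc, hsc⟩ := exists_sink (fun a b => E b a) U1 hne
    (fun a ha b hb c hc h1 h2 => hno c hc b hb a ha h2 h1)
  apply le_of_lt
  apply closeW hD w _ a c U1 (fun v hv => ⟨hsa v hv, hsc v hv⟩)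
  intro b h1 h2
  rw [hm] at ha hc
  have := hK x a b c ha.2 h1 h2 hc.2 (hG x hx) (hG a ha.1) (hG c hc.1) (by omega) (by omega)
  omega

theorem frac_two {E : V → V → Prop} (hD : Deg E) {w : V → ℤ} (h2 : W2 E w) (hK : KP E w)
    (hK' : KP (fun a b => E b a) w) : ∑ v, w v ≤ 0 := by
  apply top_reduce
  intro x M hxM hM htop
  apply sum_nonpos_of_levels' w M htop
  intro i hi hiM
  have hx : i ≤ w x := by omega
  have hxU : x ∈ Up w i := mem_Up.2 hx
  have h0 : ((Up w i).filter (fun v => ¬ E x v ∧ ¬ E v x)).card < lo w i :=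
    lt_of_lt_of_le (card_Z hD h2 x _ (fun v hv => (mem_filter.1 hv).2)) (lo_anti w hx)
  have h3 := card_three E x (Up w i)
  rw [← hxM]
  rcases two_side hD hK x i hi hx with ⟨v, hv, hs, hb⟩ | hQ
  · rcases two_side hD.flip hK' x i hi hx with ⟨v', hv', hs', hb'⟩ | hQ'
    · have := closeW hD w i v v' (Up w i) (fun u hu => ⟨hs u hu, hs' u hu⟩) (hb v' hv')
      omega
    · have h4 := closeW hD w i v x ((Up w i).filter (fun u => ¬ E u x))
        (fun u hu => ⟨hs u (mem_filter.1 hu).1, (mem_filter.1 hu).2⟩) (hb x hxU)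
      have h5 := card_split (Up w i) (fun u => E u x)
      omega
  · rcases two_side hD.flip hK' x i hi hx with ⟨v', hv', hs', hb'⟩ | hQ'
    · have h4 := closeW hD w i x v' ((Up w i).filter (fun u => ¬ E x u))
        (fun u hu => ⟨(mem_filter.1 hu).2, hs' u (mem_filter.1 hu).1⟩)
        (fun b h1 h2 => hb' x hxU b h2 h1)
      have h5 := card_split (Up w i) (fun u => E x u)
      omega
    · omega

end Pool.Agent.OCyc
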