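import Pool.Agent.Lib.MP_061df2_co.FracFourB

set_option autoImplicit false
set_option linter.unusedSectionVars false

open Finset
open scoped Classical

namespace Pool.Agent.OCyc

variable {V : Type*}

/-- one step of a walk, forwards or backwards -/
def step (E : V → V → Prop) (b : Bool) (u y : V) : Prop := (b = true → E u y) ∧ (b = false → E y u)

/-- walks following a pattern, with the weight of all vertices but the first -/
inductive Wk (E : V → V → Prop) (w : V → ℤ) : List Bool → V → V → ℤ → Prop
  | nil (u : V) : Wk E w [] u u 0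
  | cons {b : Bool} {p : List Bool} {u y v : V} {s : ℤ} :
      step E b u y → Wk E w p y v s → Wk E w (b :: p) u v (w y + s)

/-- all closed walks with pattern `p` have nonpositive weight -/
def Cl (E : V → V → Prop) (w : V → ℤ) (p : List Bool) : Prop := ∀ u s, Wk E w p u u s → s ≤ 0

/-- forward steps minus backward steps -/
def net : List Bool → ℤ
  | [] => 0
  | b :: p => (if b then 1 else -1) + net p

variable {E : V → V → Prop} {w : V → ℤ}

lemma step_true {u y : V} (h : E u y) : step E true u y := ⟨fun _ => h, fun h' => by simp at h'⟩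
lemma step_false {u y : V} (h : E y u) : step E false u y := ⟨fun h' => by simp at h', fun _ => h⟩

lemma Wk.cast {p : List Bool} {u v : V} {s s' : ℤ} (h : Wk E w p u v s) (e : s = s') :
    Wk E w p u v s' := e ▸ h

lemma Wk.append {p q : List Bool} {u v z : V} {s t : ℤ} (h1 : Wk E w p u v s)
    (h2 : Wk E w q v z t) : Wk E w (p ++ q) u z (s + t) := by
  induction h1 with
  | nil u => simpa using h2
  | cons hs _ ih => exact (Wk.cons hs (ih h2)).cast (by ring)

lemma Wk.split {p q : List Bool} {u z : V} {r : ℤ} (h : Wk E w (p ++ q) u z r) :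
    ∃ v s t, Wk E w p u v s ∧ Wk E w q v z t ∧ r = s + t := by
  induction p generalizing u r with
  | nil => exact ⟨u, 0, r, Wk.nil u, h, by simp⟩
  | cons b p ih =>
    cases h with
    | cons hs hw =>
      obtain ⟨v, s, t, h1, h2, rfl⟩ := ih hw
      exact ⟨v, _, t, Wk.cons hs h1, h2, by ring⟩

lemma Wk.mono {E' : V → V → Prop} (hE : ∀ a b, E a b → E' a b) {p : List Bool} {u v : V} {s : ℤ}
    (h : Wk E w p u v s) : Wk E' w p u v s := by
  induction h with
  | nil u => exact Wk.nil u
  | cons hs _ ih => exact Wk.cons ⟨fun h => hE _ _ (hs.1 h), fun h => hE _ _ (hs.2 h)⟩ ih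

lemma Cl.swap {p q : List Bool} (h : Cl E w (p ++ q)) : Cl E w (q ++ p) := by
  intro u s hw
  obtain ⟨v, s1, s2, h1, h2, rfl⟩ := hw.split
  have := h v _ (h2.append h1)
  omega

lemma Cl.rot {p q : List Bool} (h : Cl E w p) (hr : p ~r q) : Cl E w q := by
  obtain ⟨n, hn, rfl⟩ := List.isRotated_iff_mod.1 hr
  rw [List.rotate_eq_drop_append_take hn]
  apply Cl.swap
  rwa [List.take_append_drop]

lemma Wk.flip {p : List Bool} {u v : V} {s : ℤ} (h : Wk (fun a b => E b a) w (p.map not) u v s) :
    Wk E w p u v s := by
  induction p generalizing u s with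
  | nil => cases h; exact Wk.nil _
  | cons b p ih =>
    rw [List.map_cons] at h
    cases h with
    | cons hs hw =>
      refine Wk.cons ⟨fun hb => hs.2 (by simp [hb]), fun hb => hs.1 (by simp [hb])⟩ (ih hw)

lemma Cl.flip {p : List Bool} (h : Cl E w p) : Cl (fun a b => E b a) w (p.map not) :=
  fun u s hw => h u s hw.flip

lemma Wk.rev {p : List Bool} {u v : V} {s : ℤ} (h : Wk (fun a b => E b a) w p u v s) :
    Wk E w p.reverse v u (s - w v + w u) := by
  induction h with
  | nil u => exact (Wk.nil u).cast (by ring)
  | @cons b p u y v s hs _ ih =>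
    rw [List.reverse_cons]
    have : Wk E w [b] y u (w u + 0) := Wk.cons ⟨hs.1, hs.2⟩ (Wk.nil u)
    exact (ih.append this).cast (by ring)

lemma Cl.rev {p : List Bool} (h : Cl E w p) : Cl (fun a b => E b a) w p.reverse := by
  intro u s hw
  have := hw.rev
  rw [List.reverse_reverse] at this
  have := h u _ this
  omega

lemma net_append (p q : List Bool) : net (p ++ q) = net p + net q := by
  induction p with
  | nil => simp [net]
  | cons b p ih => simp [net, ih]; ring

lemma net_map_not (p : List Bool) : net (p.map not) = - net p := by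
  induction p with
  | nil => simp [net]
  | cons b p ih => cases b <;> simp [net, ih] <;> ring

lemma net_reverse (p : List Bool) : net p.reverse = net p := by
  induction p with
  | nil => simp
  | cons b p ih => rw [List.reverse_cons, net_append, ih]; simp [net]; ring

lemma net_rot {p q : List Bool} (hr : p ~r q) : net p = net q := by
  obtain ⟨n, hn, rfl⟩ := List.isRotated_iff_mod.1 hr
  rw [List.rotate_eq_drop_append_take hn, net_append, add_comm, ← net_append,
    List.take_append_drop]

lemma net_parity (p : List Bool) : (2 : ℤ) ∣ net p + p.length := by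
  induction p with
  | nil => simp [net]
  | cons b p ih => cases b <;> simp only [net, List.length_cons] <;> simp <;> omega

lemma Wk.exists_fun {p : List Bool} {u v : V} {s : ℤ} (h : Wk E w p u v s) :
    ∃ f : ℕ → V, f 0 = u ∧ f p.length = v ∧
      (∀ (j : ℕ) (hj : j < p.length), step E p[j] (f j) (f (j + 1))) ∧
      ∑ j ∈ range p.length, w (f (j + 1)) = s := by
  induction h with
  | nil u => exact ⟨fun _ => u, rfl, rfl, fun j hj => by simp at hj, by simp⟩
  | @cons b p u y v s hs _ ih =>
    obtain ⟨f, f0, f1, f2, f3⟩ := ih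
    refine ⟨fun j => Nat.casesOn j u f, rfl, f1, ?_, ?_⟩
    · intro j hj
      cases j with
      | zero => simpa [f0] using hs
      | succ j => exact f2 j (by simpa using hj)
    · rw [List.length_cons, sum_range_succ']
      simp only [f3, f0]
      ring

lemma orbit {ι : Type*} [Fintype ι] (τ : Equiv.Perm ι) (f : ι → V) (hf : ∀ i, E (f i) (f (τ i)))
    (p : List Bool) : ∃ S : ι → ℤ, (∀ i, Wk E w p (f i) (f ((τ ^ net p) i)) (S i)) ∧
      ∑ i, S i = p.length * ∑ i, w (f i) := by
  induction p with
  | nil => exact ⟨fun _ => 0, fun i => by simpa [net] using Wk.nil (f i), by simp⟩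
  | cons b p ih =>
    obtain ⟨S, h1, h2⟩ := ih
    cases b with
    | true =>
      refine ⟨fun i => w (f (τ i)) + S (τ i), fun i => ?_, ?_⟩
      · have e : (τ ^ net (true :: p)) i = (τ ^ net p) (τ i) := by
          rw [show net (true :: p) = net p + 1 by simp [net]; ring, zpow_add_one]
          rfl
        rw [e]
        exact Wk.cons (step_true (hf i)) (h1 (τ i))
      · rw [sum_add_distrib, Equiv.sum_comp τ (fun i => w (f i)), Equiv.sum_comp τ S, h2]
        simp only [List.length_cons]
        push_cast
        ring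
    | false =>
      refine ⟨fun i => w (f (τ⁻¹ i)) + S (τ⁻¹ i), fun i => ?_, ?_⟩
      · have e : (τ ^ net (false :: p)) i = (τ ^ net p) (τ⁻¹ i) := by
          rw [show net (false :: p) = net p - 1 by simp [net]; ring, zpow_sub_one]
          rfl
        rw [e]
        refine Wk.cons (step_false ?_) (h1 (τ⁻¹ i))
        simpa using hf (τ⁻¹ i)
      · rw [sum_add_distrib, Equiv.sum_comp τ⁻¹ (fun i => w (f i)), Equiv.sum_comp τ⁻¹ S, h2]
        simp only [List.length_cons]
        push_cast
        ring

lemma orbit_le {ι : Type*} [Fintype ι] (τ : Equiv.Perm ι) (f : ι → V)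
    (hf : ∀ i, E (f i) (f (τ i))) {p : List Bool} (hp : p ≠ []) (hτ : τ ^ net p = 1)
    (h : Cl E w p) : ∑ i, w (f i) ≤ 0 := by
  obtain ⟨S, h1, h2⟩ := orbit (w := w) τ f hf p
  have h3 : ∑ i, S i ≤ 0 := by
    apply sum_nonpos
    intro i _
    have := h1 i
    rw [hτ] at this
    exact h _ _ this
  have h4 : (0 : ℤ) < p.length := by exact_mod_cast List.length_pos_iff.2 hp
  rw [h2] at h3
  by_contra hc
  push Not at hc
  have := mul_pos h4 hc
  omega

lemma cl_cycle (n : ℕ) (hn : 0 < n) {p : List Bool} (hp : p ≠ []) (hd : (n : ℤ) ∣ net p)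
    (h : Cl E w p) : Cl E w (List.replicate n true) := by
  intro u s hw
  obtain ⟨f, f0, f1, f2, f3⟩ := hw.exists_fun
  simp only [List.length_replicate] at f1 f2 f3
  have : NeZero n := ⟨by omega⟩
  have key := orbit_le (w := w) (Equiv.addRight (1 : ZMod n)) (fun i => f i.val) (by
    intro i
    have h1 := (f2 i.val (ZMod.val_lt i)).1 (by simp)
    simp only [Equiv.coe_addRight]
    by_cases h2 : i.val + 1 < n
    · have : (i + 1).val = i.val + 1 := by
        have : Fact (1 < n) := ⟨by omega⟩
        rw [ZMod.val_add, ZMod.val_one, Nat.mod_eq_of_lt h2]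
      rwa [this]
    · have h3 : i.val + 1 = n := by have := ZMod.val_lt i; omega
      have : (i + 1) = 0 := by
        have : ((i.val + 1 : ℕ) : ZMod n) = 0 := by rw [h3]; simp
        simpa using this
      rw [this, ZMod.val_zero, f0, ← f1]
      rwa [h3] at h1) hp (by
    rw [Equiv.zsmul_addRight]
    obtain ⟨k, hk⟩ := hd
    have : net p • (1 : ZMod n) = 0 := by
      rw [hk]; simp
    rw [this]
    simp) h
  have e : ∑ i : ZMod n, w (f i.val) = ∑ j ∈ range n, w (f j) := by
    obtain ⟨k, rfl⟩ : ∃ k, n = k + 1 := ⟨n - 1, by omega⟩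
    exact Fin.sum_univ_eq_sum_range (fun j => w (f j)) (k + 1)
  have e2 := sum_range_succ (fun j => w (f j)) n
  have e3 := sum_range_succ' (fun j => w (f j)) n
  simp only [f0, f1] at e2 e3
  omega

lemma Wk.two {a b : V} (h1 : E a b) (h2 : E b a) :
    Wk E w (List.replicate 2 true) a a (w a + w b) :=
  (Wk.cons (step_true h1) (Wk.cons (step_true h2) (Wk.nil a))).cast (by ring)

lemma Wk.four {a b c d : V} (h1 : E a b) (h2 : E b c) (h3 : E c d) (h4 : E d a) :
    Wk E w (List.replicate 4 true) a a (w a + w b + w c + w d) :=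
  (Wk.cons (step_true h1) (Wk.cons (step_true h2) (Wk.cons (step_true h3)
    (Wk.cons (step_true h4) (Wk.nil a))))).cast (by ring)

lemma Wk.six {a b c d e f : V} (h1 : E a b) (h2 : E b c) (h3 : E c d) (h4 : E d e) (h5 : E e f)
    (h6 : E f a) : Wk E w (List.replicate 6 true) a a (w a + w b + w c + w d + w e + w f) :=
  (Wk.cons (step_true h1) (Wk.cons (step_true h2) (Wk.cons (step_true h3)
    (Wk.cons (step_true h4) (Wk.cons (step_true h5) (Wk.cons (step_true h6)
      (Wk.nil a))))))).cast (by ring)

lemma Wk.repeat {n : ℕ} {a : V} {s : ℤ} (h : Wk E w (List.replicate n true) a a s) (j : ℕ) :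
    Wk E w (List.replicate (j * n) true) a a (j * s) := by
  induction j with
  | zero => simpa using Wk.nil a
  | succ j ih =>
    have := ih.append h
    rw [List.replicate_append_replicate] at this
    rw [show (j + 1) * n = j * n + n by ring]
    exact this.cast (by push_cast; ring)

lemma exists_tf (r : List Bool) (h : false ∈ r) :
    ∃ r1 r2, true :: r = r1 ++ true :: false :: r2 := by
  induction r with
  | nil => simp at h
  | cons b r ih =>
    cases b with
    | false => exact ⟨[], r, rfl⟩
    | true =>
      obtain ⟨r1, r2, e⟩ := ih (by simpa using h)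
      exact ⟨true :: r1, r2, by rw [e]; rfl⟩

lemma net_of_all_true (p : List Bool) (h : false ∉ p) : net p = p.length := by
  induction p with
  | nil => simp [net]
  | cons b p ih =>
    cases b with
    | false => simp at h
    | true =>
      have := ih (by simpa using h)
      simp [net, this]; ring

lemma net_of_all_false (p : List Bool) (h : true ∉ p) : net p = - p.length := by
  induction p with
  | nil => simp [net]
  | cons b p ih =>
    cases b with
    | true => simp at h
    | false =>
      have := ih (by simpa using h)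
      simp [net, this]

lemma rot_tf (p : List Bool) (h1 : true ∈ p) (h2 : false ∈ p) :
    ∃ p', p ~r (true :: false :: p') := by
  obtain ⟨s, t, rfl⟩ := List.append_of_mem h1
  have h3 : false ∈ t ++ s := by
    simp only [List.mem_append, List.mem_cons] at h2 ⊢
    rcases h2 with h | h | h
    · exact Or.inr h
    · simp at h
    · exact Or.inl h
  obtain ⟨r1, r2, e⟩ := exists_tf (t ++ s) h3
  refine ⟨r2 ++ r1, ?_⟩
  have a1 : (s ++ true :: t) ~r (true :: (t ++ s)) := List.isRotated_append
  rw [e] at a1
  exact a1.trans List.isRotated_append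

/-- edges between good vertices -/
def GE (E : V → V → Prop) (w : V → ℤ) (u v : V) : Prop := E u v ∧ Good E w u ∧ Good E w v

lemma Wk.good_end {p : List Bool} {u v : V} {s : ℤ} (h : Wk (GE E w) w p u v s)
    (hu : Good E w u) : Good E w v := by
  induction h with
  | nil u => exact hu
  | @cons b p u y v s hs _ ih =>
    apply ih
    cases b with
    | true => exact (hs.1 rfl).2.2
    | false => exact (hs.2 rfl).2.1

lemma good_insert {y : V} (hy : Good E w y) : ∃ s, 0 ≤ s ∧ Wk (GE E w) w [true, false] y y s := by
  obtain ⟨S, hyS, hS⟩ := hy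
  obtain ⟨z, hz, h1, h2⟩ := hS y hyS
  have hE : GE E w y z := ⟨h1, ⟨S, hyS, hS⟩, ⟨S, hz, hS⟩⟩
  exact ⟨_, by omega, Wk.cons (step_true hE) (Wk.cons (step_false hE) (Wk.nil y))⟩

lemma core_walk (n : ℕ) : ∀ p : List Bool, p.length = n → 3 ≤ n → net p = 2 →
    ∃ q, p ~r (true :: (q ++ [true])) ∧ ∀ x a c, E x a → E x c → Good E w x → Good E w a →
      Good E w c → 0 ≤ w x → 0 ≤ w c → ∃ s, w x + w a ≤ s ∧ Wk (GE E w) w q c a s := by
  induction n using Nat.strong_induction_on with
  | _ n ih =>
  intro p hp hn hnet
  have h1 : true ∈ p := by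
    by_contra h
    have := net_of_all_false p h
    omega
  have h2 : false ∈ p := by
    by_contra h
    have := net_of_all_true p h
    omega
  obtain ⟨p', hr⟩ := rot_tf p h1 h2
  have hl : p'.length + 2 = n := by
    have := hr.perm.length_eq
    simp at this
    omega
  have hn' : net p' = 2 := by
    have := net_rot hr
    simp [net] at this
    omega
  have base : ∀ x c, E x c → Good E w x → Good E w c →
      Wk (GE E w) w [false, true] c c (w x + w c) := by
    intro x c h3 h4 h5
    have hE : GE E w x c := ⟨h3, h4, h5⟩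
    exact (Wk.cons (step_false hE) (Wk.cons (step_true hE) (Wk.nil c))).cast (by ring)
  by_cases h3 : 3 ≤ p'.length
  · obtain ⟨q, hq, hw⟩ := ih p'.length (by omega) p' rfl h3 hn'
    obtain ⟨k, hk, e⟩ := List.isRotated_iff_mod.1 hq.symm
    rw [List.rotate_eq_drop_append_take hk] at e
    set r := true :: (q ++ [true]) with hrdef
    have hr2 : p ~r (r.take k ++ true :: false :: r.drop k) := by
      refine hr.trans ?_
      rw [← e]
      have : (true :: false :: (r.drop k ++ r.take k)) = (true :: false :: r.drop k) ++ r.take k := rfl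
      rw [this]
      exact List.isRotated_append
    have front : p ~r (true :: false :: r) → ∃ q, p ~r (true :: (q ++ [true])) ∧
        ∀ x a c, E x a → E x c → Good E w x → Good E w a →
        Good E w c → 0 ≤ w x → 0 ≤ w c → ∃ s, w x + w a ≤ s ∧ Wk (GE E w) w q c a s := by
      intro h
      refine ⟨[false, true] ++ q, h, ?_⟩
      intro x a c b1 b2 b3 b4 b5 b6 b7
      obtain ⟨s, hs, hw'⟩ := hw x a c b1 b2 b3 b4 b5 b6 b7
      exact ⟨_, by omega, (base x c b2 b3 b5).append hw'⟩
    cases k with
    | zero => exact front (by simpa using hr2)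
    | succ k =>
      by_cases hkq : k ≤ q.length
      · refine ⟨q.take k ++ ([true, false] ++ q.drop k), ?_, ?_⟩
        · have e1 : r.take (k + 1) = true :: q.take k := by
            simp [hrdef, List.take_append_of_le_length hkq]
          have e2 : r.drop (k + 1) = q.drop k ++ [true] := by
            simp [hrdef, List.drop_append_of_le_length hkq]
          rw [e1, e2] at hr2
          simpa using hr2
        · intro x a c b1 b2 b3 b4 b5 b6 b7
          obtain ⟨s, hs, hw'⟩ := hw x a c b1 b2 b3 b4 b5 b6 b7
          rw [← List.take_append_drop k q] at hw'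
          obtain ⟨v, s1, s2, w1, w2, rfl⟩ := hw'.split
          obtain ⟨t, ht, w3⟩ := good_insert (w1.good_end b5)
          exact ⟨_, by omega, w1.append (w3.append w2)⟩
      · apply front
        have hlen : r.length = q.length + 2 := by simp [hrdef]
        have e1 : r.take (k + 1) = r := List.take_of_length_le (by omega)
        have e2 : r.drop (k + 1) = [] := List.drop_of_length_le (by omega)
        rw [e1, e2] at hr2
        exact hr2.trans List.isRotated_append
  · have hp' : p' = [true, true] := by
      match p', hn', h3 with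
      | [], h, _ => simp [net] at h
      | [b], h, _ => cases b <;> simp [net] at h
      | [b, c], h, _ => cases b <;> cases c <;> simp [net] at h ⊢
      | _ :: _ :: _ :: _, _, h => simp at h
    subst hp'
    refine ⟨[false, true], hr, ?_⟩
    intro x a c b1 b2 b3 b4 b5 _ _
    exact ⟨_, by omega, Wk.cons (step_false ⟨b2, b3, b5⟩)
      (Wk.cons (step_true ⟨b1, b3, b4⟩) (Wk.nil a))⟩

lemma kp_of_cl {p : List Bool} (hl : 3 ≤ p.length) (hn : net p = 2) (h : Cl E w p) : KP E w := by
  obtain ⟨q, hq, hw⟩ := core_walk (E := E) (w := w) p.length p rfl hl hn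
  intro x a b c h1 h2 h3 h4 g1 g2 g3 n1 n2
  obtain ⟨s, hs, hw'⟩ := hw x a c h1 h4 g1 g2 g3 n1 n2
  have := h.rot hq b _ (Wk.cons (step_true h3) ((hw'.mono (fun _ _ h => h.1)).append
    (Wk.cons (step_true h2) (Wk.nil b))))
  omega

end Pool.Agent.OCyc
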