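import Pool.Agent.Lib.MP_061df2_co.Absorb
import Pool.Agent.Lib.MP_061df2_co.Almost

set_option autoImplicit false
set_option linter.unusedSectionVars false

open Finset
open scoped Classical

namespace Pool.Agent.OCyc

lemma card_filter_sub {V : Type*} [Fintype V] (B : Finset V) (P : V → Prop) :
    (univ.filter P).card ≤ (univ.filter (fun y : {v // v ∉ B} => P y.1)).card + B.card := by
  rw [← card_image_of_injective (univ.filter (fun y : {v // v ∉ B} => P y.1))
    Subtype.val_injective]
  refine le_trans (card_le_card ?_) (card_union_le _ _)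
  intro v hv
  by_cases h : v ∈ B
  · exact mem_union_right _ h
  · exact mem_union_left _ (mem_image.2 ⟨⟨v, h⟩, by simpa using hv, rfl⟩)

/-- perfect tilings -/
theorem perfect {k : ℕ} (hk : 4 ≤ k) (he : 2 ∣ k) (d : Fin k → Bool) (η : ℝ) (hη : 0 < η) :
    ∃ n0 : ℕ, ∀ (V : Type) [Fintype V] (E : V → V → Prop), n0 ≤ Fintype.card V →
    k ∣ Fintype.card V →
    (∀ v, (1 / 2 + η) * Fintype.card V ≤ ((univ.filter (fun y => E v y)).card : ℝ) ∧
      (1 / 2 + η) * Fintype.card V ≤ ((univ.filter (fun y => E y v)).card : ℝ)) →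
    Tiled E d univ := by
  obtain ⟨K, rfl⟩ : ∃ K, k = K + 1 := ⟨k - 1, by omega⟩
  obtain ⟨ε, hε, n1, h1⟩ := absorbing (by omega) d η hη
  obtain ⟨n2, h2⟩ := almost hk he d (η / 2) ε (by positivity) hε
  refine ⟨max n1 (2 * n2 + 1), fun V _ E hn hd hE => ?_⟩
  obtain ⟨B, B1, B2⟩ := h1 V E ((le_max_left _ _).trans hn) hE
  have n3 : 2 * n2 + 1 ≤ Fintype.card V := (le_max_right _ _).trans hn
  have n4 : (2 * n2 + 1 : ℝ) ≤ Fintype.card V := by exact_mod_cast n3
  have n5 : (0 : ℝ) < Fintype.card V := lt_of_lt_of_le (by positivity) n4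
  obtain ⟨v0⟩ : Nonempty V := Fintype.card_pos_iff.1 (by omega)
  have η1 : η ≤ 1 / 2 := by
    have h3 : ((univ.filter (fun y => E v0 y)).card : ℝ) ≤ Fintype.card V := by
      exact_mod_cast card_le_univ _
    have := (hE v0).1
    by_contra hc
    push Not at hc
    nlinarith
  have c1 : Fintype.card {v // v ∉ B} + B.card = Fintype.card V := by
    rw [Fintype.card_subtype_compl, Fintype.card_coe]
    have := card_le_univ B
    omega
  have c2 : (Fintype.card {v // v ∉ B} : ℝ) + B.card = Fintype.card V := by exact_mod_cast c1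
  have c3 : (0 : ℝ) ≤ B.card := by positivity
  have low : ∀ P : V → Prop, (1 / 2 + η) * Fintype.card V ≤ ((univ.filter P).card : ℝ) →
      (1 / 2 + η / 2) * Fintype.card {v // v ∉ B} ≤
        ((univ.filter (fun y : {v // v ∉ B} => P y.1)).card : ℝ) := by
    intro P h
    have h3 : ((univ.filter P).card : ℝ) ≤
        (univ.filter (fun y : {v // v ∉ B} => P y.1)).card + B.card := by
      exact_mod_cast card_filter_sub B P
    nlinarith
  obtain ⟨S, S1, S2⟩ := h2 {v // v ∉ B} (fun a b => E a.1 b.1) (by
      have : (n2 : ℝ) ≤ Fintype.card {v // v ∉ B} := by nlinarith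
      exact_mod_cast this)
    (fun v => ⟨low _ (hE v.1).1, low (fun y => E y v.1) (hE v.1).2⟩)
  have T1 : Tiled E d (S.image Subtype.val) := S1.map _ Subtype.val_injective (fun _ _ h => h)
  have T2 : Disjoint B (S.image Subtype.val) := by
    rw [disjoint_right]
    intro v hv
    obtain ⟨x, -, rfl⟩ := mem_image.1 hv
    exact x.2
  have c4 : (univ \ (B ∪ S.image Subtype.val)).card + (B.card + (S.image Subtype.val).card)
      = Fintype.card V := by
    rw [← card_union_of_disjoint T2, card_sdiff_add_card_eq_card (subset_univ _), card_univ]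
  have B3 : Tiled E d B := by simpa using B2 ∅ (by simp) (by simp) (by simp; positivity)
  have T3 := B2 (univ \ (B ∪ S.image Subtype.val))
    (disjoint_sdiff.mono_left subset_union_left)
    (by rw [← c4] at hd; exact (Nat.dvd_add_left (dvd_add B3.dvd T1.dvd)).1 hd)
    (by
      rw [card_image_of_injective _ Subtype.val_injective] at c4
      have c5 : ((univ \ (B ∪ S.image Subtype.val)).card : ℝ) + (B.card + S.card)
        = Fintype.card V := by exact_mod_cast c4
      nlinarith)
  refine (T3.union T1 ?_).cast ?_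
  · rw [disjoint_union_left]
    exact ⟨T2, sdiff_disjoint.mono_right subset_union_right⟩
  · ext v
    simp only [mem_union, mem_sdiff, mem_univ, true_and, iff_true]
    tauto

end Pool.Agent.OCyc
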