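import Pool.Agent.Lib.MP_061df2_co.Tile

set_option autoImplicit false
set_option linter.unusedSectionVars false

open Finset
open scoped Classical

namespace Pool.Agent.OCyc

lemma farkas {κ ι : Type*} [Fintype κ] [Fintype ι] (g : κ → ι → ℝ) (x : ι → ℝ)
    (h : ∀ (y : ι → ℝ) (u : ℝ), (∀ p, ∑ j, y j * g p j < u) → ∑ j, y j * x j ≤ u) :
    ∃ a : κ → ℝ, (∀ p, 0 ≤ a p) ∧ ∀ j, ∑ p, a p * g p j = x j := by
  let L : (κ → ℝ) →ₗ[ℝ] (ι → ℝ) :=
    { toFun := fun a j => ∑ p, a p * g p j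
      map_add' := by intro a b; funext j; simp [add_mul, sum_add_distrib]
      map_smul' := by intro r a; funext j; simp [mul_sum, mul_assoc] }
  have hc : Convex ℝ (L '' stdSimplex ℝ κ) := (convex_stdSimplex ℝ κ).linear_image L
  have hk : IsCompact (L '' stdSimplex ℝ κ) :=
    (isCompact_stdSimplex ℝ κ).image L.continuous_of_finiteDimensional
  by_contra hn
  have hx : x ∉ L '' stdSimplex ℝ κ := by
    rintro ⟨a, ha, e⟩
    exact hn ⟨a, ha.1, fun j => congrFun e j⟩
  obtain ⟨f, u, h1, h2⟩ := geometric_hahn_banach_closed_point hc hk.isClosed hx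
  have hf : ∀ z : ι → ℝ, f z = ∑ j, f (Pi.single j 1) * z j := by
    intro z
    conv_lhs => rw [pi_eq_sum_univ' z]
    rw [map_sum]
    apply sum_congr rfl
    intro j _
    rw [map_smul, smul_eq_mul, mul_comm]
  have := h (fun j => f (Pi.single j 1)) u (by
    intro p
    rw [← hf]
    apply h1
    refine ⟨Pi.single p 1, single_mem_stdSimplex ℝ p, ?_⟩
    funext j
    simp [L, Pi.single_apply])
  rw [← hf] at this
  linarith

variable {V : Type*} [Fintype V]

lemma frac_dual_real {E : V → V → Prop} (hD : Deg E) {k : ℕ} (hk : 4 ≤ k) (he : 2 ∣ k)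
    (d : Fin k → Bool) (w : V → ℝ) (h : ∀ φ, IsHom E d φ → ∑ i, w (φ i) ≤ 0) : ∑ v, w v ≤ 0 := by
  by_contra hc
  push Not at hc
  obtain ⟨K, hK⟩ := exists_nat_gt ((Fintype.card V : ℝ) / ∑ v, w v)
  rw [div_lt_iff₀ hc] at hK
  have h1 := frac_dual hD hk he d (fun v => ⌊K * w v⌋) (by
    intro φ hφ
    have h2 : ((∑ i, ⌊K * w (φ i)⌋ : ℤ) : ℝ) ≤ 0 := by
      push_cast
      calc _ ≤ ∑ i, K * w (φ i) := sum_le_sum (fun i _ => Int.floor_le _)
        _ = K * ∑ i, w (φ i) := by rw [mul_sum]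
        _ ≤ 0 := mul_nonpos_of_nonneg_of_nonpos (by positivity) (h φ hφ)
    exact_mod_cast h2)
  have h2 : ((∑ v, ⌊K * w v⌋ : ℤ) : ℝ) ≤ 0 := by exact_mod_cast h1
  push_cast at h2
  have h3 : ∑ v, (K * w v - 1) ≤ ∑ v, (⌊K * w v⌋ : ℝ) :=
    sum_le_sum (fun v _ => (Int.sub_one_lt_floor _).le)
  rw [sum_sub_distrib, ← mul_sum] at h3
  simp only [sum_const, card_univ, nsmul_eq_mul, mul_one] at h3
  linarith

/-- number of cycle positions sent to `j` -/
noncomputable def cnt {ι : Type*} {k : ℕ} (ψ : Fin k → ι) (j : ι) : ℕ :=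
  (univ.filter (fun i => ψ i = j)).card

lemma sum_cnt {ι : Type*} [Fintype ι] {k : ℕ} (ψ : Fin k → ι) (y : ι → ℝ) :
    ∑ j, y j * cnt ψ j = ∑ i, y (ψ i) := by
  rw [← sum_fiberwise univ ψ (fun i => y (ψ i))]
  apply sum_congr rfl
  intro j _
  rw [sum_congr rfl (g := fun _ => y j) (fun i hi => by rw [(mem_filter.1 hi).2])]
  simp [cnt, mul_comm]

lemma sum_cls' {ι : Type*} [Fintype ι] (c : V → ι) (y : ι → ℝ) :
    ∑ v, y (c v) = ∑ j, y j * (cls c j).card := by
  rw [sum_cls c]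
  apply sum_congr rfl
  intro j _
  rw [sum_congr rfl (g := fun _ => y j) (fun i hi => by rw [mem_cls.1 hi])]
  simp [mul_comm]

/-- the fractional tiling theorem in primal form -/
theorem frac_primal {ι : Type*} [Fintype ι] (c : V → ι) (Q : ι → ι → Prop)
    (hD : Deg (fun u v => Q (c u) (c v))) (hn : 0 < Fintype.card V) {k : ℕ} (hk : 4 ≤ k)
    (he : 2 ∣ k) (d : Fin k → Bool) : ∃ a : {ψ : Fin k → ι // IsHom Q d ψ} → ℝ,
      (∀ p, 0 ≤ a p) ∧ ∀ j, ∑ p, a p * cnt p.1 j = (cls c j).card := by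
  have hn' : (0 : ℝ) < Fintype.card V := by exact_mod_cast hn
  have hk' : (0 : ℝ) < k := by exact_mod_cast (by omega : 0 < k)
  obtain ⟨a, a1, a2⟩ := farkas (fun (p : {ψ : Fin k → ι // IsHom Q d ψ}) j => (cnt p.1 j : ℝ))
    (fun j => k / Fintype.card V * (cls c j).card) (by
      intro y u h
      have h1 := frac_dual_real hD hk he d (fun v => y (c v) - u / k) (by
        intro φ hφ
        have h2 := h ⟨fun i => c (φ i), hφ⟩
        rw [sum_cnt] at h2
        simp only [sum_sub_distrib, sum_const, card_univ, Fintype.card_fin, nsmul_eq_mul]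
        rw [mul_div_cancel₀ _ hk'.ne']
        linarith)
      simp only [sum_sub_distrib, sum_const, card_univ, nsmul_eq_mul] at h1
      rw [sum_cls'] at h1
      have e : ∑ j, y j * (k / Fintype.card V * (cls c j).card)
          = k / Fintype.card V * ∑ j, y j * (cls c j).card := by
        rw [mul_sum]
        apply sum_congr rfl
        intro j _
        ring
      rw [e]
      calc _ ≤ k / Fintype.card V * (Fintype.card V * (u / k)) :=
            mul_le_mul_of_nonneg_left (by linarith) (by positivity)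
        _ = u := by field_simp)
  refine ⟨fun p => Fintype.card V / k * a p, fun p => mul_nonneg (by positivity) (a1 p), ?_⟩
  intro j
  simp only [mul_assoc, ← mul_sum]
  rw [a2]
  field_simp

/-- greedy embedding of a family of homomorphic images -/
lemma greedy {ι κ : Type*} {E : V → V → Prop} {k : ℕ} (hk : 3 ≤ k) (d : Fin k → Bool)
    (X : ι → Finset V) (hX : ∀ i j, i ≠ j → Disjoint (X i) (X j)) (a : ι → ℝ) (δ : ℝ)
    (hδ : 0 < δ) (hδ1 : δ ≤ 1) (R : ι → ι → Prop)
    (hR : ∀ i j, R i j → Dense E δ (X i) (X j) (a i) (a j)) (Ψ : κ → Fin k → ι)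
    (m : ι → ℕ) (s : Finset κ) (hψ : ∀ p ∈ s, IsHom R d (Ψ p))
    (ha : ∀ p ∈ s, ∀ i, 0 < a (Ψ p i) ∧ 2 * a (Ψ p i) ≤ δ * (m (Ψ p i) / k : ℕ))
    (hm : ∀ j, ∑ p ∈ s, cnt (Ψ p) j + m j ≤ (X j).card) :
    ∃ S, Tiled E d S ∧ S.card = s.card * k ∧ ∀ j, (S ∩ X j).card ≤ ∑ p ∈ s, cnt (Ψ p) j := by
  induction s using Finset.induction_on with
  | empty => exact ⟨∅, Tiled.empty, by simp, by simp⟩
  | insert p s hp ih =>
    obtain ⟨S, S1, S2, S3⟩ := ih (fun q hq => hψ q (mem_insert_of_mem hq))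
      (fun q hq => ha q (mem_insert_of_mem hq))
      (fun j => by have := hm j; rw [sum_insert hp] at this; omega)
    obtain ⟨φ, φ1, φ2, φ3⟩ := embed_cycle hk d X hX a δ hδ hδ1 R hR (Ψ p)
      (hψ p (mem_insert_self _ _)) (fun i => (ha p (mem_insert_self _ _) i).1)
      (fun j => X j \ S) (fun j => sdiff_subset) (by
        intro i
        refine (ha p (mem_insert_self _ _) i).2.trans (mul_le_mul_of_nonneg_left ?_ hδ.le)
        have h1 := hm (Ψ p i)
        rw [sum_insert hp] at h1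
        have h2 := S3 (Ψ p i)
        have h3 := card_sdiff_add_card_inter (X (Ψ p i)) S
        rw [inter_comm] at h3
        exact_mod_cast Nat.div_le_div_right (by omega))
    have φ4 : ∀ i, φ i ∉ S := fun i => (mem_sdiff.1 (φ3 i)).2
    refine ⟨_, Tiled.add S φ S1 φ1 φ2 φ4, ?_, ?_⟩
    · rw [card_add_copy φ1 φ4, card_insert_of_notMem hp, S2]
      ring
    · intro j
      rw [sum_insert hp, union_inter_distrib_right]
      refine (card_union_le _ _).trans ?_
      have h1 : (univ.image φ ∩ X j).card ≤ cnt (Ψ p) j := by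
        refine le_trans (card_le_card ?_) (card_image_le (f := φ))
        intro v hv
        obtain ⟨h1, h2⟩ := mem_inter.1 hv
        obtain ⟨i, -, rfl⟩ := mem_image.1 h1
        refine mem_image_of_mem _ (mem_filter.2 ⟨mem_univ _, ?_⟩)
        by_contra hne
        exact disjoint_left.1 (hX _ _ hne) (mem_sdiff.1 (φ3 i)).1 h2
      have := S3 j
      omega

end Pool.Agent.OCyc
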