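import Mathlib

set_option autoImplicit false
set_option linter.unusedSectionVars false

open Finset
open scoped Classical

namespace Pool.Agent.OCyc

variable {V : Type*} [Fintype V]

/-- indicator of an edge -/
noncomputable def ind (E : V → V → Prop) (u v : V) : ℝ := if E u v then 1 else 0

/-- number of edges from `A` to `B` -/
noncomputable def ecount (E : V → V → Prop) (A B : Finset V) : ℝ := ∑ u ∈ A, ∑ v ∈ B, ind E u v

/-- colour class -/
noncomputable def cls {ι : Type*} (c : V → ι) (i : ι) : Finset V := univ.filter (fun v => c v = i)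

/-- density between two colour classes -/
noncomputable def dens (E : V → V → Prop) {ι : Type*} (c : V → ι) (i j : ι) : ℝ :=
  ecount E (cls c i) (cls c j) / (((cls c i).card : ℝ) * (cls c j).card)

/-- lower regularity of a pair of colour classes -/
def LReg (E : V → V → Prop) {ι : Type*} (c : V → ι) (ε : ℝ) (i j : ι) : Prop :=
  ∀ A ⊆ cls c i, ∀ B ⊆ cls c j, ε * (cls c i).card ≤ A.card → ε * (cls c j).card ≤ B.card →
    (dens E c i j - ε) * (A.card * B.card) ≤ ecount E A B

/-- squared error of the step approximation -/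
noncomputable def err (E : V → V → Prop) {ι : Type*} (c : V → ι) (g : ι → ι → ℝ) : ℝ :=
  ∑ u, ∑ v, (ind E u v - g (c u) (c v)) ^ 2

/-- total mass of irregular pairs -/
noncomputable def irr (E : V → V → Prop) {ι : Type*} [Fintype ι] (c : V → ι) (ε : ℝ) : ℝ :=
  ∑ i, ∑ j, if LReg E c ε i j then 0 else ((cls c i).card : ℝ) * (cls c j).card

@[simp] lemma mem_cls {ι : Type*} {c : V → ι} {i : ι} {v : V} : v ∈ cls c i ↔ c v = i := by
  simp [cls]

lemma sum_cls {ι : Type*} [Fintype ι] (c : V → ι) (f : V → ℝ) :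
    ∑ v, f v = ∑ i, ∑ v ∈ cls c i, f v :=
  (sum_fiberwise univ c f).symm

lemma ecount_eq (E : V → V → Prop) {ι : Type*} (c : V → ι) (i j : ι) :
    ecount E (cls c i) (cls c j) = dens E c i j * (((cls c i).card : ℝ) * (cls c j).card) := by
  unfold dens
  by_cases h : (((cls c i).card : ℝ) * (cls c j).card) = 0
  · rw [h, mul_zero]
    rcases mul_eq_zero.1 h with h | h
    · have : cls c i = ∅ := by simpa using h
      simp [ecount, this]
    · have : cls c j = ∅ := by simpa using h
      simp [ecount, this]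
  · rw [div_mul_cancel₀ _ h]

lemma err_min (E : V → V → Prop) {ι : Type*} [Fintype ι] (c : V → ι) (g : ι → ι → ℝ) :
    err E c (dens E c) ≤ err E c g := by
  have orth : ∑ u, ∑ v, (ind E u v - dens E c (c u) (c v)) *
      (dens E c (c u) (c v) - g (c u) (c v)) = 0 := by
    rw [sum_cls c]
    apply sum_eq_zero
    intro i _
    have : ∀ u ∈ cls c i, ∑ v, (ind E u v - dens E c (c u) (c v)) *
        (dens E c (c u) (c v) - g (c u) (c v))
        = ∑ j, ∑ v ∈ cls c j, (ind E u v - dens E c i j) * (dens E c i j - g i j) := by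
      intro u hu
      rw [sum_cls c]
      apply sum_congr rfl
      intro j _
      apply sum_congr rfl
      intro v hv
      rw [mem_cls.1 hu, mem_cls.1 hv]
    rw [sum_congr rfl this, sum_comm]
    apply sum_eq_zero
    intro j _
    simp only [← sum_mul, sum_sub_distrib, sum_const, nsmul_eq_mul]
    have := ecount_eq E c i j
    unfold ecount at this
    rw [this]
    ring
  have : err E c g = err E c (dens E c) + 2 * (∑ u, ∑ v, (ind E u v - dens E c (c u) (c v)) *
      (dens E c (c u) (c v) - g (c u) (c v))) +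
      ∑ u, ∑ v, (dens E c (c u) (c v) - g (c u) (c v)) ^ 2 := by
    unfold err
    simp only [mul_sum, ← sum_add_distrib]
    apply sum_congr rfl
    intro u _
    apply sum_congr rfl
    intro v _
    ring
  rw [this, orth]
  have : 0 ≤ ∑ u, ∑ v, (dens E c (c u) (c v) - g (c u) (c v)) ^ 2 := by positivity
  linarith

lemma err_nonneg (E : V → V → Prop) {ι : Type*} (c : V → ι) (g : ι → ι → ℝ) : 0 ≤ err E c g := by
  unfold err; positivity

lemma refine_step (E : V → V → Prop) {ι : Type} [Fintype ι] (c : V → ι) (ε : ℝ) (hε : 0 < ε) :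
    ∃ c' : V → ι × (ι → Bool) × (ι → Bool),
      err E c' (dens E c') ≤ err E c (dens E c) - ε ^ 4 * irr E c ε := by
  have hw : ∀ i j, ∃ A B : Finset V, A ⊆ cls c i ∧ B ⊆ cls c j ∧
      ε ^ 2 * (if LReg E c ε i j then 0 else ((cls c i).card : ℝ) * (cls c j).card)
        ≤ A.card * B.card ∧ ecount E A B ≤ (dens E c i j - ε) * (A.card * B.card) := by
    intro i j
    by_cases h : LReg E c ε i j
    · exact ⟨∅, ∅, by simp, by simp, by simp [h], by simp [ecount]⟩
    · have h' := h
      unfold LReg at h'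
      push Not at h'
      obtain ⟨A, hA, B, hB, h1, h2, h3⟩ := h'
      refine ⟨A, B, hA, hB, ?_, h3.le⟩
      simp only [h, if_false]
      have := mul_le_mul h1 h2 (by positivity) (by positivity)
      linarith
  choose A B hA hB h1 h2 using hw
  refine ⟨fun v => (c v, fun j => decide (v ∈ A (c v) j), fun i => decide (v ∈ B i (c v))), ?_⟩
  refine (err_min E _ (fun x y => dens E c x.1 y.1 -
    if x.2.1 y.1 = true ∧ y.2.2 x.1 = true then ε else 0)).trans ?_
  have key : ∀ u v, (ind E u v - (dens E c (c u) (c v) -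
      if (decide (u ∈ A (c u) (c v)) = true ∧ decide (v ∈ B (c u) (c v)) = true) then ε else 0)) ^ 2
      = (ind E u v - dens E c (c u) (c v)) ^ 2 +
        if u ∈ A (c u) (c v) ∧ v ∈ B (c u) (c v) then
          (2 * ε * (ind E u v - dens E c (c u) (c v)) + ε ^ 2) else 0 := by
    intro u v
    simp only [decide_eq_true_eq]
    split_ifs <;> ring
  unfold err
  simp only [key, sum_add_distrib]
  have h3 : ∑ u, ∑ v, (if u ∈ A (c u) (c v) ∧ v ∈ B (c u) (c v) then
      (2 * ε * (ind E u v - dens E c (c u) (c v)) + ε ^ 2) else 0)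
      = ∑ i, ∑ j, ∑ u ∈ A i j, ∑ v ∈ B i j, (2 * ε * (ind E u v - dens E c i j) + ε ^ 2) := by
    rw [sum_cls c]
    apply sum_congr rfl
    intro i _
    have : ∀ u ∈ cls c i, ∑ v, (if u ∈ A (c u) (c v) ∧ v ∈ B (c u) (c v) then
        (2 * ε * (ind E u v - dens E c (c u) (c v)) + ε ^ 2) else 0)
        = ∑ j, if u ∈ A i j then
          ∑ v ∈ B i j, (2 * ε * (ind E u v - dens E c i j) + ε ^ 2) else 0 := by
      intro u hu
      rw [sum_cls c]
      apply sum_congr rfl
      intro j _
      rw [mem_cls.1 hu]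
      by_cases hu' : u ∈ A i j
      · simp only [hu', if_true]
        rw [← sum_subset (hB i j)]
        · apply sum_congr rfl
          intro v hv
          rw [mem_cls.1 (hB i j hv)]
          simp [hu', hv]
        · intro v hv hv'
          rw [mem_cls.1 hv]
          simp [hv']
      · simp only [hu', if_false]
        apply sum_eq_zero
        intro v hv
        rw [mem_cls.1 hv]
        simp [hu']
    rw [sum_congr rfl this, sum_comm]
    apply sum_congr rfl
    intro j _
    rw [← sum_filter]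
    apply sum_congr _ (fun _ _ => rfl)
    ext u
    simp only [mem_filter]
    exact ⟨fun h => h.2, fun h => ⟨hA i j h, h⟩⟩
  rw [h3]
  have h4 : ∑ i, ∑ j, ∑ u ∈ A i j, ∑ v ∈ B i j, (2 * ε * (ind E u v - dens E c i j) + ε ^ 2)
      ≤ ∑ i, ∑ j, -(ε ^ 4 *
        (if LReg E c ε i j then 0 else ((cls c i).card : ℝ) * (cls c j).card)) := by
    apply sum_le_sum
    intro i _
    apply sum_le_sum
    intro j _
    have e : ∑ u ∈ A i j, ∑ v ∈ B i j, (2 * ε * (ind E u v - dens E c i j) + ε ^ 2)
        = 2 * ε * (ecount E (A i j) (B i j) - dens E c i j * ((A i j).card * (B i j).card))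
          + ε ^ 2 * ((A i j).card * (B i j).card) := by
      unfold ecount
      simp only [sum_add_distrib, ← mul_sum, sum_sub_distrib, sum_const, nsmul_eq_mul]
      ring
    rw [e]
    have a1 := h1 i j
    have a2 := h2 i j
    have a3 : 2 * ε * (ecount E (A i j) (B i j) - dens E c i j * ((A i j).card * (B i j).card))
        ≤ 2 * ε * (-(ε * ((A i j).card * (B i j).card))) :=
      mul_le_mul_of_nonneg_left (by linarith) (by positivity)
    have a4 := mul_le_mul_of_nonneg_left a1 (by positivity : 0 ≤ ε ^ 2)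
    nlinarith
  simp only [sum_neg_distrib, ← mul_sum] at h4
  unfold irr
  linarith

lemma err_equiv (E : V → V → Prop) {ι κ : Type*} (c : V → ι) (e : ι ≃ κ) :
    err E (e ∘ c) (dens E (e ∘ c)) = err E c (dens E c) := by
  have : ∀ i, cls (e ∘ c) (e i) = cls c i := by
    intro i; ext v; simp
  unfold err dens
  simp only [Function.comp, this]

lemma reg_aux (ε : ℝ) (hε : 0 < ε) (j : ℕ) : ∀ T : ℕ, ∃ M : ℕ, ∀ (V : Type) [Fintype V]
    (E : V → V → Prop) (c : V → Fin T),
    err E c (dens E c) ≤ j * (ε ^ 5 * (Fintype.card V : ℝ) ^ 2) →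
    ∃ T' ≤ M, ∃ c' : V → Fin T', irr E c' ε ≤ ε * (Fintype.card V : ℝ) ^ 2 := by
  induction j with
  | zero =>
    intro T
    refine ⟨T, fun V _ E c h => ⟨T, le_rfl, c, ?_⟩⟩
    obtain ⟨c', hc'⟩ := refine_step E c ε hε
    have h1 := err_nonneg E c' (dens E c')
    have h2 : ε ^ 4 * irr E c ε ≤ 0 := by simp at h; linarith
    have h3 : irr E c ε ≤ 0 := by
      by_contra h4
      push Not at h4
      have := mul_pos (pow_pos hε 4) h4
      linarith
    have : 0 ≤ ε * (Fintype.card V : ℝ) ^ 2 := by positivity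
    linarith
  | succ j ih =>
    intro T
    obtain ⟨M, hM⟩ := ih (Fintype.card (Fin T × (Fin T → Bool) × (Fin T → Bool)))
    refine ⟨max T M, fun V _ E c h => ?_⟩
    by_cases h1 : irr E c ε ≤ ε * (Fintype.card V : ℝ) ^ 2
    · exact ⟨T, le_max_left _ _, c, h1⟩
    · push Not at h1
      obtain ⟨c', hc'⟩ := refine_step E c ε hε
      obtain ⟨T', hT', c'', h2⟩ := hM V E (Fintype.equivFin _ ∘ c') (by
        rw [err_equiv]
        have := mul_le_mul_of_nonneg_left h1.le (by positivity : 0 ≤ ε ^ 4)
        push_cast at h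
        nlinarith)
      exact ⟨T', hT'.trans (le_max_right _ _), c'', h2⟩

theorem regularity (ε : ℝ) (hε : 0 < ε) : ∃ M : ℕ, ∀ (V : Type) [Fintype V]
    (E : V → V → Prop), ∃ T ≤ M, ∃ c : V → Fin T, irr E c ε ≤ ε * (Fintype.card V : ℝ) ^ 2 := by
  obtain ⟨j, hj⟩ := exists_nat_ge (1 / ε ^ 5)
  obtain ⟨M, hM⟩ := reg_aux ε hε j 1
  refine ⟨M, fun V _ E => hM V E (fun _ => 0) ?_⟩
  refine (err_min E _ (fun _ _ => 0)).trans ?_
  have h1 : err E (fun _ : V => (0 : Fin 1)) (fun _ _ => 0) ≤ (Fintype.card V : ℝ) ^ 2 := by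
    unfold err
    calc _ ≤ ∑ _u : V, ∑ _v : V, (1 : ℝ) := by
          apply sum_le_sum
          intro u _
          apply sum_le_sum
          intro v _
          unfold ind
          split_ifs <;> norm_num
      _ = _ := by simp; ring
  have h2 : 1 ≤ j * ε ^ 5 := by
    rw [div_le_iff₀ (by positivity)] at hj
    exact hj
  have : 0 ≤ (Fintype.card V : ℝ) ^ 2 := by positivity
  nlinarith

end Pool.Agent.OCyc
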