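import Pool.Agent.Lib.MP_061df2_co.Embed

set_option autoImplicit false
set_option linter.unusedSectionVars false

open Finset
open scoped Classical

namespace Pool.Agent.OCyc

variable {V : Type*}

/-- sets that split into vertex-disjoint copies of the oriented cycle -/
inductive Tiled (E : V → V → Prop) {k : ℕ} (d : Fin k → Bool) : Finset V → Prop
  | empty : Tiled E d ∅
  | add (S : Finset V) (φ : Fin k → V) : Tiled E d S → Function.Injective φ → IsHom E d φ →
      (∀ i, φ i ∉ S) → Tiled E d (S ∪ univ.image φ)

variable {E : V → V → Prop} {k : ℕ} {d : Fin k → Bool}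

lemma Tiled.cast {S T : Finset V} (h : Tiled E d S) (e : S = T) : Tiled E d T := e ▸ h

lemma Tiled.union {S T : Finset V} (hS : Tiled E d S) (hT : Tiled E d T) (h : Disjoint S T) :
    Tiled E d (S ∪ T) := by
  induction hT with
  | empty => simpa using hS
  | add T φ _ h1 h2 h3 ih =>
    rw [disjoint_union_right] at h
    rw [← union_assoc]
    refine Tiled.add _ φ (ih h.1) h1 h2 ?_
    intro i hi
    rcases mem_union.1 hi with hi | hi
    · exact disjoint_left.1 h.2 hi (mem_image_of_mem _ (mem_univ i))
    · exact h3 i hi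

lemma card_add_copy {S : Finset V} {φ : Fin k → V} (h1 : Function.Injective φ) (h3 : ∀ i, φ i ∉ S) :
    (S ∪ univ.image φ).card = S.card + k := by
  rw [card_union_of_disjoint, card_image_of_injective _ h1]
  · simp
  · rw [disjoint_right]
    intro v hv
    obtain ⟨i, -, rfl⟩ := mem_image.1 hv
    exact h3 i

lemma Tiled.dvd {S : Finset V} (hS : Tiled E d S) : k ∣ S.card := by
  induction hS with
  | empty => simp
  | add T φ _ h1 h2 h3 ih =>
    rw [card_add_copy h1 h3]
    exact dvd_add ih dvd_rfl

lemma Tiled.map {W : Type*} {E' : W → W → Prop} (g : W → V) (hg : Function.Injective g)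
    (hE : ∀ a b, E' a b → E (g a) (g b)) {S : Finset W} (hS : Tiled E' d S) :
    Tiled E d (S.image g) := by
  induction hS with
  | empty => simpa using Tiled.empty
  | add T φ _ h1 h2 h3 ih =>
    refine (Tiled.add _ (g ∘ φ) ih (hg.comp h1) ?_ ?_).cast ?_
    · intro i i' hi
      exact ⟨fun h => hE _ _ ((h2 i i' hi).1 h), fun h => hE _ _ ((h2 i i' hi).2 h)⟩
    · intro i hi
      obtain ⟨x, hx, e⟩ := mem_image.1 hi
      exact h3 i (hg e ▸ hx)
    · rw [image_union, image_image]

lemma Tiled.family {κ : Type*} (s : Finset κ) (f : κ × Fin k → V) (hf : Function.Injective f)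
    (h : ∀ x, IsHom E d (fun i => f (x, i))) : Tiled E d ((s ×ˢ univ).image f) := by
  induction s using Finset.induction_on with
  | empty => simpa using Tiled.empty
  | insert a s ha ih =>
    refine (Tiled.add _ (fun i => f (a, i)) ih ?_ (h a) ?_).cast ?_
    · intro i j hij
      simpa using hf hij
    · intro i hi
      obtain ⟨x, hx, e⟩ := mem_image.1 hi
      have := hf e
      subst this
      exact ha (mem_product.1 hx).1
    · ext v
      simp only [mem_union, mem_image, mem_product, mem_univ, and_true, true_and, mem_insert,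
        Prod.exists]
      constructor
      · rintro (⟨x, i, hx, rfl⟩ | ⟨i, rfl⟩)
        · exact ⟨x, i, Or.inr hx, rfl⟩
        · exact ⟨a, i, Or.inl rfl, rfl⟩
      · rintro ⟨x, i, rfl | hx, rfl⟩
        · exact Or.inr ⟨i, rfl⟩
        · exact Or.inl ⟨x, i, hx, rfl⟩

lemma Tiled.exists_fun {S : Finset V} (hS : Tiled E d S) : ∃ (t : ℕ) (f : Fin t × Fin k → V),
    Function.Injective f ∧ (∀ j, IsHom E d (fun i => f (j, i))) ∧ ∀ v, v ∈ S ↔ ∃ x, f x = v := by
  induction hS with
  | empty =>
    exact ⟨0, fun x => x.1.elim0, fun x => x.1.elim0, fun j => j.elim0,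
      fun v => ⟨by simp, fun ⟨x, _⟩ => x.1.elim0⟩⟩
  | add T φ _ h1 h2 h3 ih =>
    obtain ⟨t, f, f1, f2, f3⟩ := ih
    refine ⟨t + 1, fun x => (Fin.cons φ (fun j i => f (j, i)) : Fin (t + 1) → Fin k → V) x.1 x.2,
      ?_, ?_, ?_⟩
    · rintro ⟨a, i⟩ ⟨b, j⟩ h
      induction a using Fin.cases with
      | zero =>
        induction b using Fin.cases with
        | zero => simp only [Fin.cons_zero] at h; rw [h1 h]
        | succ b =>
          simp only [Fin.cons_zero, Fin.cons_succ] at h
          exact absurd ((f3 _).2 ⟨_, h.symm⟩) (h3 i)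
      | succ a =>
        induction b using Fin.cases with
        | zero =>
          simp only [Fin.cons_zero, Fin.cons_succ] at h
          exact absurd ((f3 _).2 ⟨_, h⟩) (h3 j)
        | succ b =>
          simp only [Fin.cons_succ] at h
          have := f1 h
          simp only [Prod.mk.injEq] at this
          rw [this.1, this.2]
    · intro j
      induction j using Fin.cases with
      | zero => simpa using h2
      | succ j => simpa using f2 j
    · intro v
      simp only [mem_union, mem_image, mem_univ, true_and, f3, Prod.exists]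
      constructor
      · rintro (⟨a, i, rfl⟩ | ⟨i, rfl⟩)
        · exact ⟨a.succ, i, by simp⟩
        · exact ⟨0, i, by simp⟩
      · rintro ⟨a, i, rfl⟩
        induction a using Fin.cases with
        | zero => exact Or.inr ⟨i, by simp⟩
        | succ a => exact Or.inl ⟨a, i, by simp⟩

lemma Tiled.exists_equiv {n : ℕ} {E : Fin n → Fin n → Prop} (hk : 0 < k)
    (h : Tiled E d univ) : ∃ e : Fin (n / k) × Fin k ≃ Fin n,
      ∀ j, IsHom E d (fun i => e (j, i)) := by
  obtain ⟨t, f, f1, f2, f3⟩ := h.exists_fun
  have hb : Function.Bijective f := ⟨f1, fun v => (f3 v).1 (mem_univ v)⟩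
  have hc := Fintype.card_of_bijective hb
  simp only [Fintype.card_prod, Fintype.card_fin] at hc
  have ht : n / k = t := by rw [← hc, Nat.mul_div_cancel _ hk]
  subst ht
  exact ⟨Equiv.ofBijective f hb, f2⟩

end Pool.Agent.OCyc
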